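import Mathlib

/-!
The central value of a nonprincipal Dirichlet L-function as a finite sum with positive weights.
-/

set_option autoImplicit false

open Filter Topology Set

namespace Pool.Agent.X24.Coset

/-- the terms -/
noncomputable def HT (x : ℝ) (k : ℕ) (s : ℂ) : ℂ :=
  (((k : ℝ) + x : ℝ) : ℂ) ^ (-s) - (((k : ℝ) + 1 : ℝ) : ℂ) ^ (-s)

/-- the region -/
def HU (σ : ℝ) : Set ℂ := {s | σ < s.re} ∩ Metric.ball 0 3

theorem HT_bound (x : ℝ) (hx : 0 < x) (hx1 : x ≤ 1) (σ : ℝ) (hσ : 0 < σ) (k : ℕ) (s : ℂ) (hs : s ∈ HU σ) :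
    ‖HT x k s‖ ≤ 3 * x ^ (-4 : ℝ) * ((k + 1 : ℕ) : ℝ) ^ (-(1 + σ)) := by
  obtain ⟨h1, h2⟩ := hs
  have h1' : σ < s.re := h1
  have h2' : ‖s‖ < 3 := by simpa using h2
  have h2'' : s.re < 3 := (Complex.re_le_norm s).trans_lt h2'
  have hk : (0 : ℝ) ≤ (k : ℝ) := Nat.cast_nonneg k
  have hder : ∀ t ∈ Set.Icc ((k : ℝ) + x) ((k : ℝ) + 1),
      HasDerivWithinAt (fun t : ℝ => (t : ℂ) ^ (-s)) (-s * (t : ℂ) ^ (-s - 1) * 1)
        (Set.Icc ((k : ℝ) + x) ((k : ℝ) + 1)) t := by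
    intro t ht
    have ht0 : 0 < t := by linarith [ht.1]
    have h := ((hasDerivAt_id (t : ℂ)).cpow_const (c := -s)
      (Complex.ofReal_mem_slitPlane.mpr ht0)).comp_ofReal
    exact h.hasDerivWithinAt
  have hbd : ∀ t ∈ Set.Icc ((k : ℝ) + x) ((k : ℝ) + 1),
      ‖-s * (t : ℂ) ^ (-s - 1) * 1‖ ≤ 3 * x ^ (-4 : ℝ) * ((k + 1 : ℕ) : ℝ) ^ (-(1 + σ)) := by
    intro t ht
    have ht1 : (k : ℝ) + x ≤ t := ht.1
    have ht0 : 0 < t := by linarith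
    have hkp : (0 : ℝ) < ((k + 1 : ℕ) : ℝ) := by positivity
    have hk1 : (1 : ℝ) ≤ ((k + 1 : ℕ) : ℝ) := by push_cast; linarith
    have htk : x * ((k + 1 : ℕ) : ℝ) ≤ t := by
      push_cast
      nlinarith
    rw [mul_one, norm_mul, norm_neg, Complex.norm_cpow_eq_rpow_re_of_pos ht0]
    have e1 : (-s - 1).re = -s.re - 1 := by simp
    rw [e1]
    have e2 : t ^ (-s.re - 1) ≤ (x * ((k + 1 : ℕ) : ℝ)) ^ (-s.re - 1) :=
      Real.rpow_le_rpow_of_nonpos (by positivity) htk (by linarith)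
    have e3 : (x * ((k + 1 : ℕ) : ℝ)) ^ (-s.re - 1) = x ^ (-s.re - 1) * ((k + 1 : ℕ) : ℝ) ^ (-s.re - 1) :=
      Real.mul_rpow hx.le hkp.le
    have e4 : x ^ (-s.re - 1) ≤ x ^ (-4 : ℝ) := Real.rpow_le_rpow_of_exponent_ge hx hx1 (by linarith)
    have e5 : ((k + 1 : ℕ) : ℝ) ^ (-s.re - 1) ≤ ((k + 1 : ℕ) : ℝ) ^ (-(1 + σ)) :=
      Real.rpow_le_rpow_of_exponent_le hk1 (by linarith)
    have e6 : t ^ (-s.re - 1) ≤ x ^ (-4 : ℝ) * ((k + 1 : ℕ) : ℝ) ^ (-(1 + σ)) := by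
      rw [e3] at e2
      exact e2.trans (mul_le_mul e4 e5 (by positivity) (by positivity))
    calc ‖s‖ * t ^ (-s.re - 1) ≤ 3 * (x ^ (-4 : ℝ) * ((k + 1 : ℕ) : ℝ) ^ (-(1 + σ))) :=
          mul_le_mul h2'.le e6 (Real.rpow_nonneg ht0.le _) (by norm_num)
      _ = _ := by ring
  have h3 := (convex_Icc ((k : ℝ) + x) ((k : ℝ) + 1)).norm_image_sub_le_of_norm_hasDerivWithin_le
    hder hbd (x := (k : ℝ) + 1) (y := (k : ℝ) + x) ⟨by linarith, le_rfl⟩ ⟨le_rfl, by linarith⟩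
  have h4 : ‖((k : ℝ) + x) - ((k : ℝ) + 1)‖ ≤ 1 := by
    rw [Real.norm_eq_abs, abs_le]
    constructor <;> linarith
  calc ‖HT x k s‖ ≤ 3 * x ^ (-4 : ℝ) * ((k + 1 : ℕ) : ℝ) ^ (-(1 + σ)) * ‖((k : ℝ) + x) - ((k : ℝ) + 1)‖ := h3
    _ ≤ 3 * x ^ (-4 : ℝ) * ((k + 1 : ℕ) : ℝ) ^ (-(1 + σ)) * 1 :=
        mul_le_mul_of_nonneg_left h4 (by positivity)
    _ = _ := mul_one _

theorem HT_summable (x : ℝ) (σ : ℝ) (hσ : 0 < σ) :
    Summable (fun k : ℕ => 3 * x ^ (-4 : ℝ) * ((k + 1 : ℕ) : ℝ) ^ (-(1 + σ))) := by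
  refine Summable.mul_left _ ?_
  have h := Real.summable_nat_rpow.mpr (show -(1 + σ) < -1 by linarith)
  exact (summable_nat_add_iff 1).mpr h

theorem HU_open (σ : ℝ) : IsOpen (HU σ) :=
  (isOpen_lt continuous_const Complex.continuous_re).inter Metric.isOpen_ball

theorem HU_conn (σ : ℝ) : IsPreconnected (HU σ) := by
  have h1 : Convex ℝ {s : ℂ | σ < s.re} := convex_halfSpace_re_gt _
  exact (h1.inter (convex_ball _ _)).isPreconnected

theorem HT_diff (x : ℝ) (hx : 0 < x) (σ : ℝ) (k : ℕ) : DifferentiableOn ℂ (HT x k) (HU σ) := by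
  have h1 : ∀ a : ℝ, 0 < a → Differentiable ℂ (fun s : ℂ => ((a : ℝ) : ℂ) ^ (-s)) := by
    intro a ha s
    have ha' : ((a : ℝ) : ℂ) ≠ 0 := by exact_mod_cast ha.ne'
    exact (differentiableAt_id.neg).const_cpow (Or.inl ha')
  have hk : (0 : ℝ) ≤ (k : ℝ) := Nat.cast_nonneg k
  exact ((h1 ((k : ℝ) + x) (by positivity)).sub
    (h1 ((k : ℝ) + 1) (by positivity))).differentiableOn

theorem hurwitz_eq (x : ℝ) (hx : 0 < x) (hx1 : x ≤ 1) (σ : ℝ) (hσ : 0 < σ) (hσ2 : σ < 2) (s : ℂ) (hs : s ∈ HU σ) :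
    HurwitzZeta.hurwitzZeta (x : UnitAddCircle) s -
      HurwitzZeta.hurwitzZeta ((1 : ℝ) : UnitAddCircle) s = ∑' k, HT x k s := by
  have hG : AnalyticOnNhd ℂ (fun s => HurwitzZeta.hurwitzZeta (x : UnitAddCircle) s -
      HurwitzZeta.hurwitzZeta ((1 : ℝ) : UnitAddCircle) s) (HU σ) :=
    (HurwitzZeta.differentiable_hurwitzZeta_sub_hurwitzZeta _ _).differentiableOn.analyticOnNhd
      (HU_open σ)
  have hF := (Complex.differentiableOn_tsum_of_summable_norm (HT_summable x σ hσ) (HT_diff x hx σ) (HU_open σ)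
    (fun k s hs => HT_bound x hx hx1 σ hσ k s hs)).analyticOnNhd (HU_open σ)
  have h2U : (2 : ℂ) ∈ HU σ := by
    refine ⟨?_, ?_⟩
    · show σ < (2 : ℂ).re
      simpa using hσ2
    · simp
      norm_num
  refine hG.eqOn_of_preconnected_of_eventuallyEq hF (HU_conn σ) h2U ?_ hs
  have hopen : {s : ℂ | 1 < s.re} ∈ 𝓝 (2 : ℂ) :=
    (isOpen_lt continuous_const Complex.continuous_re).mem_nhds (by
      show 1 < (2 : ℂ).re
      norm_num)
  filter_upwards [hopen] with s hs1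
  have a1 := HurwitzZeta.hasSum_hurwitzZeta_of_one_lt_re (a := x) ⟨hx.le, hx1⟩ hs1
  have a2 := HurwitzZeta.hasSum_hurwitzZeta_of_one_lt_re (a := 1) ⟨by norm_num, by norm_num⟩ hs1
  rw [← (a1.sub a2).tsum_eq]
  refine tsum_congr fun k => ?_
  unfold HT
  rw [Complex.cpow_neg, Complex.cpow_neg, one_div, one_div]
  push_cast
  rfl

/-- the real terms at `s = 1 / 2` -/
noncomputable def rt (x : ℝ) (k : ℕ) : ℝ := ((k : ℝ) + x) ^ (-(1 / 2) : ℝ) - ((k : ℝ) + 1) ^ (-(1 / 2) : ℝ)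

theorem HT_half (x : ℝ) (hx : 0 < x) (k : ℕ) : HT x k (1 / 2) = ((rt x k : ℝ) : ℂ) := by
  have hk : (0 : ℝ) ≤ (k : ℝ) := Nat.cast_nonneg k
  unfold HT rt
  rw [Complex.ofReal_sub, Complex.ofReal_cpow (by positivity), Complex.ofReal_cpow (by positivity)]
  simp

theorem half_mem : (1 / 2 : ℂ) ∈ HU (1 / 4) := by
  refine ⟨?_, ?_⟩
  · show (1 / 4 : ℝ) < (1 / 2 : ℂ).re
    norm_num
  · simp
    norm_num

theorem rt_summable (x : ℝ) (hx : 0 < x) (hx1 : x ≤ 1) : Summable (rt x) := by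
  have h : Summable (fun k => HT x k (1 / 2)) :=
    Summable.of_norm_bounded (HT_summable x (1 / 4) (by norm_num))
      (fun k => HT_bound x hx hx1 (1 / 4) (by norm_num) k _ half_mem)
  simp only [HT_half x hx] at h
  exact Complex.summable_ofReal.mp h

theorem rt_nonneg (x : ℝ) (hx : 0 < x) (hx1 : x ≤ 1) (k : ℕ) : 0 ≤ rt x k := by
  have hk : (0 : ℝ) ≤ (k : ℝ) := Nat.cast_nonneg k
  unfold rt
  exact sub_nonneg.mpr (Real.rpow_le_rpow_of_nonpos (by positivity) (by linarith) (by norm_num))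

theorem rt_partial (x : ℝ) (hx : 0 < x) (n : ℕ) :
    ∑ k ∈ Finset.range (n + 1), rt x k ≤ x ^ (-(1 / 2) : ℝ) - ((n : ℝ) + 1) ^ (-(1 / 2) : ℝ) := by
  induction n with
  | zero => simp [rt]
  | succ n ih =>
    rw [Finset.sum_range_succ]
    have h1 : rt x (n + 1) ≤ ((n : ℝ) + 1) ^ (-(1 / 2) : ℝ) - ((((n + 1 : ℕ)) : ℝ) + 1) ^ (-(1 / 2) : ℝ) := by
      unfold rt
      have h2 : (((n + 1 : ℕ) : ℝ) + x) ^ (-(1 / 2) : ℝ) ≤ ((n : ℝ) + 1) ^ (-(1 / 2) : ℝ) :=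
        Real.rpow_le_rpow_of_nonpos (by positivity) (by push_cast; linarith) (by norm_num)
      linarith
    linarith

theorem tsum_rt_le (x : ℝ) (hx : 0 < x) (hx1 : x ≤ 1) : ∑' k, rt x k ≤ x ^ (-(1 / 2) : ℝ) := by
  refine (rt_summable x hx hx1).tsum_le_of_sum_range_le fun n => ?_
  rcases n with _ | n
  · simp only [Finset.range_zero, Finset.sum_empty]
    positivity
  · have := rt_partial x hx n
    have h2 : (0 : ℝ) ≤ ((n : ℝ) + 1) ^ (-(1 / 2) : ℝ) := by positivity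
    linarith

theorem le_tsum_rt (x : ℝ) (hx : 0 < x) (hx1 : x ≤ 1) : x ^ (-(1 / 2) : ℝ) - 1 ≤ ∑' k, rt x k := by
  have h := (rt_summable x hx hx1).le_tsum 0 (fun k _ => rt_nonneg x hx hx1 k)
  have h2 : rt x 0 = x ^ (-(1 / 2) : ℝ) - 1 := by simp [rt]
  rwa [h2] at h

/-- the weight of the residue `a` -/
noncomputable def wt (q a : ℕ) : ℝ := (q : ℝ) ^ (-(1 / 2) : ℝ) * ∑' k, rt ((a : ℝ) / q) k

theorem wt_nonneg {q a : ℕ} (ha : 1 ≤ a) (haq : a ≤ q) : 0 ≤ wt q a := by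
  have ha' : (0 : ℝ) < a := by exact_mod_cast ha
  have hq' : (0 : ℝ) < q := by exact_mod_cast (by omega : 0 < q)
  have haq' : (a : ℝ) ≤ q := by exact_mod_cast haq
  refine mul_nonneg (by positivity) (tsum_nonneg fun k => rt_nonneg _ (by positivity) ?_ k)
  rwa [div_le_one hq']

theorem scale_eq {q a : ℕ} (ha : 1 ≤ a) (haq : a ≤ q) :
    (q : ℝ) ^ (-(1 / 2) : ℝ) * ((a : ℝ) / q) ^ (-(1 / 2) : ℝ) = (a : ℝ) ^ (-(1 / 2) : ℝ) := by
  have ha' : (0 : ℝ) < a := by exact_mod_cast ha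
  have hq' : (0 : ℝ) < q := by exact_mod_cast (by omega : 0 < q)
  rw [← Real.mul_rpow (by positivity) (by positivity)]
  congr 1
  field_simp

theorem wt_le {q a : ℕ} (ha : 1 ≤ a) (haq : a ≤ q) : wt q a ≤ (a : ℝ) ^ (-(1 / 2) : ℝ) := by
  have ha' : (0 : ℝ) < a := by exact_mod_cast ha
  have hq' : (0 : ℝ) < q := by exact_mod_cast (by omega : 0 < q)
  have haq' : (a : ℝ) ≤ q := by exact_mod_cast haq
  rw [← scale_eq ha haq]
  exact mul_le_mul_of_nonneg_left (tsum_rt_le _ (by positivity) (by rwa [div_le_one hq'])) (by positivity)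

theorem le_wt {q a : ℕ} (ha : 1 ≤ a) (haq : a ≤ q) :
    (a : ℝ) ^ (-(1 / 2) : ℝ) - (q : ℝ) ^ (-(1 / 2) : ℝ) ≤ wt q a := by
  have ha' : (0 : ℝ) < a := by exact_mod_cast ha
  have hq' : (0 : ℝ) < q := by exact_mod_cast (by omega : 0 < q)
  have haq' : (a : ℝ) ≤ q := by exact_mod_cast haq
  rw [← scale_eq ha haq]
  calc (q : ℝ) ^ (-(1 / 2) : ℝ) * ((a : ℝ) / q) ^ (-(1 / 2) : ℝ) - (q : ℝ) ^ (-(1 / 2) : ℝ)
      = (q : ℝ) ^ (-(1 / 2) : ℝ) * (((a : ℝ) / q) ^ (-(1 / 2) : ℝ) - 1) := by ring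
    _ ≤ _ := mul_le_mul_of_nonneg_left (le_tsum_rt _ (by positivity) (by rwa [div_le_one hq'])) (by positivity)

/-- **The central value.** -/
theorem LFunction_half {q : ℕ} [hq : Fact q.Prime] (χ : DirichletCharacter ℂ q) (hχ : χ ≠ 1) :
    DirichletCharacter.LFunction χ (1 / 2) = ∑ a ∈ Finset.Ico 1 q, χ (a : ZMod q) * (wt q a : ℂ) := by
  have hq0 : 0 < q := hq.out.pos
  have hq1 : 1 < q := hq.out.one_lt
  have hqr : (0 : ℝ) < q := by exact_mod_cast hq0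
  haveI : NeZero q := ⟨hq0.ne'⟩
  have hsum : ∑ j : ZMod q, χ j = 0 := MulChar.sum_eq_zero_of_ne_one hχ
  have h1 : DirichletCharacter.LFunction χ (1 / 2) = (q : ℂ) ^ (-(1 / 2 : ℂ)) *
      ∑ j : ZMod q, χ j * (HurwitzZeta.hurwitzZeta (ZMod.toAddCircle j) (1 / 2) -
        HurwitzZeta.hurwitzZeta ((1 : ℝ) : UnitAddCircle) (1 / 2)) := by
    have h2 : ∑ j : ZMod q, χ j * (HurwitzZeta.hurwitzZeta (ZMod.toAddCircle j) (1 / 2) -
        HurwitzZeta.hurwitzZeta ((1 : ℝ) : UnitAddCircle) (1 / 2)) =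
        ∑ j : ZMod q, χ j * HurwitzZeta.hurwitzZeta (ZMod.toAddCircle j) (1 / 2) := by
      simp only [mul_sub, Finset.sum_sub_distrib, ← Finset.sum_mul, hsum, zero_mul, sub_zero]
    rw [h2]
    rfl
  have hbij : ∑ j : ZMod q, χ j * (HurwitzZeta.hurwitzZeta (ZMod.toAddCircle j) (1 / 2) -
      HurwitzZeta.hurwitzZeta ((1 : ℝ) : UnitAddCircle) (1 / 2)) =
      ∑ a ∈ Finset.range q, χ (a : ZMod q) * (HurwitzZeta.hurwitzZeta (ZMod.toAddCircle (a : ZMod q)) (1 / 2) -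
      HurwitzZeta.hurwitzZeta ((1 : ℝ) : UnitAddCircle) (1 / 2)) := by
    refine Finset.sum_bij' (fun j _ => j.val) (fun a _ => (a : ZMod q)) ?_ ?_ ?_ ?_ ?_
    · intro j _
      exact Finset.mem_range.mpr (ZMod.val_lt j)
    · intro a _
      exact Finset.mem_univ _
    · intro j _
      exact ZMod.natCast_zmod_val j
    · intro a ha
      exact ZMod.val_cast_of_lt (Finset.mem_range.mp ha)
    · intro j _
      rw [ZMod.natCast_zmod_val]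
  rw [h1, hbij, Finset.mul_sum, Finset.range_eq_Ico, Finset.sum_eq_sum_Ico_succ_bot hq0]
  have h0 : χ ((0 : ℕ) : ZMod q) = 0 := by
    rw [Nat.cast_zero]
    exact MulChar.map_zero χ
  rw [h0, zero_mul, mul_zero, zero_add]
  refine Finset.sum_congr rfl fun a ha => ?_
  rw [Finset.mem_Ico] at ha
  have ha0 : (0 : ℝ) < a := by exact_mod_cast ha.1
  have haq : (a : ℝ) ≤ q := by exact_mod_cast ha.2.le
  have hx0 : 0 < (a : ℝ) / q := by positivity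
  have hx1 : (a : ℝ) / q ≤ 1 := by rwa [div_le_one hqr]
  have h3 : ZMod.toAddCircle ((a : ℕ) : ZMod q) = (((a : ℝ) / q : ℝ) : UnitAddCircle) := by
    rw [ZMod.toAddCircle_apply, ZMod.val_cast_of_lt ha.2]
  rw [h3, hurwitz_eq _ hx0 hx1 (1 / 4) (by norm_num) (by norm_num) _ half_mem]
  have h4 : ∑' k, HT ((a : ℝ) / q) k (1 / 2) = ((∑' k, rt ((a : ℝ) / q) k : ℝ) : ℂ) := by
    rw [Complex.ofReal_tsum]
    exact tsum_congr fun k => HT_half _ hx0 k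
  rw [h4, wt, Complex.ofReal_mul, Complex.ofReal_cpow hqr.le]
  push_cast
  ring

end Pool.Agent.X24.Coset
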