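import Pool.Agent.X24.Coset.A

/-!
Orthogonality on a coset of a group of Dirichlet characters.
-/

set_option autoImplicit false

open Finset

namespace Pool.Agent.X24.Coset

section
variable {q : ℕ} [hq : Fact q.Prime]

instance finChar : Finite (DirichletCharacter ℂ q) := by
  have : NeZero q := ⟨hq.out.ne_zero⟩
  infer_instance

noncomputable instance fintypeSub (H : Subgroup (DirichletCharacter ℂ q)) : Fintype H := Fintype.ofFinite _

theorem unit_of_ne {x : ZMod q} (hx : x ≠ 0) : IsUnit x := hx.isUnit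

theorem star_char (χ : DirichletCharacter ℂ q) {y : ZMod q} : star (χ y) = χ y⁻¹ := by
  have : NeZero q := ⟨hq.out.ne_zero⟩
  rw [MulChar.star_apply', MulChar.inv_apply, Ring.inverse_eq_inv]

/-- the sum over the coset -/
noncomputable def E (H : Subgroup (DirichletCharacter ℂ q)) (χ₀ : DirichletCharacter ℂ q) (x y : ZMod q) : ℂ :=
  ∑ ψ : H, (χ₀ * ψ.1) x * star ((χ₀ * ψ.1) y)

omit hq in
theorem norm_char_le (χ : DirichletCharacter ℂ q) (x : ZMod q) : ‖χ x‖ ≤ 1 :=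
  DirichletCharacter.norm_le_one χ x

theorem E_self (H : Subgroup (DirichletCharacter ℂ q)) (χ₀ : DirichletCharacter ℂ q) {x : ZMod q} (hx : x ≠ 0) :
    E H χ₀ x x = Nat.card H := by
  unfold E
  have h : ∀ ψ : H, (χ₀ * ψ.1) x * star ((χ₀ * ψ.1) x) = 1 := by
    intro ψ
    rw [star_char, ← map_mul, mul_inv_cancel₀ hx, map_one]
  rw [sum_congr rfl fun ψ _ => h ψ, sum_const, card_univ, nsmul_eq_mul, mul_one, Nat.card_eq_fintype_card]

theorem E_norm (H : Subgroup (DirichletCharacter ℂ q)) (χ₀ : DirichletCharacter ℂ q) (x y : ZMod q) :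
    ‖E H χ₀ x y‖ ≤ Nat.card H := by
  unfold E
  refine (norm_sum_le _ _).trans ?_
  calc ∑ ψ : H, ‖(χ₀ * ψ.1) x * star ((χ₀ * ψ.1) y)‖ ≤ ∑ ψ : H, (1 : ℝ) := by
        refine sum_le_sum fun ψ _ => ?_
        rw [norm_mul, norm_star]
        exact mul_le_one₀ (norm_char_le _ _) (norm_nonneg _) (norm_char_le _ _)
    _ = Nat.card H := by
        rw [sum_const, card_univ, nsmul_eq_mul, mul_one, Nat.card_eq_fintype_card]

theorem pow_eq_of_E (H : Subgroup (DirichletCharacter ℂ q)) (χ₀ : DirichletCharacter ℂ q) {x y : ZMod q}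
    (hx : x ≠ 0) (hy : y ≠ 0) (h : E H χ₀ x y ≠ 0) : x ^ H.index = y ^ H.index := by
  have : NeZero q := ⟨hq.out.ne_zero⟩
  have hg : x * y⁻¹ ≠ 0 := mul_ne_zero hx (inv_ne_zero hy)
  have hE : E H χ₀ x y = χ₀ (x * y⁻¹) * ∑ ψ : H, ψ.1 (x * y⁻¹) := by
    unfold E
    rw [mul_sum]
    refine sum_congr rfl fun ψ _ => ?_
    rw [star_char, ← map_mul, MulChar.mul_apply]
  have h1 : ∀ ψ ∈ H, ψ (x * y⁻¹) = 1 := by
    by_contra hcon
    push Not at hcon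
    obtain ⟨ψ₀, hψ₀, hne⟩ := hcon
    apply h
    rw [hE]
    have h2 : ∑ ψ : H, ψ.1 (x * y⁻¹) = 0 := by
      refine eq_zero_of_mul_eq_self_left hne ?_
      rw [mul_sum]
      refine Fintype.sum_bijective (fun ψ : H => (⟨ψ₀, hψ₀⟩ : H) * ψ) (Group.mulLeft_bijective _) _ _ fun ψ => ?_
      rw [Subgroup.coe_mul, MulChar.mul_apply]
    rw [h2, mul_zero]
  have h3 : (x * y⁻¹) ^ H.index = 1 := by
    by_contra hne
    obtain ⟨χ, hχ⟩ := DirichletCharacter.exists_apply_ne_one_of_hasEnoughRootsOfUnity (n := q) ℂ hne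
    apply hχ
    have hJ : H.index ≠ 0 := Subgroup.index_ne_zero_of_finite
    have h4 : χ ^ H.index ∈ H := Subgroup.pow_index_mem H χ
    have h5 := h1 _ h4
    rw [MulChar.pow_apply' χ hJ] at h5
    rw [map_pow]
    exact h5
  rw [mul_pow, inv_pow, mul_inv_eq_one₀ (pow_ne_zero _ hy)] at h3
  exact h3

/-- the character sum over `S` -/
noncomputable def R (S : Finset ℕ) (χ : DirichletCharacter ℂ q) : ℂ := ∑ n ∈ S, χ (n : ZMod q)

/-- the weighted sum, which is the central value -/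
noncomputable def Lw (χ : DirichletCharacter ℂ q) : ℂ := ∑ a ∈ Ico 1 q, χ (a : ZMod q) * (wt q a : ℂ)

theorem cast_ne_zero {n : ℕ} (h1 : 1 ≤ n) (h2 : n < q) : (n : ZMod q) ≠ 0 := by
  intro h
  rw [ZMod.natCast_eq_zero_iff] at h
  exact absurd (Nat.le_of_dvd (by omega) h) (by omega)

theorem sum_normSq (H : Subgroup (DirichletCharacter ℂ q)) (χ₀ : DirichletCharacter ℂ q) (S : Finset ℕ)
    (hS : ∀ n ∈ S, 1 ≤ n ∧ n < q)
    (hd : ∀ m ∈ S, ∀ n ∈ S, (m : ZMod q) ^ H.index = (n : ZMod q) ^ H.index → m = n) :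
    ∑ ψ : H, ‖R S (χ₀ * ψ.1)‖ ^ 2 = Nat.card H * S.card := by
  have h1 : ∑ ψ : H, (((‖R S (χ₀ * ψ.1)‖ : ℝ) : ℂ)) ^ 2 = ∑ m ∈ S, ∑ n ∈ S, E H χ₀ (m : ZMod q) (n : ZMod q) := by
    have h2 : ∀ ψ : H, (((‖R S (χ₀ * ψ.1)‖ : ℝ) : ℂ)) ^ 2 =
        ∑ m ∈ S, ∑ n ∈ S, (χ₀ * ψ.1) (m : ZMod q) * star ((χ₀ * ψ.1) (n : ZMod q)) := by
      intro ψ
      rw [← Complex.mul_conj', R, map_sum, sum_mul_sum]
      rfl
    rw [sum_congr rfl fun ψ _ => h2 ψ, sum_comm]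
    refine sum_congr rfl fun m _ => ?_
    rw [sum_comm]
    rfl
  have h3 : ∑ m ∈ S, ∑ n ∈ S, E H χ₀ (m : ZMod q) (n : ZMod q) = (Nat.card H : ℂ) * S.card := by
    have h4 : ∀ m ∈ S, ∑ n ∈ S, E H χ₀ (m : ZMod q) (n : ZMod q) = (Nat.card H : ℂ) := by
      intro m hm
      rw [sum_eq_single m]
      · exact E_self H χ₀ (cast_ne_zero (hS m hm).1 (hS m hm).2)
      · intro n hn hne
        by_contra hE
        exact hne (hd m hm n hn (pow_eq_of_E H χ₀ (cast_ne_zero (hS m hm).1 (hS m hm).2)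
          (cast_ne_zero (hS n hn).1 (hS n hn).2) hE)).symm
      · intro h
        exact absurd hm h
    rw [sum_congr rfl h4, sum_const, nsmul_eq_mul, mul_comm]
  have h5 := h1.trans h3
  exact_mod_cast h5

theorem norm_R_le (S : Finset ℕ) (χ : DirichletCharacter ℂ q) : ‖R S χ‖ ≤ S.card := by
  unfold R
  refine (norm_sum_le _ _).trans ?_
  calc ∑ n ∈ S, ‖χ (n : ZMod q)‖ ≤ ∑ n ∈ S, (1 : ℝ) := sum_le_sum fun n _ => norm_char_le _ _
    _ = S.card := by rw [sum_const, nsmul_eq_mul, mul_one]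

theorem norm_Lw_le (χ : DirichletCharacter ℂ q) : ‖Lw χ‖ ≤ ∑ a ∈ Ico 1 q, wt q a := by
  unfold Lw
  refine (norm_sum_le _ _).trans (sum_le_sum fun a ha => ?_)
  rw [mem_Ico] at ha
  rw [norm_mul, Complex.norm_real, Real.norm_of_nonneg (wt_nonneg ha.1 ha.2.le)]
  exact mul_le_of_le_one_left (wt_nonneg ha.1 ha.2.le) (norm_char_le _ _)

theorem sum_T (H : Subgroup (DirichletCharacter ℂ q)) (χ₀ : DirichletCharacter ℂ q) (S₁ S₂ : Finset ℕ) :
    ∑ ψ : H, Lw (χ₀ * ψ.1) * R S₁ (χ₀ * ψ.1) * star (R S₂ (χ₀ * ψ.1)) =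
      ∑ a ∈ Ico 1 q, ∑ m ∈ S₁, ∑ n ∈ S₂, (wt q a : ℂ) * E H χ₀ ((a : ZMod q) * m) n := by
  have h : ∀ ψ : H, Lw (χ₀ * ψ.1) * R S₁ (χ₀ * ψ.1) * star (R S₂ (χ₀ * ψ.1)) =
      ∑ a ∈ Ico 1 q, ∑ m ∈ S₁, ∑ n ∈ S₂, (wt q a : ℂ) *
        ((χ₀ * ψ.1) ((a : ZMod q) * m) * star ((χ₀ * ψ.1) n)) := by
    intro ψ
    rw [Lw, R, R, star_sum, sum_mul_sum, sum_mul]
    refine sum_congr rfl fun a _ => ?_
    rw [sum_mul]
    refine sum_congr rfl fun m _ => ?_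
    rw [mul_sum]
    refine sum_congr rfl fun n _ => ?_
    rw [map_mul]
    ring
  rw [sum_congr rfl fun ψ _ => h ψ, sum_comm]
  refine sum_congr rfl fun a _ => ?_
  rw [sum_comm]
  refine sum_congr rfl fun m _ => ?_
  rw [sum_comm]
  refine sum_congr rfl fun n _ => ?_
  rw [← mul_sum]
  rfl

/-- the main terms -/
noncomputable def Main (q : ℕ) (S₁ S₂ : Finset ℕ) : ℝ :=
  ∑ a ∈ Ico 1 q, ∑ m ∈ S₁, ∑ n ∈ S₂, if a * m = n then wt q a else 0

open Classical in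
/-- the error terms -/
noncomputable def Err (q J : ℕ) (S₁ S₂ : Finset ℕ) : ℝ :=
  ∑ a ∈ Ico 1 q, ∑ m ∈ S₁, ∑ n ∈ S₂,
    if a * m ≠ n ∧ ((a : ZMod q) * m) ^ J = (n : ZMod q) ^ J then wt q a else 0

theorem T_close (H : Subgroup (DirichletCharacter ℂ q)) (χ₀ : DirichletCharacter ℂ q) (S₁ S₂ : Finset ℕ)
    (hS₁ : ∀ n ∈ S₁, 1 ≤ n ∧ n < q) (hS₂ : ∀ n ∈ S₂, 1 ≤ n ∧ n < q) :
    ‖(∑ ψ : H, Lw (χ₀ * ψ.1) * R S₁ (χ₀ * ψ.1) * star (R S₂ (χ₀ * ψ.1))) -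
      ((Nat.card H * Main q S₁ S₂ : ℝ) : ℂ)‖ ≤ Nat.card H * Err q H.index S₁ S₂ := by
  classical
  have h1 : ((Nat.card H * Main q S₁ S₂ : ℝ) : ℂ) = ∑ a ∈ Ico 1 q, ∑ m ∈ S₁, ∑ n ∈ S₂,
      (((Nat.card H * if a * m = n then wt q a else 0 : ℝ)) : ℂ) := by
    rw [Main, mul_sum, Complex.ofReal_sum]
    refine sum_congr rfl fun a _ => ?_
    rw [mul_sum, Complex.ofReal_sum]
    refine sum_congr rfl fun m _ => ?_
    rw [mul_sum, Complex.ofReal_sum]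
  have h2 : Nat.card H * Err q H.index S₁ S₂ = ∑ a ∈ Ico 1 q, ∑ m ∈ S₁, ∑ n ∈ S₂, (Nat.card H : ℝ) *
      (if a * m ≠ n ∧ ((a : ZMod q) * m) ^ H.index = (n : ZMod q) ^ H.index then wt q a else 0) := by
    rw [Err, mul_sum]
    refine sum_congr rfl fun a _ => ?_
    rw [mul_sum]
    refine sum_congr rfl fun m _ => ?_
    rw [mul_sum]
  rw [sum_T, h1, h2, ← sum_sub_distrib]
  refine (norm_sum_le _ _).trans (sum_le_sum fun a ha => ?_)
  rw [← sum_sub_distrib]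
  refine (norm_sum_le _ _).trans (sum_le_sum fun m hm => ?_)
  rw [← sum_sub_distrib]
  refine (norm_sum_le _ _).trans (sum_le_sum fun n hn => ?_)
  rw [mem_Ico] at ha
  have ha0 := cast_ne_zero ha.1 ha.2
  have hm0 := cast_ne_zero (hS₁ m hm).1 (hS₁ m hm).2
  have hn0 := cast_ne_zero (hS₂ n hn).1 (hS₂ n hn).2
  have hw := wt_nonneg ha.1 ha.2.le
  have hcard : (0 : ℝ) ≤ Nat.card H := Nat.cast_nonneg _
  by_cases hamn : a * m = n
  · have e1 : ((a : ZMod q) * m) = n := by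
      rw [← hamn]
      push_cast
      ring
    rw [if_pos hamn, e1, E_self H χ₀ hn0]
    have e2 : (wt q a : ℂ) * (Nat.card H : ℂ) - (((Nat.card H * wt q a : ℝ)) : ℂ) = 0 := by
      push_cast
      ring
    rw [e2, norm_zero]
    split_ifs
    · positivity
    · simp
  · rw [if_neg hamn, mul_zero, Complex.ofReal_zero, sub_zero]
    by_cases hpow : ((a : ZMod q) * m) ^ H.index = (n : ZMod q) ^ H.index
    · rw [if_pos ⟨hamn, hpow⟩, norm_mul, Complex.norm_real, Real.norm_of_nonneg hw, mul_comm]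
      exact mul_le_mul_of_nonneg_right (E_norm H χ₀ _ _) hw
    · have hE : E H χ₀ ((a : ZMod q) * m) n = 0 := by
        by_contra hE
        exact hpow (pow_eq_of_E H χ₀ (mul_ne_zero ha0 hm0) hn0 hE)
      rw [hE, mul_zero, norm_zero, if_neg (fun h => hpow h.2), mul_zero]

/-- **The inequality on a coset.** -/
theorem coset_ineq (H : Subgroup (DirichletCharacter ℂ q)) (χ₀ : DirichletCharacter ℂ q) (V : ℝ) (hV0 : 0 ≤ V)
    (hV : ∀ ψ ∈ H, χ₀ * ψ ≠ 1 → ‖DirichletCharacter.LFunction (χ₀ * ψ) (1 / 2)‖ ≤ V) (S₁ S₂ : Finset ℕ)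
    (hS₁ : ∀ n ∈ S₁, 1 ≤ n ∧ n < q) (hS₂ : ∀ n ∈ S₂, 1 ≤ n ∧ n < q)
    (hd₁ : ∀ m ∈ S₁, ∀ n ∈ S₁, (m : ZMod q) ^ H.index = (n : ZMod q) ^ H.index → m = n)
    (hd₂ : ∀ m ∈ S₂, ∀ n ∈ S₂, (m : ZMod q) ^ H.index = (n : ZMod q) ^ H.index → m = n) :
    Main q S₁ S₂ - Err q H.index S₁ S₂ ≤ V * (√(S₁.card) * √(S₂.card)) +
      (∑ a ∈ Ico 1 q, wt q a) * (S₁.card * S₂.card) / Nat.card H := by
  classical
  have hcard : (0 : ℝ) < Nat.card H := by exact_mod_cast Nat.card_pos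
  set W := ∑ a ∈ Ico 1 q, wt q a with hW
  have hW0 : 0 ≤ W := sum_nonneg fun a ha => by
    rw [mem_Ico] at ha
    exact wt_nonneg ha.1 ha.2.le
  have h1 := T_close H χ₀ S₁ S₂ hS₁ hS₂
  set T := ∑ ψ : H, Lw (χ₀ * ψ.1) * R S₁ (χ₀ * ψ.1) * star (R S₂ (χ₀ * ψ.1)) with hT
  have h2 : Nat.card H * Main q S₁ S₂ ≤ ‖T‖ + Nat.card H * Err q H.index S₁ S₂ := by
    have h3 : ‖((Nat.card H * Main q S₁ S₂ : ℝ) : ℂ)‖ ≤ ‖T‖ + ‖T - ((Nat.card H * Main q S₁ S₂ : ℝ) : ℂ)‖ := by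
      have := norm_sub_le T (T - ((Nat.card H * Main q S₁ S₂ : ℝ) : ℂ))
      rwa [sub_sub_cancel] at this
    have h4 : Nat.card H * Main q S₁ S₂ ≤ ‖((Nat.card H * Main q S₁ S₂ : ℝ) : ℂ)‖ := by
      rw [Complex.norm_real]
      exact le_abs_self _
    linarith
  have h5 : ‖T‖ ≤ ∑ ψ : H, (V * (‖R S₁ (χ₀ * ψ.1)‖ * ‖R S₂ (χ₀ * ψ.1)‖) +
      (if χ₀ * ψ.1 = 1 then W * (S₁.card * S₂.card) else 0)) := by
    refine (norm_sum_le _ _).trans (sum_le_sum fun ψ _ => ?_)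
    rw [norm_mul, norm_mul, norm_star, mul_assoc]
    split_ifs with hone
    · have h6 : ‖Lw (χ₀ * ψ.1)‖ * (‖R S₁ (χ₀ * ψ.1)‖ * ‖R S₂ (χ₀ * ψ.1)‖) ≤ W * (S₁.card * S₂.card) :=
        mul_le_mul (norm_Lw_le _) (mul_le_mul (norm_R_le _ _) (norm_R_le _ _) (norm_nonneg _) (Nat.cast_nonneg _))
          (by positivity) hW0
      have h7 : 0 ≤ V * (‖R S₁ (χ₀ * ψ.1)‖ * ‖R S₂ (χ₀ * ψ.1)‖) := by positivity
      linarith
    · rw [add_zero]
      refine mul_le_mul_of_nonneg_right ?_ (by positivity)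
      have h8 := hV ψ.1 ψ.2 hone
      rwa [LFunction_half _ hone] at h8
  have h9 : ∑ ψ : H, (V * (‖R S₁ (χ₀ * ψ.1)‖ * ‖R S₂ (χ₀ * ψ.1)‖)) ≤
      V * (Nat.card H * (√(S₁.card) * √(S₂.card))) := by
    rw [← mul_sum]
    refine mul_le_mul_of_nonneg_left ?_ hV0
    refine (Real.sum_mul_le_sqrt_mul_sqrt _ _ _).trans ?_
    rw [sum_normSq H χ₀ S₁ hS₁ hd₁, sum_normSq H χ₀ S₂ hS₂ hd₂, Real.sqrt_mul hcard.le, Real.sqrt_mul hcard.le]
    have h10 : √(Nat.card H : ℝ) * √(Nat.card H : ℝ) = Nat.card H := Real.mul_self_sqrt hcard.le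
    calc √(Nat.card H : ℝ) * √(S₁.card) * (√(Nat.card H : ℝ) * √(S₂.card))
        = (√(Nat.card H : ℝ) * √(Nat.card H : ℝ)) * (√(S₁.card) * √(S₂.card)) := by ring
      _ ≤ _ := by rw [h10]
  have h11 : ∑ ψ : H, (if χ₀ * ψ.1 = 1 then W * (S₁.card * S₂.card) else 0) ≤ W * (S₁.card * S₂.card) := by
    rw [← sum_filter, sum_const, nsmul_eq_mul]
    have h12 : ((univ : Finset H).filter fun ψ => χ₀ * ψ.1 = 1).card ≤ 1 := by
      rw [card_le_one]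
      intro a ha b hb
      rw [mem_filter] at ha hb
      apply Subtype.ext
      exact mul_left_cancel (ha.2.trans hb.2.symm)
    have h13 : (((univ : Finset H).filter fun ψ => χ₀ * ψ.1 = 1).card : ℝ) ≤ 1 := by exact_mod_cast h12
    exact mul_le_of_le_one_left (by positivity) h13
  rw [sum_add_distrib] at h5
  have h14 : Nat.card H * (Main q S₁ S₂ - Err q H.index S₁ S₂) ≤
      Nat.card H * (V * (√(S₁.card) * √(S₂.card)) + W * (S₁.card * S₂.card) / Nat.card H) := by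
    have e1 : Nat.card H * (V * (√(S₁.card : ℝ) * √(S₂.card)) + W * (S₁.card * S₂.card) / Nat.card H) =
      V * (Nat.card H * (√(S₁.card) * √(S₂.card))) + W * (S₁.card * S₂.card) := by
      field_simp
    rw [e1]
    linarith
  exact le_of_mul_le_mul_left h14 hcard

end

end Pool.Agent.X24.Coset
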