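import Pool.Agent.X24.Coset.B

/-!
The exceptional primes.
-/

set_option autoImplicit false

open Finset

namespace Pool.Agent.X24.Coset

/-- the primes in `(Q, 2 Q]` -/
def dyad (Q : ℕ) : Finset ℕ := (Ioc Q (2 * Q)).filter Nat.Prime

theorem card_dvd {Q k : ℕ} (hQ : 2 ≤ Q) {D : ℕ} (hD : D ≠ 0) (hDQ : D ≤ Q ^ k) :
    ((dyad Q).filter (fun q => q ∣ D)).card ≤ k := by
  set s := (dyad Q).filter (fun q => q ∣ D) with hs
  have h1 : ∏ q ∈ s, q ∣ D := by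
    refine Finset.prod_primes_dvd D ?_ ?_
    · intro a ha
      rw [hs, mem_filter, dyad, mem_filter] at ha
      exact ha.1.2.prime
    · intro a ha
      rw [hs, mem_filter] at ha
      exact ha.2
  have h2 : Q ^ s.card ≤ ∏ q ∈ s, q := by
    refine Finset.pow_card_le_prod s _ Q ?_
    intro a ha
    rw [hs, mem_filter, dyad, mem_filter, mem_Ioc] at ha
    exact ha.1.1.1.le
  have h3 : Q ^ s.card ≤ Q ^ k := h2.trans ((Nat.le_of_dvd (Nat.pos_of_ne_zero hD) h1).trans hDQ)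
  exact (Nat.pow_le_pow_iff_right (by omega)).mp h3

/-- the congruence `(a m) ^ J = n ^ J` modulo `q`, in a nontrivial way -/
def Bd (q J m n a : ℕ) : Prop := a * m ≠ n ∧ ((a * m : ℕ) : ZMod q) ^ J = (n : ZMod q) ^ J

open Classical in
/-- the weight of the nontrivial congruences -/
noncomputable def Wq (Jm N A q : ℕ) : ℝ :=
  ∑ J ∈ Icc 1 Jm, ∑ m ∈ Icc 1 N, ∑ n ∈ Icc 1 N, ∑ a ∈ Icc 1 A,
    if Bd q J m n a then (a : ℝ) ^ (-(1 / 2) : ℝ) else 0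

theorem card_bd {Q : ℕ} (hQ : 2 ≤ Q) {J m n a : ℕ} (hJ : 1 ≤ J) (hm : 1 ≤ m) (hn : 1 ≤ n) (ha : 1 ≤ a)
    (hamQ : a * m ≤ Q ^ 2) (hnQ : n ≤ Q ^ 2) (hne : a * m ≠ n) :
    ((dyad Q).filter (fun q => ((a * m : ℕ) : ZMod q) ^ J = (n : ZMod q) ^ J)).card ≤ 2 * J := by
  have h0 : ((a * m) ^ J : ℤ) - (n : ℤ) ^ J ≠ 0 := by
    intro h
    have h1 : ((a * m) ^ J : ℤ) = (n : ℤ) ^ J := by linarith
    have h2 : (a * m) ^ J = n ^ J := by exact_mod_cast h1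
    exact hne (Nat.pow_left_injective (by omega) h2)
  have h1 : (((a * m) ^ J : ℤ) - (n : ℤ) ^ J).natAbs ≤ Q ^ (2 * J) := by
    have h2 : (a * m) ^ J ≤ Q ^ (2 * J) := by
      rw [pow_mul]
      exact Nat.pow_le_pow_left hamQ J
    have h3 : n ^ J ≤ Q ^ (2 * J) := by
      rw [pow_mul]
      exact Nat.pow_le_pow_left hnQ J
    have h4 : ((a * m) ^ J : ℤ) ≤ ((Q ^ (2 * J) : ℕ) : ℤ) := by exact_mod_cast h2
    have h5 : (n : ℤ) ^ J ≤ ((Q ^ (2 * J) : ℕ) : ℤ) := by exact_mod_cast h3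
    have h6 : (0 : ℤ) ≤ (a * m) ^ J := by positivity
    have h7 : (0 : ℤ) ≤ (n : ℤ) ^ J := by positivity
    omega
  refine le_trans (card_le_card ?_) (card_dvd hQ (Int.natAbs_ne_zero.mpr h0) h1)
  intro q hq
  rw [mem_filter] at hq ⊢
  refine ⟨hq.1, ?_⟩
  rw [← Int.natCast_dvd, ← ZMod.intCast_zmod_eq_zero_iff_dvd]
  · push_cast
    have := hq.2
    push_cast at this
    rw [this, sub_self]

theorem sum_rpow_le (A : ℕ) : ∑ a ∈ Icc 1 A, (a : ℝ) ^ (-(1 / 2) : ℝ) ≤ 2 * √A := by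
  induction A with
  | zero => simp
  | succ A ih =>
    rw [sum_Icc_succ_top (by omega)]
    have h1 : (((A + 1 : ℕ)) : ℝ) ^ (-(1 / 2) : ℝ) = 1 / √((A + 1 : ℕ) : ℝ) := by
      rw [Real.rpow_neg (Nat.cast_nonneg _), Real.sqrt_eq_rpow, one_div, one_div]
    have h2 : 2 * √(A : ℝ) + 1 / √((A + 1 : ℕ) : ℝ) ≤ 2 * √((A + 1 : ℕ) : ℝ) := by
      have hx : 0 < √((A + 1 : ℕ) : ℝ) := Real.sqrt_pos.mpr (by positivity)
      have hy : 0 ≤ √(A : ℝ) := Real.sqrt_nonneg _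
      have hx2 : √((A + 1 : ℕ) : ℝ) ^ 2 = A + 1 := by
        rw [Real.sq_sqrt (by positivity)]
        push_cast
        ring
      have hy2 : √(A : ℝ) ^ 2 = A := Real.sq_sqrt (by positivity)
      set x := √((A + 1 : ℕ) : ℝ)
      set y := √(A : ℝ)
      rw [← sub_nonneg]
      have : 2 * x - (2 * y + 1 / x) = (x - y) ^ 2 / x := by
        field_simp
        nlinarith
      rw [this]
      positivity
    rw [h1]
    linarith

theorem sum_Wq {Q : ℕ} (hQ : 2 ≤ Q) {Jm N A : ℕ} (hA : A * N ≤ Q ^ 2) (hN : N ≤ Q ^ 2) :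
    ∑ q ∈ dyad Q, Wq Jm N A q ≤ 4 * Jm ^ 2 * N ^ 2 * √A := by
  classical
  have h1 : ∑ q ∈ dyad Q, Wq Jm N A q = ∑ J ∈ Icc 1 Jm, ∑ m ∈ Icc 1 N, ∑ n ∈ Icc 1 N, ∑ a ∈ Icc 1 A,
      ∑ q ∈ dyad Q, if Bd q J m n a then (a : ℝ) ^ (-(1 / 2) : ℝ) else 0 := by
    unfold Wq
    rw [sum_comm]
    refine sum_congr rfl fun J _ => ?_
    rw [sum_comm]
    refine sum_congr rfl fun m _ => ?_
    rw [sum_comm]
    refine sum_congr rfl fun n _ => ?_
    rw [sum_comm]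
  rw [h1]
  have h2 : ∀ J ∈ Icc 1 Jm, ∀ m ∈ Icc 1 N, ∀ n ∈ Icc 1 N, ∀ a ∈ Icc 1 A,
      (∑ q ∈ dyad Q, if Bd q J m n a then (a : ℝ) ^ (-(1 / 2) : ℝ) else 0) ≤
        2 * Jm * (a : ℝ) ^ (-(1 / 2) : ℝ) := by
    intro J hJ m hm n hn a ha
    rw [mem_Icc] at hJ hm hn ha
    have ha0 : (0 : ℝ) ≤ (a : ℝ) ^ (-(1 / 2) : ℝ) := by positivity
    by_cases hne : a * m = n
    · have : ∀ q ∈ dyad Q, (if Bd q J m n a then (a : ℝ) ^ (-(1 / 2) : ℝ) else 0) = 0 := by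
        intro q _
        rw [if_neg]
        exact fun h => h.1 hne
      rw [sum_congr rfl this, sum_const_zero]
      positivity
    · rw [← sum_filter, sum_const, nsmul_eq_mul]
      refine mul_le_mul_of_nonneg_right ?_ ha0
      have h3 : ((dyad Q).filter (fun q => Bd q J m n a)).card ≤ 2 * J := by
        refine le_trans (card_le_card ?_) (card_bd hQ hJ.1 hm.1 hn.1 ha.1
          ((Nat.mul_le_mul ha.2 hm.2).trans hA) (hn.2.trans hN) hne)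
        intro q hq
        rw [mem_filter] at hq ⊢
        exact ⟨hq.1, hq.2.2⟩
      have h4 : ((dyad Q).filter (fun q => Bd q J m n a)).card ≤ 2 * Jm := h3.trans (by omega)
      exact_mod_cast h4
  calc _ ≤ ∑ J ∈ Icc 1 Jm, ∑ m ∈ Icc 1 N, ∑ n ∈ Icc 1 N, ∑ a ∈ Icc 1 A, 2 * Jm * (a : ℝ) ^ (-(1 / 2) : ℝ) :=
        sum_le_sum fun J hJ => sum_le_sum fun m hm => sum_le_sum fun n hn => sum_le_sum fun a ha =>
          h2 J hJ m hm n hn a ha
    _ = Jm * (N * (N * (2 * Jm * ∑ a ∈ Icc 1 A, (a : ℝ) ^ (-(1 / 2) : ℝ)))) := by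
        simp only [← mul_sum, sum_const, Nat.card_Icc, nsmul_eq_mul, Nat.add_sub_cancel]
        ring
    _ ≤ Jm * (N * (N * (2 * Jm * (2 * √A)))) := by
        have := sum_rpow_le A
        gcongr
    _ = _ := by ring

theorem card_bad {Q : ℕ} (hQ : 2 ≤ Q) {Jm N A : ℕ} (hA : A * N ≤ Q ^ 2) (hN : N ≤ Q ^ 2) {w : ℝ} (hw : 0 < w) :
    (((dyad Q).filter (fun q => w < Wq Jm N A q)).card : ℝ) ≤ 4 * Jm ^ 2 * N ^ 2 * √A / w := by
  classical
  rw [le_div_iff₀ hw]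
  refine le_trans ?_ (sum_Wq hQ hA hN (Jm := Jm))
  have h0 : ∀ q, 0 ≤ Wq Jm N A q := by
    intro q
    unfold Wq
    refine sum_nonneg fun J _ => sum_nonneg fun m _ => sum_nonneg fun n _ => sum_nonneg fun a _ => ?_
    split_ifs
    · positivity
    · exact le_rfl
  calc (((dyad Q).filter (fun q => w < Wq Jm N A q)).card : ℝ) * w
      = ∑ q ∈ (dyad Q).filter (fun q => w < Wq Jm N A q), w := by rw [sum_const, nsmul_eq_mul]
    _ ≤ ∑ q ∈ (dyad Q).filter (fun q => w < Wq Jm N A q), Wq Jm N A q :=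
        sum_le_sum fun q hq => (mem_filter.mp hq).2.le
    _ ≤ _ := sum_le_sum_of_subset_of_nonneg (filter_subset _ _) fun q _ _ => h0 q

theorem le_Wq {Jm N A q J m n : ℕ} (hJ : J ∈ Icc 1 Jm) (hm : m ∈ Icc 1 N) (hn : n ∈ Icc 1 N) :
    (open Classical in ∑ a ∈ Icc 1 A, if Bd q J m n a then (a : ℝ) ^ (-(1 / 2) : ℝ) else 0) ≤ Wq Jm N A q := by
  classical
  have h0 : ∀ J m n a, (0 : ℝ) ≤ if Bd q J m n a then (a : ℝ) ^ (-(1 / 2) : ℝ) else 0 := by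
    intro J m n a
    split_ifs
    · positivity
    · exact le_rfl
  unfold Wq
  calc _ ≤ ∑ n ∈ Icc 1 N, ∑ a ∈ Icc 1 A, (if Bd q J m n a then (a : ℝ) ^ (-(1 / 2) : ℝ) else 0) :=
        single_le_sum (f := fun n => ∑ a ∈ Icc 1 A, (if Bd q J m n a then (a : ℝ) ^ (-(1 / 2) : ℝ) else 0))
          (fun n _ => sum_nonneg fun a _ => h0 J m n a) hn
    _ ≤ ∑ m ∈ Icc 1 N, ∑ n ∈ Icc 1 N, ∑ a ∈ Icc 1 A, (if Bd q J m n a then (a : ℝ) ^ (-(1 / 2) : ℝ) else 0) :=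
        single_le_sum (f := fun m => ∑ n ∈ Icc 1 N, ∑ a ∈ Icc 1 A,
          (if Bd q J m n a then (a : ℝ) ^ (-(1 / 2) : ℝ) else 0))
          (fun m _ => sum_nonneg fun n _ => sum_nonneg fun a _ => h0 J m n a) hm
    _ ≤ _ := single_le_sum (f := fun J => ∑ m ∈ Icc 1 N, ∑ n ∈ Icc 1 N, ∑ a ∈ Icc 1 A,
          (if Bd q J m n a then (a : ℝ) ^ (-(1 / 2) : ℝ) else 0))
          (fun J _ => sum_nonneg fun m _ => sum_nonneg fun n _ => sum_nonneg fun a _ => h0 J m n a) hJ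

/-- no nontrivial coincidences for good primes -/
theorem no_coinc {Jm N A q J : ℕ} (hN1 : 1 ≤ N) (hNA : N ≤ A) {w : ℝ} (hw : w < (N : ℝ) ^ (-(1 / 2) : ℝ))
    (hq : Wq Jm N A q ≤ w) (hJ : J ∈ Icc 1 Jm) {m n : ℕ} (hm : m ∈ Icc 1 N) (hn : n ∈ Icc 1 N)
    (h : (m : ZMod q) ^ J = (n : ZMod q) ^ J) : m = n := by
  classical
  by_contra hne
  have h1 := le_Wq (A := A) (q := q) hJ (show 1 ∈ Icc 1 N from mem_Icc.mpr ⟨le_rfl, hN1⟩) hn
  rw [mem_Icc] at hm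
  have h2 : (m : ℝ) ^ (-(1 / 2) : ℝ) ≤
      ∑ a ∈ Icc 1 A, if Bd q J 1 n a then (a : ℝ) ^ (-(1 / 2) : ℝ) else 0 := by
    have h3 : (if Bd q J 1 n m then (m : ℝ) ^ (-(1 / 2) : ℝ) else 0) = (m : ℝ) ^ (-(1 / 2) : ℝ) := by
      rw [if_pos]
      refine ⟨by omega, ?_⟩
      rw [mul_one]
      exact h
    rw [← h3]
    refine single_le_sum (f := fun a => if Bd q J 1 n a then (a : ℝ) ^ (-(1 / 2) : ℝ) else 0) ?_
      (mem_Icc.mpr ⟨hm.1, hm.2.trans hNA⟩)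
    intro a _
    show (0 : ℝ) ≤ if Bd q J 1 n a then (a : ℝ) ^ (-(1 / 2) : ℝ) else 0
    split_ifs
    · positivity
    · exact le_rfl
  have hm0 : (0 : ℝ) < m := by exact_mod_cast hm.1
  have h4 : (N : ℝ) ^ (-(1 / 2) : ℝ) ≤ (m : ℝ) ^ (-(1 / 2) : ℝ) :=
    Real.rpow_le_rpow_of_nonpos hm0 (by exact_mod_cast hm.2) (by norm_num)
  linarith

section
variable {q : ℕ} [hq : Fact q.Prime]

theorem card_roots {J m n : ℕ} (hJ : 1 ≤ J) (hm : (m : ZMod q) ≠ 0) :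
    (open Classical in ((Ico 1 q).filter (fun a => ((a * m : ℕ) : ZMod q) ^ J = (n : ZMod q) ^ J)).card) ≤ J := by
  classical
  have h1 : ((Ico 1 q).filter (fun a => ((a * m : ℕ) : ZMod q) ^ J = (n : ZMod q) ^ J)).card ≤
      (Polynomial.nthRoots J ((n : ZMod q) ^ J / (m : ZMod q) ^ J)).toFinset.card := by
    refine card_le_card_of_injOn (fun a => (a : ZMod q)) ?_ ?_
    · intro a ha
      rw [mem_coe, mem_filter] at ha
      rw [mem_coe, Multiset.mem_toFinset, Polynomial.mem_nthRoots (by omega)]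
      rw [eq_div_iff (pow_ne_zero _ hm), ← ha.2]
      push_cast
      rw [mul_pow]
    · intro a ha b hb hab
      rw [mem_coe, mem_filter, mem_Ico] at ha hb
      have h2 : ((a : ℕ) : ZMod q) = ((b : ℕ) : ZMod q) := hab
      rw [ZMod.natCast_eq_natCast_iff'] at h2
      rwa [Nat.mod_eq_of_lt ha.1.2, Nat.mod_eq_of_lt hb.1.2] at h2
  exact h1.trans ((Multiset.toFinset_card_le _).trans (Polynomial.card_nthRoots _ _))

/-- the error terms for good primes -/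
theorem Err_le {Jm N A J : ℕ} (hA : 1 ≤ A) (hNq : N < q) {w : ℝ} (hw : Wq Jm N A q ≤ w) (hJ : J ∈ Icc 1 Jm)
    {S₁ S₂ : Finset ℕ} (hS₁ : S₁ ⊆ Icc 1 N) (hS₂ : S₂ ⊆ Icc 1 N) :
    Err q J S₁ S₂ ≤ N ^ 2 * w + N ^ 2 * (Jm * (A : ℝ) ^ (-(1 / 2) : ℝ)) := by
  classical
  have hJ' := mem_Icc.mp hJ
  have hA0 : (0 : ℝ) < A := by exact_mod_cast hA
  have hkey : ∀ m ∈ S₁, ∀ n ∈ S₂, (∑ a ∈ Ico 1 q, if a * m ≠ n ∧ ((a : ZMod q) * m) ^ J = (n : ZMod q) ^ J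
      then wt q a else 0) ≤ w + Jm * (A : ℝ) ^ (-(1 / 2) : ℝ) := by
    intro m hm n hn
    have hm' := mem_Icc.mp (hS₁ hm)
    have hm0 : (m : ZMod q) ≠ 0 := cast_ne_zero hm'.1 (by omega)
    have h1 : ∀ a ∈ Ico 1 q, (if a * m ≠ n ∧ ((a : ZMod q) * m) ^ J = (n : ZMod q) ^ J
        then wt q a else 0) ≤ (if a ∈ Icc 1 A ∧ Bd q J m n a then (a : ℝ) ^ (-(1 / 2) : ℝ) else 0) +
        (if ((a * m : ℕ) : ZMod q) ^ J = (n : ZMod q) ^ J then (A : ℝ) ^ (-(1 / 2) : ℝ) else 0) := by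
      intro a ha
      rw [mem_Ico] at ha
      have ha0 : (0 : ℝ) < a := by exact_mod_cast ha.1
      have hwt := wt_le ha.1 ha.2.le
      by_cases hc : a * m ≠ n ∧ ((a : ZMod q) * m) ^ J = (n : ZMod q) ^ J
      · rw [if_pos hc]
        have hc2 : ((a * m : ℕ) : ZMod q) ^ J = (n : ZMod q) ^ J := by
          push_cast
          exact hc.2
        rw [if_pos hc2]
        by_cases haA : a ≤ A
        · rw [if_pos ⟨mem_Icc.mpr ⟨ha.1, haA⟩, hc.1, hc2⟩]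
          have : (0 : ℝ) ≤ (A : ℝ) ^ (-(1 / 2) : ℝ) := by positivity
          linarith
        · rw [if_neg (fun h => haA (mem_Icc.mp h.1).2), zero_add]
          refine hwt.trans (Real.rpow_le_rpow_of_nonpos hA0 ?_ (by norm_num))
          exact_mod_cast (not_le.mp haA).le
      · rw [if_neg hc]
        refine add_nonneg ?_ ?_
        · split_ifs
          · positivity
          · exact le_rfl
        · split_ifs
          · positivity
          · exact le_rfl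
    refine (sum_le_sum h1).trans ?_
    rw [sum_add_distrib]
    refine add_le_add ?_ ?_
    · refine le_trans ?_ ((le_Wq (A := A) (q := q) hJ (hS₁ hm) (hS₂ hn)).trans hw)
      rw [← sum_filter, ← sum_filter]
      refine sum_le_sum_of_subset_of_nonneg ?_ fun a _ _ => by positivity
      intro a ha
      rw [mem_filter] at ha ⊢
      exact ⟨ha.2.1, ha.2.2⟩
    · rw [← sum_filter, sum_const, nsmul_eq_mul]
      refine mul_le_mul_of_nonneg_right ?_ (by positivity)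
      have := (card_roots (q := q) (n := n) hJ'.1 hm0).trans hJ'.2
      exact_mod_cast this
  have hcard : ∀ S : Finset ℕ, S ⊆ Icc 1 N → (S.card : ℝ) ≤ N := by
    intro S hS
    have := card_le_card hS
    rw [Nat.card_Icc, Nat.add_sub_cancel] at this
    exact_mod_cast this
  have hw0 : 0 ≤ w + Jm * (A : ℝ) ^ (-(1 / 2) : ℝ) := by
    have : 0 ≤ Wq Jm N A q := by
      unfold Wq
      refine sum_nonneg fun J _ => sum_nonneg fun m _ => sum_nonneg fun n _ => sum_nonneg fun a _ => ?_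
      split_ifs
      · positivity
      · exact le_rfl
    have : 0 ≤ w := this.trans hw
    positivity
  unfold Err
  calc _ = ∑ m ∈ S₁, ∑ n ∈ S₂, ∑ a ∈ Ico 1 q, (if a * m ≠ n ∧ ((a : ZMod q) * m) ^ J = (n : ZMod q) ^ J
      then wt q a else 0) := by
        rw [sum_comm]
        refine sum_congr rfl fun m _ => ?_
        rw [sum_comm]
    _ ≤ ∑ m ∈ S₁, ∑ n ∈ S₂, (w + Jm * (A : ℝ) ^ (-(1 / 2) : ℝ)) :=
        sum_le_sum fun m hm => sum_le_sum fun n hn => hkey m hm n hn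
    _ = S₁.card * (S₂.card * (w + Jm * (A : ℝ) ^ (-(1 / 2) : ℝ))) := by
        simp only [sum_const, nsmul_eq_mul]
    _ ≤ N * (N * (w + Jm * (A : ℝ) ^ (-(1 / 2) : ℝ))) := by
        have e1 := hcard S₁ hS₁
        have e2 := hcard S₂ hS₂
        gcongr
    _ = _ := by ring

end

end Pool.Agent.X24.Coset
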