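import Pool.Agent.X24.Coset.C

/-!
The resonating sets: products of `k` primes from each of several blocks.
-/

set_option autoImplicit false

open Finset

namespace Pool.Agent.X24.Coset

/-- the primes in `(4 ^ j, 4 ^ (j + 1)]` -/
def P (j : ℕ) : Finset ℕ := (Ioc (4 ^ j) (4 ^ (j + 1))).filter Nat.Prime

theorem aux_pow (j : ℕ) (hj : 8 ≤ j) : 2 * (j + 2) * (1 + 4 * 2 ^ j) ≤ 4 ^ j := by
  induction j, hj using Nat.le_induction with
  | base => norm_num
  | succ j hj ih =>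
    have h1 : (4 : ℕ) ^ (j + 1) = 4 * 4 ^ j := by rw [pow_succ]; ring
    have h2 : (2 : ℕ) ^ (j + 1) = 2 * 2 ^ j := by rw [pow_succ]; ring
    rw [h1, h2]
    have h3 : 4 * (2 * (j + 2) * (1 + 4 * 2 ^ j)) ≤ 4 * 4 ^ j := Nat.mul_le_mul_left 4 ih
    refine le_trans ?_ h3
    have h4 : 1 ≤ 2 ^ j := Nat.one_le_two_pow
    nlinarith

theorem card_block (j : ℕ) (hj : 8 ≤ j) : 4 ^ j ≤ 2 * (j + 1) * (P j).card := by
  have hlog4 : Real.log 4 = 2 * Real.log 2 := by
    rw [show (4 : ℝ) = 2 ^ 2 by norm_num, Real.log_pow]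
    norm_num
  have hl2 : 0 < Real.log 2 := Real.log_pos (by norm_num)
  have h1 := Chebyshev.theta_ge (4 ^ (j + 1))
  have h2 := Chebyshev.theta_le_log4_mul_x (x := ((4 ^ j : ℕ) : ℝ)) (Nat.cast_nonneg _)
  have h3 : Chebyshev.theta ((4 ^ (j + 1) : ℕ) : ℝ) - Chebyshev.theta ((4 ^ j : ℕ) : ℝ) ≤
      (P j).card * Real.log ((4 ^ (j + 1) : ℕ) : ℝ) := by
    unfold Chebyshev.theta
    rw [Nat.floor_natCast, Nat.floor_natCast]
    have h4 : (Ioc 0 (4 ^ (j + 1))).filter Nat.Prime = (Ioc 0 (4 ^ j)).filter Nat.Prime ∪ P j := by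
      ext p
      have : 4 ^ j ≤ 4 ^ (j + 1) := Nat.pow_le_pow_right (by norm_num) (by omega)
      simp only [P, mem_filter, mem_union, mem_Ioc]
      constructor
      · rintro ⟨⟨h1, h2⟩, h3⟩
        rcases le_or_gt p (4 ^ j) with h | h
        · exact Or.inl ⟨⟨h1, h⟩, h3⟩
        · exact Or.inr ⟨⟨h, h2⟩, h3⟩
      · rintro (⟨⟨h1, h2⟩, h3⟩ | ⟨⟨h1, h2⟩, h3⟩)
        · exact ⟨⟨h1, by omega⟩, h3⟩
        · exact ⟨⟨by omega, h2⟩, h3⟩
    have h5 : Disjoint ((Ioc 0 (4 ^ j)).filter Nat.Prime) (P j) := by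
      rw [Finset.disjoint_left]
      intro p h1 h2
      simp only [P, mem_filter, mem_Ioc] at h1 h2
      omega
    rw [h4, sum_union h5, add_sub_cancel_left, ← nsmul_eq_mul, ← sum_const]
    refine sum_le_sum fun p hp => ?_
    simp only [P, mem_filter, mem_Ioc] at hp
    have hp0 : (0 : ℝ) < p := by exact_mod_cast hp.2.pos
    exact Real.log_le_log hp0 (by exact_mod_cast hp.1.2)
  have h6 : Real.log ((4 ^ (j + 1) : ℕ) : ℝ) = (j + 1) * (2 * Real.log 2) := by
    push_cast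
    rw [Real.log_pow, hlog4]
    push_cast
    ring
  have h7 : √((4 ^ (j + 1) : ℕ) : ℝ) = 2 * 2 ^ j := by
    have : ((4 ^ (j + 1) : ℕ) : ℝ) = (2 * 2 ^ j) ^ 2 := by
      push_cast
      rw [mul_pow, ← pow_mul, mul_comm j 2, pow_mul, pow_succ]
      norm_num
      ring
    rw [this, Real.sqrt_sq (by positivity)]
  have h8 : Real.log (((4 ^ (j + 1) : ℕ) : ℝ) + 1) ≤ (j + 2) * (2 * Real.log 2) := by
    have h9 : ((4 ^ (j + 1) : ℕ) : ℝ) + 1 ≤ (4 : ℝ) ^ (j + 2) := by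
      push_cast
      have : (1 : ℝ) ≤ 4 ^ (j + 1) := one_le_pow₀ (by norm_num)
      rw [pow_succ (4 : ℝ) (j + 1)]
      linarith
    have h10 := Real.log_le_log (by positivity) h9
    rw [Real.log_pow, hlog4] at h10
    push_cast at h10 ⊢
    exact h10
  have h11 : (2 * (j + 2) * (1 + 4 * 2 ^ j) : ℝ) ≤ 4 ^ j := by exact_mod_cast aux_pow j hj
  have h12 : ((4 ^ (j + 1) : ℕ) : ℝ) = 4 * 4 ^ j := by
    push_cast
    rw [pow_succ]
    ring
  have h13 : ((4 ^ j : ℕ) : ℝ) = 4 ^ j := by push_cast; rfl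
  rw [h6, h7] at h1
  rw [h6] at h3
  rw [hlog4, h13] at h2
  have h14 : (4 : ℝ) ^ j * Real.log 2 ≤ (P j).card * ((j + 1) * (2 * Real.log 2)) := by
    have h15 : (2 * (j + 2) * (1 + 4 * 2 ^ j) : ℝ) * Real.log 2 ≤ 4 ^ j * Real.log 2 :=
      mul_le_mul_of_nonneg_right h11 hl2.le
    have h16 : (0 : ℝ) ≤ 2 ^ j * Real.log 2 := by positivity
    rw [h12] at h1 h8
    rw [h13, h12] at h3
    nlinarith
  have h18 : (4 : ℝ) ^ j ≤ 2 * (j + 1) * (P j).card := by
    have h19 : (4 : ℝ) ^ j * Real.log 2 ≤ (2 * (j + 1) * (P j).card) * Real.log 2 := by linarith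
    exact le_of_mul_le_mul_right h19 hl2
  exact_mod_cast h18

/-! ### the sets -/

/-- the product of the chosen primes -/
def nOf {B : ℕ} (A : Fin B → Finset ℕ) : ℕ := ∏ i, ∏ p ∈ A i, p

/-- the families of `k` primes from each block -/
def Fam (j B k : ℕ) : Finset (Fin B → Finset ℕ) := Fintype.piFinset fun i : Fin B => powersetCard k (P (j + i))

theorem mem_Fam {j B k : ℕ} {A : Fin B → Finset ℕ} : A ∈ Fam j B k ↔ ∀ i, A i ⊆ P (j + i) ∧ (A i).card = k := by
  simp [Fam, Fintype.mem_piFinset, mem_powersetCard]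

theorem prime_of_mem {j p : ℕ} (h : p ∈ P j) : p.Prime := (mem_filter.mp h).2

theorem P_disj {i j p : ℕ} (h1 : p ∈ P i) (h2 : p ∈ P j) : i = j := by
  simp only [P, mem_filter, mem_Ioc] at h1 h2
  by_contra hne
  rcases Nat.lt_or_gt_of_ne hne with h | h
  · have : 4 ^ (i + 1) ≤ 4 ^ j := Nat.pow_le_pow_right (by norm_num) h
    omega
  · have : 4 ^ (j + 1) ≤ 4 ^ i := Nat.pow_le_pow_right (by norm_num) h
    omega

theorem dvd_nOf {j B : ℕ} {A : Fin B → Finset ℕ} (hA : ∀ i, A i ⊆ P (j + i)) (i : Fin B) {p : ℕ}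
    (hp : p ∈ P (j + i)) : p ∣ nOf A ↔ p ∈ A i := by
  have hpp := prime_of_mem hp
  constructor
  · intro h
    rw [nOf, (Nat.Prime.prime hpp).dvd_finsetProd_iff] at h
    obtain ⟨i', _, h⟩ := h
    rw [(Nat.Prime.prime hpp).dvd_finsetProd_iff] at h
    obtain ⟨r, hr, h⟩ := h
    have hr' := hA i' hr
    have : p = r := (Nat.prime_dvd_prime_iff_eq hpp (prime_of_mem hr')).mp h
    subst this
    have h2 := P_disj hp hr'
    have h3 : i = i' := Fin.ext (by omega)
    rwa [h3]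
  · intro h
    rw [nOf]
    exact (dvd_prod_of_mem _ h).trans (dvd_prod_of_mem (fun i => ∏ p ∈ A i, p) (mem_univ i))

theorem nOf_inj {j B : ℕ} {A A' : Fin B → Finset ℕ} (hA : ∀ i, A i ⊆ P (j + i)) (hA' : ∀ i, A' i ⊆ P (j + i))
    (h : nOf A = nOf A') : A = A' := by
  funext i
  ext p
  constructor
  · intro hp
    have h1 := hA i hp
    rw [← dvd_nOf hA' i h1, ← h, dvd_nOf hA i h1]
    exact hp
  · intro hp
    have h1 := hA' i hp
    rw [← dvd_nOf hA i h1, h, dvd_nOf hA' i h1]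
    exact hp

theorem nOf_pos {j B : ℕ} {A : Fin B → Finset ℕ} (hA : ∀ i, A i ⊆ P (j + i)) : 1 ≤ nOf A := by
  unfold nOf
  exact Nat.one_le_iff_ne_zero.mpr (prod_ne_zero_iff.mpr fun i _ => prod_ne_zero_iff.mpr fun p hp =>
    (prime_of_mem (hA i hp)).ne_zero)

theorem nOf_le {j B k : ℕ} {A : Fin B → Finset ℕ} (hA : ∀ i, A i ⊆ P (j + i)) (hk : ∀ i, (A i).card = k) :
    nOf A ≤ 4 ^ ((j + B) * (B * k)) := by
  unfold nOf
  calc ∏ i, ∏ p ∈ A i, p ≤ ∏ i : Fin B, (4 ^ (j + B)) ^ k := by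
        refine prod_le_prod' fun i _ => ?_
        rw [← hk i]
        refine prod_le_pow_card _ _ _ fun p hp => ?_
        have h1 := hA i hp
        simp only [P, mem_filter, mem_Ioc] at h1
        refine h1.1.2.trans (Nat.pow_le_pow_right (by norm_num) ?_)
        have := i.2
        omega
    _ = 4 ^ ((j + B) * (B * k)) := by
        rw [prod_const, card_univ, Fintype.card_fin, ← pow_mul, ← pow_mul]
        congr 1
        ring

/-- the resonating set -/
def SS (j B k : ℕ) : Finset ℕ := (Fam j B k).image nOf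

theorem card_SS (j B k : ℕ) : (SS j B k).card = ∏ i : Fin B, (P (j + i)).card.choose k := by
  rw [SS, card_image_of_injOn, Fam, Fintype.card_piFinset]
  · simp
  · intro A hA A' hA' h
    rw [mem_coe, mem_Fam] at hA hA'
    exact nOf_inj (fun i => (hA i).1) (fun i => (hA' i).1) h

theorem nOf_union {B : ℕ} {A V : Fin B → Finset ℕ} (hd : ∀ i, Disjoint (A i) (V i)) :
    nOf (fun i => A i ∪ V i) = nOf V * nOf A := by
  unfold nOf
  rw [← prod_mul_distrib]
  refine prod_congr rfl fun i _ => ?_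
  rw [prod_union (hd i), mul_comm]

theorem Main_ge {q : ℕ} {j B k l : ℕ} {X : ℝ}
    (hX : ∀ V ∈ Fam j B l, nOf V < q ∧ X ≤ wt q (nOf V)) :
    (SS j B k).card * (∏ i : Fin B, ((P (j + i)).card - k).choose l : ℕ) * X ≤
      Main q (SS j B k) (SS j B (k + l)) := by
  classical
  have h1 : Main q (SS j B k) (SS j B (k + l)) =
      ∑ A ∈ Fam j B k, ∑ a ∈ Ico 1 q, ∑ n ∈ SS j B (k + l), if a * nOf A = n then wt q a else 0 := by
    unfold Main
    rw [sum_comm, SS, sum_image]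
    intro A hA A' hA' h
    rw [mem_coe, mem_Fam] at hA hA'
    exact nOf_inj (fun i => (hA i).1) (fun i => (hA' i).1) h
  have hcardS : ((SS j B k).card : ℝ) = (Fam j B k).card := by
    rw [SS, card_image_of_injOn]
    intro A hA A' hA' h
    rw [mem_coe, mem_Fam] at hA hA'
    exact nOf_inj (fun i => (hA i).1) (fun i => (hA' i).1) h
  rw [h1, hcardS, mul_assoc, ← nsmul_eq_mul, ← sum_const]
  refine sum_le_sum fun A hA => ?_
  rw [mem_Fam] at hA
  set G : Finset (Fin B → Finset ℕ) := Fintype.piFinset fun i : Fin B => powersetCard l (P (j + i) \ A i) with hG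
  have hGmem : ∀ V ∈ G, (∀ i, V i ⊆ P (j + i) \ A i ∧ (V i).card = l) := by
    intro V hV i
    rw [hG, Fintype.mem_piFinset] at hV
    exact mem_powersetCard.mp (hV i)
  have hGF : ∀ V ∈ G, V ∈ Fam j B l := by
    intro V hV
    rw [mem_Fam]
    intro i
    have := hGmem V hV i
    exact ⟨this.1.trans sdiff_subset, this.2⟩
  have hGcard : G.card = ∏ i : Fin B, ((P (j + i)).card - k).choose l := by
    rw [hG, Fintype.card_piFinset]
    refine prod_congr rfl fun i _ => ?_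
    rw [card_powersetCard, card_sdiff_of_subset (hA i).1, (hA i).2]
  rw [← hGcard]
  have hnn : ∀ a ∈ Ico 1 q, 0 ≤ ∑ n ∈ SS j B (k + l), (if a * nOf A = n then wt q a else 0) := by
    intro a ha
    rw [mem_Ico] at ha
    refine sum_nonneg fun n _ => ?_
    split_ifs
    · exact wt_nonneg ha.1 ha.2.le
    · exact le_rfl
  have hinj : Set.InjOn (nOf : (Fin B → Finset ℕ) → ℕ) (G : Set (Fin B → Finset ℕ)) := by
    intro V hV V' hV' h
    exact nOf_inj (fun i => ((hGmem V hV i).1).trans sdiff_subset)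
      (fun i => ((hGmem V' hV' i).1).trans sdiff_subset) h
  calc (G.card : ℝ) * X = ∑ V ∈ G, X := by rw [sum_const, nsmul_eq_mul]
    _ ≤ ∑ V ∈ G, ∑ n ∈ SS j B (k + l), (if nOf V * nOf A = n then wt q (nOf V) else 0) := by
        refine sum_le_sum fun V hV => ?_
        obtain ⟨hVq, hVX⟩ := hX V (hGF V hV)
        have hd : ∀ i, Disjoint (A i) (V i) := by
          intro i
          exact (disjoint_sdiff).mono_right (hGmem V hV i).1
        have hmem : nOf V * nOf A ∈ SS j B (k + l) := by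
          rw [SS, mem_image]
          refine ⟨fun i => A i ∪ V i, ?_, nOf_union hd⟩
          rw [mem_Fam]
          intro i
          refine ⟨union_subset (hA i).1 ((hGmem V hV i).1.trans sdiff_subset), ?_⟩
          rw [card_union_of_disjoint (hd i), (hA i).2, (hGmem V hV i).2]
        rw [sum_eq_single (nOf V * nOf A)]
        · rw [if_pos rfl]
          exact hVX
        · intro n _ hn
          rw [if_neg (fun h => hn h.symm)]
        · intro h
          exact absurd hmem h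
    _ = ∑ a ∈ G.image nOf, ∑ n ∈ SS j B (k + l), (if a * nOf A = n then wt q a else 0) := by
        rw [sum_image hinj]
    _ ≤ _ := by
        refine sum_le_sum_of_subset_of_nonneg ?_ fun a ha _ => hnn a ha
        intro a ha
        rw [mem_image] at ha
        obtain ⟨V, hV, rfl⟩ := ha
        rw [mem_Ico]
        exact ⟨nOf_pos (j := j) fun i => (hGmem V hV i).1.trans sdiff_subset, (hX V (hGF V hV)).1⟩

/-! ### binomial coefficients -/

theorem choose_ge {n r : ℕ} (hr : r ≤ n) : ((n - r : ℕ) : ℝ) ^ r ≤ (r : ℝ) ^ r * (n.choose r : ℝ) := by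
  have h1 : (n + 1 - r) ^ r ≤ r.factorial * n.choose r := by
    rw [← Nat.descFactorial_eq_factorial_mul_choose]
    exact Nat.pow_sub_le_descFactorial n r
  have h2 : r.factorial ≤ r ^ r := Nat.factorial_le_pow r
  have h3 : (n - r) ^ r ≤ r ^ r * n.choose r :=
    (Nat.pow_le_pow_left (by omega) r).trans (h1.trans (Nat.mul_le_mul_right _ h2))
  exact_mod_cast h3

/-- one block -/
theorem block_ge {p k l j : ℕ} (hl : 1 ≤ l) (hp : 2 * (k + l) ≤ p) (hpj : 4 ^ j ≤ 2 * (j + 1) * p)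
    (hk : 64 * (j + 1) * l ^ 2 ≤ k) :
    (p.choose (k + l) : ℝ) * (4 ^ l * 4 ^ ((j + 1) * l)) ≤ (p.choose k : ℝ) * ((p - k).choose l : ℝ) ^ 2 := by
  have h1 : p.choose (k + l) * (k + l).choose k = p.choose k * (p - k).choose l := by
    have := Nat.choose_mul (n := p) (k := k + l) (s := k) (Nat.le_add_right k l)
    rw [Nat.add_sub_cancel_left] at this
    exact this
  have h1' : (p.choose (k + l) : ℝ) * ((k + l).choose k : ℝ) = (p.choose k : ℝ) * ((p - k).choose l : ℝ) := by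
    exact_mod_cast h1
  have h2 : (k : ℝ) ^ l ≤ (l : ℝ) ^ l * ((k + l).choose k : ℝ) := by
    have h := choose_ge (n := k + l) (r := l) (Nat.le_add_left l k)
    rw [Nat.add_sub_cancel, ← Nat.choose_symm_add] at h
    exact h
  have h3 : (((p - k - l : ℕ)) : ℝ) ^ l ≤ (l : ℝ) ^ l * ((p - k).choose l : ℝ) :=
    choose_ge (n := p - k) (r := l) (by omega)
  have hl0 : (0 : ℝ) < l := by exact_mod_cast hl
  have h4 : (4 * (4 : ℝ) ^ (j + 1)) * (l * l) ≤ k * ((p - k - l : ℕ) : ℝ) := by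
    have h5 : p ≤ 2 * (p - k - l) := by omega
    have h6 : 4 * 4 ^ (j + 1) * (l * l) ≤ k * (p - k - l) := by
      have h7 : 4 ^ (j + 1) ≤ 4 * (2 * (j + 1) * (2 * (p - k - l))) := by
        rw [pow_succ]
        calc 4 ^ j * 4 = 4 * 4 ^ j := by ring
          _ ≤ 4 * (2 * (j + 1) * p) := Nat.mul_le_mul_left 4 hpj
          _ ≤ _ := Nat.mul_le_mul_left 4 (Nat.mul_le_mul_left _ h5)
      calc 4 * 4 ^ (j + 1) * (l * l) ≤ 4 * (4 * (2 * (j + 1) * (2 * (p - k - l)))) * (l * l) :=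
            Nat.mul_le_mul_right _ (Nat.mul_le_mul_left _ h7)
        _ = (64 * (j + 1) * l ^ 2) * (p - k - l) := by ring
        _ ≤ k * (p - k - l) := Nat.mul_le_mul_right _ hk
    exact_mod_cast h6
  have h8 : ((4 * (4 : ℝ) ^ (j + 1)) * (l * l)) ^ l ≤ (k * ((p - k - l : ℕ) : ℝ)) ^ l :=
    pow_le_pow_left₀ (by positivity) h4 l
  have h9 : (4 : ℝ) ^ l * 4 ^ ((j + 1) * l) * ((l : ℝ) ^ l * (l : ℝ) ^ l) ≤
      ((l : ℝ) ^ l * ((k + l).choose k : ℝ)) * ((l : ℝ) ^ l * ((p - k).choose l : ℝ)) := by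
    calc (4 : ℝ) ^ l * 4 ^ ((j + 1) * l) * ((l : ℝ) ^ l * (l : ℝ) ^ l)
        = ((4 * (4 : ℝ) ^ (j + 1)) * (l * l)) ^ l := by rw [mul_pow, mul_pow, mul_pow, pow_mul]
      _ ≤ (k * ((p - k - l : ℕ) : ℝ)) ^ l := h8
      _ = (k : ℝ) ^ l * ((p - k - l : ℕ) : ℝ) ^ l := mul_pow _ _ _
      _ ≤ _ := mul_le_mul h2 h3 (by positivity) (by positivity)
  have h10 : (4 : ℝ) ^ l * 4 ^ ((j + 1) * l) ≤ ((k + l).choose k : ℝ) * ((p - k).choose l : ℝ) := by
    have h11 : (0 : ℝ) < (l : ℝ) ^ l * (l : ℝ) ^ l := by positivity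
    have h12 : ((4 : ℝ) ^ l * 4 ^ ((j + 1) * l)) * ((l : ℝ) ^ l * (l : ℝ) ^ l) ≤
        (((k + l).choose k : ℝ) * ((p - k).choose l : ℝ)) * ((l : ℝ) ^ l * (l : ℝ) ^ l) := by
      calc _ ≤ _ := h9
        _ = _ := by ring
    exact le_of_mul_le_mul_right h12 h11
  calc (p.choose (k + l) : ℝ) * (4 ^ l * 4 ^ ((j + 1) * l))
      ≤ (p.choose (k + l) : ℝ) * (((k + l).choose k : ℝ) * ((p - k).choose l : ℝ)) :=
        mul_le_mul_of_nonneg_left h10 (Nat.cast_nonneg _)
    _ = ((p.choose (k + l) : ℝ) * ((k + l).choose k : ℝ)) * ((p - k).choose l : ℝ) := by ring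
    _ = _ := by rw [h1']; ring

end Pool.Agent.X24.Coset
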