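import Pool.Agent.X24.Coset.D

/-!
The bound for one prime.
-/

set_option autoImplicit false

open Finset

namespace Pool.Agent.X24.Coset

theorem blocks_big {j l : ℕ} (hj : 8 ≤ j) (hbig : 516 * j * (j + 1) * l ^ 2 ≤ 4 ^ j) (hl : 1 ≤ l) (i : ℕ) :
    2 * (128 * j * l ^ 2 + l) ≤ (P (j + i)).card := by
  have h1 := card_block (j + i) (by omega)
  have h2 : 516 * j * (j + i + 1) * l ^ 2 ≤ 4 ^ (j + i) := by
    have h3 : i + 1 ≤ 4 ^ i := by
      have := Nat.lt_pow_self (n := i) (show 1 < 4 by norm_num)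
      omega
    have h4 : j + i + 1 ≤ 4 ^ i * (j + 1) := by nlinarith
    calc 516 * j * (j + i + 1) * l ^ 2 ≤ 516 * j * (4 ^ i * (j + 1)) * l ^ 2 := by gcongr
      _ = 4 ^ i * (516 * j * (j + 1) * l ^ 2) := by ring
      _ ≤ 4 ^ i * 4 ^ j := Nat.mul_le_mul_left _ hbig
      _ = 4 ^ (j + i) := by rw [← pow_add, add_comm]
  have h5 : 2 * (j + i + 1) * (258 * j * l ^ 2) ≤ 2 * (j + i + 1) * (P (j + i)).card := by
    refine le_trans ?_ h1
    refine le_trans (le_of_eq ?_) h2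
    ring
  have h6 : 258 * j * l ^ 2 ≤ (P (j + i)).card := Nat.le_of_mul_le_mul_left h5 (by omega)
  have h7 : l ≤ j * l ^ 2 := by nlinarith
  nlinarith

theorem prod_block {j l : ℕ} (hj : 8 ≤ j) (hl : 1 ≤ l) (hbig : 516 * j * (j + 1) * l ^ 2 ≤ 4 ^ j) :
    ((SS j j (128 * j * l ^ 2 + l)).card : ℝ) * (4 ^ (l * j) * (∏ i : Fin j, (4 : ℝ) ^ ((j + i + 1) * l))) ≤
      ((SS j j (128 * j * l ^ 2)).card : ℝ) *
        ((∏ i : Fin j, ((P (j + i)).card - 128 * j * l ^ 2).choose l : ℕ) : ℝ) ^ 2 := by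
  rw [card_SS, card_SS]
  push_cast
  have e1 : (4 : ℝ) ^ (l * j) = ∏ i : Fin j, (4 : ℝ) ^ l := by
    rw [prod_const, card_univ, Fintype.card_fin, ← pow_mul]
  rw [e1, ← prod_mul_distrib, ← prod_mul_distrib, ← prod_pow, ← prod_mul_distrib]
  refine prod_le_prod (fun i _ => by positivity) fun i _ => ?_
  refine block_ge hl (blocks_big hj hbig hl i) ?_ ?_
  · exact card_block (j + i) (by omega)
  · have := i.2
    have h1 : 64 * (j + i + 1) ≤ 128 * j := by omega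
    exact Nat.mul_le_mul_right _ h1

theorem SS_sub {j B k N : ℕ} (hN : 4 ^ ((j + B) * (B * k)) ≤ N) : SS j B k ⊆ Icc 1 N := by
  intro n hn
  rw [SS, mem_image] at hn
  obtain ⟨A, hA, rfl⟩ := hn
  rw [mem_Fam] at hA
  rw [mem_Icc]
  exact ⟨nOf_pos fun i => (hA i).1, (nOf_le (fun i => (hA i).1) (fun i => (hA i).2)).trans hN⟩

theorem nOf_le' {j B l : ℕ} {V : Fin B → Finset ℕ} (hV : V ∈ Fam j B l) :
    nOf V ≤ ∏ i : Fin B, 4 ^ ((j + i + 1) * l) := by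
  rw [mem_Fam] at hV
  unfold nOf
  refine prod_le_prod' fun i _ => ?_
  rw [pow_mul, ← (hV i).2]
  refine prod_le_pow_card _ _ _ fun p hp => ?_
  have h1 := (hV i).1 hp
  simp only [P, mem_filter, mem_Ioc] at h1
  exact h1.1.2

theorem rpow_half (x : ℝ) (hx : 0 ≤ x) : x ^ (-(1 / 2) : ℝ) = (√x)⁻¹ := by
  rw [Real.rpow_neg hx, Real.sqrt_eq_rpow]

theorem Main_lower {q j l N : ℕ} (hj : 8 ≤ j) (hl : 1 ≤ l) (hbig : 516 * j * (j + 1) * l ^ 2 ≤ 4 ^ j)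
    (hN : 4 ^ ((j + j) * (j * (128 * j * l ^ 2 + l))) ≤ N) (hNq : 4 * N ≤ q) :
    2 ^ (l * j) / 2 * (√((SS j j (128 * j * l ^ 2)).card) * √((SS j j (128 * j * l ^ 2 + l)).card)) ≤
      Main q (SS j j (128 * j * l ^ 2)) (SS j j (128 * j * l ^ 2 + l)) := by
  set k := 128 * j * l ^ 2 with hk
  set Y : ℕ := ∏ i : Fin j, 2 ^ ((j + i + 1) * l) with hY
  have hY2 : (∏ i : Fin j, 4 ^ ((j + i + 1) * l) : ℕ) = Y ^ 2 := by
    rw [hY, ← prod_pow]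
    refine prod_congr rfl fun i _ => ?_
    rw [show (4 : ℕ) = 2 ^ 2 by norm_num, ← pow_mul, ← pow_mul, mul_comm]
  have hYN : Y ^ 2 ≤ N := by
    rw [← hY2]
    refine le_trans ?_ hN
    calc ∏ i : Fin j, 4 ^ ((j + i + 1) * l) ≤ ∏ i : Fin j, 4 ^ ((j + j) * l) := by
          refine prod_le_prod' fun i _ => Nat.pow_le_pow_right (by norm_num) (Nat.mul_le_mul_right _ ?_)
          have := i.2
          omega
      _ = 4 ^ ((j + j) * (j * l)) := by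
          rw [prod_const, card_univ, Fintype.card_fin, ← pow_mul]
          congr 1
          ring
      _ ≤ _ := Nat.pow_le_pow_right (by norm_num) (Nat.mul_le_mul_left _ (Nat.mul_le_mul_left _ (by omega)))
  have hY0 : 0 < Y := prod_pos fun i _ => by positivity
  have hY0' : (0 : ℝ) < Y := by exact_mod_cast hY0
  have hq4 : ((2 * Y : ℕ) : ℝ) ≤ √(q : ℝ) := by
    apply Real.le_sqrt_of_sq_le
    have : (2 * Y) ^ 2 ≤ q := by
      calc (2 * Y) ^ 2 = 4 * Y ^ 2 := by ring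
        _ ≤ 4 * N := Nat.mul_le_mul_left _ hYN
        _ ≤ q := hNq
    exact_mod_cast this
  have hX : ∀ V ∈ Fam j j l, nOf V < q ∧ 1 / (2 * (Y : ℝ)) ≤ wt q (nOf V) := by
    intro V hV
    have h1 : nOf V ≤ Y ^ 2 := by
      rw [← hY2]
      exact nOf_le' hV
    have h2 : 1 ≤ nOf V := nOf_pos fun i => (mem_Fam.mp hV i).1
    have h3 : nOf V < q := by
      have : 0 < Y ^ 2 := by positivity
      omega
    refine ⟨h3, le_trans ?_ (le_wt h2 h3.le)⟩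
    rw [rpow_half _ (Nat.cast_nonneg _), rpow_half _ (Nat.cast_nonneg _)]
    have h4 : √(nOf V : ℝ) ≤ Y := by
      apply Real.sqrt_le_iff.mpr
      exact ⟨hY0'.le, by exact_mod_cast h1⟩
    have h5 : 0 < √(nOf V : ℝ) := Real.sqrt_pos.mpr (by exact_mod_cast h2)
    have h6 : (Y : ℝ)⁻¹ ≤ (√(nOf V : ℝ))⁻¹ := inv_anti₀ h5 h4
    have h7 : (√(q : ℝ))⁻¹ ≤ (2 * (Y : ℝ))⁻¹ := by
      apply inv_anti₀ (by positivity)
      push_cast at hq4
      exact hq4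
    have h8 : (2 * (Y : ℝ))⁻¹ = (Y : ℝ)⁻¹ / 2 := by
      rw [mul_inv]
      ring
    rw [one_div]
    rw [h8] at h7 ⊢
    linarith
  refine le_trans ?_ (Main_ge hX)
  have hpb := prod_block hj hl hbig
  rw [← hk] at hpb
  set s₁ : ℝ := ((SS j j k).card : ℝ) with hs₁
  set s₂ : ℝ := ((SS j j (k + l)).card : ℝ) with hs₂
  set C : ℝ := ((∏ i : Fin j, ((P (j + i)).card - k).choose l : ℕ) : ℝ) with hC
  have hC0 : 0 ≤ C := Nat.cast_nonneg _
  have hs₁0 : 0 ≤ s₁ := Nat.cast_nonneg _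
  have hs₂0 : 0 ≤ s₂ := Nat.cast_nonneg _
  have hY2' : (∏ i : Fin j, (4 : ℝ) ^ ((j + i + 1) * l)) = (Y : ℝ) ^ 2 := by
    have : ((∏ i : Fin j, 4 ^ ((j + i + 1) * l) : ℕ) : ℝ) = ((Y ^ 2 : ℕ) : ℝ) := by rw [hY2]
    push_cast at this
    exact this
  rw [hY2'] at hpb
  have h4 : (4 : ℝ) ^ (l * j) = (2 ^ (l * j)) ^ 2 := by
    rw [show (4 : ℝ) = 2 ^ 2 by norm_num, ← pow_mul, ← pow_mul, mul_comm 2]
  rw [h4] at hpb
  -- `√s₂ 2 ^ (l j) Y ≤ √s₁ C`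
  have h5 : √s₂ * (2 ^ (l * j) * Y) ≤ √s₁ * C := by
    have h6 : √(s₂ * (2 ^ (l * j) * Y) ^ 2) ≤ √(s₁ * C ^ 2) := by
      apply Real.sqrt_le_sqrt
      rw [mul_pow]
      exact hpb
    rwa [Real.sqrt_mul hs₂0, Real.sqrt_mul hs₁0, Real.sqrt_sq (by positivity), Real.sqrt_sq hC0] at h6
  have h7 : √s₁ * √s₁ = s₁ := Real.mul_self_sqrt hs₁0
  calc 2 ^ (l * j) / 2 * (√s₁ * √s₂) = (√s₂ * (2 ^ (l * j) * Y)) * (√s₁ / (2 * Y)) := by
        field_simp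
    _ ≤ (√s₁ * C) * (√s₁ / (2 * Y)) := mul_le_mul_of_nonneg_right h5 (by positivity)
    _ = (√s₁ * √s₁) * C * (1 / (2 * Y)) := by ring
    _ = s₁ * C * (1 / (2 * Y)) := by rw [h7]

theorem one_le_card_SS {j l m : ℕ} (hj : 8 ≤ j) (hl : 1 ≤ l) (hbig : 516 * j * (j + 1) * l ^ 2 ≤ 4 ^ j)
    (hm : m ≤ 128 * j * l ^ 2 + l) : 1 ≤ (SS j j m).card := by
  rw [card_SS]
  refine Nat.one_le_iff_ne_zero.mpr (prod_ne_zero_iff.mpr fun i _ => ?_)
  have := blocks_big hj hbig hl i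
  exact (Nat.choose_pos (by omega)).ne'

theorem det {q : ℕ} [hq : Fact q.Prime] {j l N : ℕ} (hj : 8 ≤ j) (hl : 1 ≤ l)
    (hbig : 516 * j * (j + 1) * l ^ 2 ≤ 4 ^ j)
    (hN : 4 ^ ((j + j) * (j * (128 * j * l ^ 2 + l))) ≤ N) (hNq : 4 * N ≤ q) {Jm A : ℕ} (hNA : N ≤ A) {w : ℝ}
    (hw : w < (N : ℝ) ^ (-(1 / 2) : ℝ)) (hqw : Wq Jm N A q ≤ w) (H : Subgroup (DirichletCharacter ℂ q))
    (hH : H.index ≤ Jm) (χ₀ : DirichletCharacter ℂ q) (V : ℝ) (hV0 : 0 ≤ V)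
    (hV : ∀ ψ ∈ H, χ₀ * ψ ≠ 1 → ‖DirichletCharacter.LFunction (χ₀ * ψ) (1 / 2)‖ ≤ V) :
    2 ^ (l * j) / 2 - (N ^ 2 * w + N ^ 2 * (Jm * (A : ℝ) ^ (-(1 / 2) : ℝ))) - 2 * √(q : ℝ) * N / Nat.card H ≤ V := by
  have hN1 : 1 ≤ N := (Nat.one_le_pow _ _ (by norm_num)).trans hN
  have hA1 : 1 ≤ A := hN1.trans hNA
  set k := 128 * j * l ^ 2 with hk
  have hS₁ : SS j j k ⊆ Icc 1 N := SS_sub (le_trans (Nat.pow_le_pow_right (by norm_num)
    (Nat.mul_le_mul_left _ (Nat.mul_le_mul_left _ (by omega)))) hN)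
  have hS₂ : SS j j (k + l) ⊆ Icc 1 N := SS_sub hN
  have hJ : H.index ∈ Icc 1 Jm := mem_Icc.mpr ⟨Nat.one_le_iff_ne_zero.mpr Subgroup.index_ne_zero_of_finite, hH⟩
  have hlt : ∀ S : Finset ℕ, S ⊆ Icc 1 N → ∀ n ∈ S, 1 ≤ n ∧ n < q := by
    intro S hS n hn
    have := mem_Icc.mp (hS hn)
    omega
  have hd : ∀ S : Finset ℕ, S ⊆ Icc 1 N → ∀ m ∈ S, ∀ n ∈ S,
      (m : ZMod q) ^ H.index = (n : ZMod q) ^ H.index → m = n := by
    intro S hS m hm n hn h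
    exact no_coinc hN1 hNA hw hqw hJ (hS hm) (hS hn) h
  have h1 := coset_ineq H χ₀ V hV0 hV (SS j j k) (SS j j (k + l)) (hlt _ hS₁) (hlt _ hS₂) (hd _ hS₁) (hd _ hS₂)
  have h2 := Main_lower (q := q) hj hl hbig hN hNq
  rw [← hk] at h2
  have h3 := Err_le (q := q) (w := w) hA1 (by omega) hqw hJ hS₁ hS₂
  have hc₁ : 1 ≤ (SS j j k).card := one_le_card_SS hj hl hbig (by omega)
  have hc₂ : 1 ≤ (SS j j (k + l)).card := one_le_card_SS hj hl hbig le_rfl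
  have hcard : (0 : ℝ) < Nat.card H := by exact_mod_cast Nat.card_pos
  have hle : ∀ S : Finset ℕ, S ⊆ Icc 1 N → (S.card : ℝ) ≤ N := by
    intro S hS
    have := card_le_card hS
    rw [Nat.card_Icc, Nat.add_sub_cancel] at this
    exact_mod_cast this
  set a : ℝ := √((SS j j k).card : ℝ) with ha
  set b : ℝ := √((SS j j (k + l)).card : ℝ) with hb
  have ha1 : 1 ≤ a := Real.one_le_sqrt.mpr (by exact_mod_cast hc₁)
  have hb1 : 1 ≤ b := Real.one_le_sqrt.mpr (by exact_mod_cast hc₂)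
  have ha2 : ((SS j j k).card : ℝ) = a * a := (Real.mul_self_sqrt (Nat.cast_nonneg _)).symm
  have hb2 : ((SS j j (k + l)).card : ℝ) = b * b := (Real.mul_self_sqrt (Nat.cast_nonneg _)).symm
  have hab1 : 1 ≤ a * b := by nlinarith
  have hab0 : 0 < a * b := by linarith
  have hN0 : (0 : ℝ) ≤ N := Nat.cast_nonneg N
  have haN : a * a ≤ N := ha2 ▸ hle _ hS₁
  have hbN : b * b ≤ N := hb2 ▸ hle _ hS₂
  have habN : a * b ≤ N := by nlinarith [sq_nonneg (a - b)]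
  have hW : ∑ a ∈ Ico 1 q, wt q a ≤ 2 * √(q : ℝ) := by
    have hq1 : 1 ≤ q := hq.out.one_le
    calc ∑ a ∈ Ico 1 q, wt q a ≤ ∑ a ∈ Ico 1 q, (a : ℝ) ^ (-(1 / 2) : ℝ) := by
          refine sum_le_sum fun a ha => ?_
          rw [mem_Ico] at ha
          exact wt_le ha.1 ha.2.le
      _ ≤ ∑ a ∈ Icc 1 q, (a : ℝ) ^ (-(1 / 2) : ℝ) := by
          refine sum_le_sum_of_subset_of_nonneg ?_ fun a _ _ => by positivity
          intro a ha
          rw [mem_Ico] at ha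
          rw [mem_Icc]
          omega
      _ ≤ _ := sum_rpow_le q
  set e : ℝ := N ^ 2 * w + N ^ 2 * (Jm * (A : ℝ) ^ (-(1 / 2) : ℝ)) with he
  have he0 : 0 ≤ e := by
    refine le_trans ?_ h3
    unfold Err
    refine sum_nonneg fun a ha => sum_nonneg fun m _ => sum_nonneg fun n _ => ?_
    rw [mem_Ico] at ha
    split_ifs
    · exact wt_nonneg ha.1 ha.2.le
    · exact le_rfl
  have h4 : (∑ a ∈ Ico 1 q, wt q a) * (((SS j j k).card : ℝ) * (SS j j (k + l)).card) / Nat.card H ≤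
      (2 * √(q : ℝ) * N / Nat.card H) * (a * b) := by
    rw [ha2, hb2, div_mul_eq_mul_div]
    refine div_le_div_of_nonneg_right ?_ hcard.le
    calc (∑ a ∈ Ico 1 q, wt q a) * (a * a * (b * b)) = ((∑ a ∈ Ico 1 q, wt q a) * (a * b)) * (a * b) := by ring
      _ ≤ ((2 * √(q : ℝ)) * N) * (a * b) := by
          refine mul_le_mul_of_nonneg_right ?_ hab0.le
          exact mul_le_mul hW habN hab0.le (mul_nonneg (by norm_num) (Real.sqrt_nonneg _))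
  have h5 : (2 ^ (l * j) / 2 - e - 2 * √(q : ℝ) * N / Nat.card H) * (a * b) ≤ V * (a * b) := by
    have h6 : e ≤ e * (a * b) := by nlinarith
    nlinarith
  exact le_of_mul_le_mul_right h5 hab0

end Pool.Agent.X24.Coset
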