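import Pool.Agent.X24.Coset.E

/-!
The choice of the parameters.
-/

set_option autoImplicit false

open Finset Filter Topology

namespace Pool.Agent.X24.Coset

/-- Every coset of every group of characters modulo `q` of index at most `q ^ β` has a large central value. -/
def Large (β c : ℝ) (q : ℕ) : Prop :=
  ∀ [NeZero q], ∀ H : Subgroup (DirichletCharacter ℂ q), (H.index : ℝ) ≤ (q : ℝ) ^ β → ∀ χ₀ : DirichletCharacter ℂ q,
    ∃ ψ ∈ H, Real.exp (c * √(Real.log q / Real.log (Real.log q))) ≤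
      ‖DirichletCharacter.LFunction (χ₀ * ψ) (1 / 2)‖

/-- the number of blocks -/
noncomputable def jj (Q : ℕ) : ℕ := ⌈Real.log (Real.log Q)⌉₊

/-- the number of the primes in one block -/
noncomputable def ll (κ : ℝ) (Q : ℕ) : ℕ := ⌊√(κ * Real.log Q / (jj Q : ℝ) ^ 3)⌋₊

/-- the length -/
noncomputable def NN (κ : ℝ) (Q : ℕ) : ℕ :=
  4 ^ ((jj Q + jj Q) * (jj Q * (128 * jj Q * ll κ Q ^ 2 + ll κ Q)))

theorem ev_loglog : ∀ᶠ Q : ℕ in atTop, 8 ≤ Real.log (Real.log Q) :=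
  (Real.tendsto_log_atTop.comp (Real.tendsto_log_atTop.comp tendsto_natCast_atTop_atTop)).eventually_ge_atTop 8

theorem ev_cube (κ : ℝ) (hκ : 0 < κ) :
    ∀ᶠ Q : ℕ in atTop, (2 * Real.log (Real.log Q)) ^ 3 ≤ κ * Real.log Q := by
  have h1 := (Real.isLittleO_pow_log_id_atTop (n := 3)).bound (c := κ / 8) (by positivity)
  have h2 := (Real.tendsto_log_atTop.comp tendsto_natCast_atTop_atTop).eventually h1
  have h3 := (Real.tendsto_log_atTop.comp tendsto_natCast_atTop_atTop).eventually_ge_atTop (1 : ℝ)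
  filter_upwards [h2, h3] with Q hQ hQ1
  simp only [Function.comp_apply, id] at hQ hQ1
  have h4 : 0 ≤ Real.log (Real.log Q) := Real.log_nonneg hQ1
  rw [Real.norm_of_nonneg (by positivity), Real.norm_of_nonneg (by linarith)] at hQ
  calc (2 * Real.log (Real.log Q)) ^ 3 = 8 * Real.log (Real.log Q) ^ 3 := by ring
    _ ≤ 8 * (κ / 8 * Real.log Q) := by linarith
    _ = _ := by ring

theorem ev_small (C a : ℝ) (ha : 0 < a) : ∀ᶠ Q : ℕ in atTop, C ≤ (Q : ℝ) ^ a :=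
  ((tendsto_rpow_atTop ha).comp tendsto_natCast_atTop_atTop).eventually_ge_atTop C

/-- the properties of the parameters -/
theorem params {κ : ℝ} (hκ : 0 < κ) (hκ1 : κ ≤ 1 / 200) {Q : ℕ} (h8 : 8 ≤ Real.log (Real.log Q))
    (hc : (2 * Real.log (Real.log Q)) ^ 3 ≤ κ * Real.log Q) :
    8 ≤ jj Q ∧ 1 ≤ ll κ Q ∧ 516 * jj Q * (jj Q + 1) * ll κ Q ^ 2 ≤ 4 ^ jj Q ∧
      ((NN κ Q : ℕ) : ℝ) ≤ (Q : ℝ) ^ (358 * κ) ∧
      √κ / 4 * √(Real.log Q / Real.log (Real.log Q)) ≤ ll κ Q * jj Q ∧ 8 ≤ ll κ Q * jj Q := by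
  set u := Real.log (Real.log Q) with hu
  set L := Real.log (Q : ℝ) with hL
  have hL0 : 0 < L := by
    by_contra hcon
    push Not at hcon
    have h1 : 0 < (2 * u) ^ 3 := by positivity
    nlinarith
  have hQ0 : (0 : ℝ) < Q := by
    rcases Nat.eq_zero_or_pos Q with h | h
    · rw [h] at hL
      simp [hL] at hL0
    · exact_mod_cast h
  have hexp : Real.exp u = L := Real.exp_log hL0
  have hj1 : u ≤ jj Q := Nat.le_ceil _
  have hj2 : (jj Q : ℝ) < u + 1 := Nat.ceil_lt_add_one (by linarith)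
  have hj3 : (jj Q : ℝ) ≤ 2 * u := by linarith
  have hj8' : (8 : ℝ) ≤ jj Q := h8.trans hj1
  have hj8 : 8 ≤ jj Q := by exact_mod_cast hj8'
  have hj0 : (0 : ℝ) < jj Q := by linarith
  set y := √(κ * L / (jj Q : ℝ) ^ 3) with hy
  have hy2 : y ^ 2 = κ * L / (jj Q : ℝ) ^ 3 := Real.sq_sqrt (by positivity)
  have hy1 : 1 ≤ y := by
    rw [hy]
    apply Real.one_le_sqrt.mpr
    rw [one_le_div (by positivity)]
    exact (pow_le_pow_left₀ hj0.le hj3 3).trans hc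
  have hl1 : 1 ≤ ll κ Q := by
    unfold ll
    apply Nat.le_floor
    rw [Nat.cast_one]
    exact hy1
  have hly : (ll κ Q : ℝ) ≤ y := Nat.floor_le (by positivity)
  have hly2 : y / 2 ≤ ll κ Q := by
    have h1 : y < ll κ Q + 1 := Nat.lt_floor_add_one y
    have h2 : (1 : ℝ) ≤ ll κ Q := by exact_mod_cast hl1
    linarith
  have hl2 : (ll κ Q : ℝ) ^ 2 ≤ κ * L / (jj Q : ℝ) ^ 3 := by
    rw [← hy2]
    exact pow_le_pow_left₀ (by positivity) hly 2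
  have hl2' : (jj Q : ℝ) ^ 3 * (ll κ Q : ℝ) ^ 2 ≤ κ * L := by
    rw [le_div_iff₀ (by positivity)] at hl2
    linarith
  have hlj : √κ / 4 * √(L / u) ≤ ll κ Q * jj Q := by
    have h1 : √κ / 4 * √(L / u) ≤ y / 2 * jj Q := by
      have h2 : (√κ / 4 * √(L / u)) ^ 2 ≤ (y / 2 * jj Q) ^ 2 := by
        rw [mul_pow, mul_pow, div_pow, div_pow, Real.sq_sqrt hκ.le, hy2, Real.sq_sqrt (by positivity)]
        have h3 : κ * L / (jj Q : ℝ) ^ 3 / 2 ^ 2 * (jj Q : ℝ) ^ 2 = κ * L / (4 * jj Q) := by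
          field_simp
          ring
        rw [h3]
        have h4 : κ / 4 ^ 2 * (L / u) = κ * L / (16 * u) := by
          field_simp
          ring
        rw [h4]
        exact div_le_div_of_nonneg_left (by positivity) (by positivity) (by linarith)
      exact (pow_le_pow_iff_left₀ (by positivity) (by positivity) (by norm_num)).mp h2
    exact h1.trans (mul_le_mul_of_nonneg_right hly2 hj0.le)
  refine ⟨hj8, hl1, ?_, ?_, hlj, by nlinarith⟩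
  · have h1 : (516 * jj Q * (jj Q + 1) * ll κ Q ^ 2 : ℝ) ≤ 4 ^ jj Q := by
      have h2 : (516 * jj Q * (jj Q + 1) * ll κ Q ^ 2 : ℝ) ≤ L := by
        have h3 : (jj Q : ℝ) + 1 ≤ 2 * jj Q := by linarith
        have h4 : (516 * jj Q * (jj Q + 1) * ll κ Q ^ 2 : ℝ) * jj Q ≤ L * jj Q := by
          calc (516 * jj Q * (jj Q + 1) * ll κ Q ^ 2 : ℝ) * jj Q
              ≤ 516 * jj Q * (2 * jj Q) * ll κ Q ^ 2 * jj Q := by gcongr
            _ = 1032 * ((jj Q : ℝ) ^ 3 * (ll κ Q : ℝ) ^ 2) := by ring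
            _ ≤ 1032 * (κ * L) := by linarith
            _ ≤ 1032 * (1 / 200 * L) := by gcongr
            _ ≤ L * 8 := by linarith
            _ ≤ L * jj Q := by gcongr
        exact le_of_mul_le_mul_right h4 hj0
      refine h2.trans ?_
      rw [← hexp]
      calc Real.exp u ≤ Real.exp (jj Q) := Real.exp_le_exp.mpr hj1
        _ = (Real.exp 1) ^ jj Q := by rw [← Real.exp_nat_mul, mul_one]
        _ ≤ 4 ^ jj Q := pow_le_pow_left₀ (Real.exp_pos 1).le (by linarith [Real.exp_one_lt_d9]) _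
    exact_mod_cast h1
  · have h1 : (jj Q + jj Q) * (jj Q * (128 * jj Q * ll κ Q ^ 2 + ll κ Q)) ≤ 258 * (jj Q ^ 3 * ll κ Q ^ 2) := by
      have h2 : ll κ Q ≤ jj Q * ll κ Q ^ 2 := by nlinarith
      calc (jj Q + jj Q) * (jj Q * (128 * jj Q * ll κ Q ^ 2 + ll κ Q))
          ≤ (jj Q + jj Q) * (jj Q * (128 * jj Q * ll κ Q ^ 2 + jj Q * ll κ Q ^ 2)) := by gcongr
        _ = _ := by ring
    have h2 : ((NN κ Q : ℕ) : ℝ) ≤ (4 : ℝ) ^ (258 * ((jj Q : ℝ) ^ 3 * (ll κ Q : ℝ) ^ 2)) := by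
      have h3 : NN κ Q ≤ 4 ^ (258 * (jj Q ^ 3 * ll κ Q ^ 2)) := Nat.pow_le_pow_right (by norm_num) h1
      have h4 : ((NN κ Q : ℕ) : ℝ) ≤ (4 : ℝ) ^ (258 * (jj Q ^ 3 * ll κ Q ^ 2)) := by exact_mod_cast h3
      refine h4.trans (le_of_eq ?_)
      rw [← Real.rpow_natCast]
      push_cast
      rfl
    refine h2.trans ?_
    have hlog4 : Real.log 4 ≤ 1.387 := by
      rw [show (4 : ℝ) = 2 ^ 2 by norm_num, Real.log_pow]
      have := Real.log_two_lt_d9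
      push_cast
      linarith
    have hlog4' : 0 < Real.log 4 := Real.log_pos (by norm_num)
    rw [Real.rpow_def_of_pos (by norm_num), Real.rpow_def_of_pos hQ0]
    apply Real.exp_le_exp.mpr
    calc Real.log 4 * (258 * ((jj Q : ℝ) ^ 3 * (ll κ Q : ℝ) ^ 2)) ≤ 1.387 * (258 * (κ * L)) := by gcongr
      _ ≤ L * (358 * κ) := by
        have : 0 < κ * L := by positivity
        nlinarith

theorem pow75 (t : ℕ) (ht : 8 ≤ t) : ((7 : ℝ) / 5) ^ t < 2 ^ t / 2 - 3 := by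
  induction t, ht using Nat.le_induction with
  | base => norm_num
  | succ t ht ih =>
    have h : (0 : ℝ) < (7 / 5) ^ t := by positivity
    rw [pow_succ, pow_succ]
    linarith

theorem two_pow_ge {t : ℕ} (ht : 8 ≤ t) : Real.exp (t / 3) < 2 ^ t / 2 - 3 := by
  have h1 : Real.exp ((t : ℝ) / 3) ≤ (7 / 5) ^ t := by
    rw [show (t : ℝ) / 3 = t * (1 / 3) by ring, Real.exp_nat_mul]
    refine pow_le_pow_left₀ (Real.exp_pos _).le ?_ _
    have h2 : Real.exp (1 / 3) ^ 3 = Real.exp 1 := by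
      rw [← Real.exp_nat_mul]
      norm_num
    have h3 : Real.exp (1 / 3) ^ 3 ≤ (7 / 5) ^ 3 := by
      rw [h2]
      linarith [Real.exp_one_lt_d9]
    exact (pow_le_pow_iff_left₀ (Real.exp_pos _).le (by norm_num) (by norm_num)).mp h3
  linarith [pow75 t ht]

set_option maxHeartbeats 4000000 in
/-- **One dyadic block.** -/
theorem dyadic {β δ : ℝ} (hβ : 0 ≤ β) (hβ3 : β < 1 / 3) (hδ : 0 < δ) (hδ1 : δ ≤ 1) :
    ∃ c : ℝ, 0 < c ∧ ∃ Q₀ : ℕ, 2 ≤ Q₀ ∧ ∀ Q : ℕ, Q₀ ≤ Q →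
      (open Classical in (((dyad Q).filter (fun q => ¬ Large β c q)).card : ℝ)) ≤
        64 * (Q : ℝ) ^ (3 * β + 3 * δ / 8) := by
  classical
  set κ : ℝ := δ / 5728 with hκdef
  have hκ : 0 < κ := by positivity
  have hκ1 : κ ≤ 1 / 200 := by
    rw [hκdef]
    linarith
  have hκδ : 358 * κ = δ / 16 := by
    rw [hκdef]
    ring
  refine ⟨√κ / 24, by positivity, ?_⟩
  obtain ⟨Q₀, hQ₀⟩ := eventually_atTop.mp (((ev_loglog.and (ev_cube κ hκ)).and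
    ((ev_small 4 (1 / 2) (by norm_num)).and (ev_small 16 (1 / 24) (by norm_num)))).and (eventually_ge_atTop 2))
  refine ⟨max Q₀ 2, le_max_right _ _, fun Q hQ => ?_⟩
  obtain ⟨⟨⟨h8, hcube⟩, h4, h16⟩, hQ2⟩ := hQ₀ Q ((le_max_left _ _).trans hQ)
  obtain ⟨hj, hl, hbig, hN, hlj, hlj8⟩ := params hκ hκ1 h8 hcube
  rw [hκδ] at hN
  obtain ⟨j, hjdef⟩ : ∃ j, j = jj Q := ⟨_, rfl⟩
  obtain ⟨l, hldef⟩ : ∃ l, l = ll κ Q := ⟨_, rfl⟩
  obtain ⟨N, hNdef⟩ : ∃ N, N = NN κ Q := ⟨_, rfl⟩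
  have hNdef' : N = 4 ^ ((j + j) * (j * (128 * j * l ^ 2 + l))) := by rw [hNdef, NN, hjdef, hldef]
  rw [← hNdef] at hN
  rw [← hjdef] at hj hbig hlj hlj8
  rw [← hldef] at hl hbig hlj hlj8
  clear hjdef hldef hNdef
  have hQ0 : (0 : ℝ) < Q := by exact_mod_cast (by omega : 0 < Q)
  have hQ1 : (1 : ℝ) ≤ Q := by exact_mod_cast (by omega : 1 ≤ Q)
  have hN4 : 4 ≤ N := by
    rw [hNdef']
    calc 4 = 4 ^ 1 := by norm_num
      _ ≤ _ := Nat.pow_le_pow_right (by norm_num) (by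
        have h1 : 1 ≤ (j + j) := by omega
        have h2 : 1 ≤ (j * (128 * j * l ^ 2 + l)) := by
          have : 1 ≤ 128 * j * l ^ 2 + l := by omega
          exact Nat.one_le_iff_ne_zero.mpr (Nat.mul_ne_zero (by omega) (by omega))
        exact Nat.one_le_iff_ne_zero.mpr (Nat.mul_ne_zero (by omega) (by omega)))
  have hN1 : (4 : ℝ) ≤ N := by exact_mod_cast hN4
  have hN0 : (0 : ℝ) < N := by linarith
  have hNQ : (N : ℝ) ≤ (Q : ℝ) ^ (1 / 16 : ℝ) :=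
    hN.trans (Real.rpow_le_rpow_of_exponent_le hQ1 (by linarith))
  set Jm : ℕ := ⌊(2 * (Q : ℝ)) ^ β⌋₊ with hJm
  have hB1 : (1 : ℝ) ≤ (2 * (Q : ℝ)) ^ β := Real.one_le_rpow (by linarith) hβ
  have hJm1 : (Jm : ℝ) ≤ (2 * (Q : ℝ)) ^ β := Nat.floor_le (by positivity)
  have hJm2 : (Jm : ℝ) + 1 ≤ 2 * (2 * (Q : ℝ)) ^ β := by linarith
  set A : ℕ := N ^ 4 * (Jm + 1) ^ 2 with hA
  have hNA : N ≤ A := by
    rw [hA]
    calc N = N ^ 1 * 1 := by ring
      _ ≤ N ^ 4 * (Jm + 1) ^ 2 := Nat.mul_le_mul (Nat.pow_le_pow_right (by omega) (by norm_num))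
          (Nat.one_le_pow _ _ (by omega))
  have hsA : √(A : ℝ) = N ^ 2 * (Jm + 1) := by
    have : (A : ℝ) = (N ^ 2 * (Jm + 1)) ^ 2 := by
      rw [hA]
      push_cast
      ring
    rw [this, Real.sqrt_sq (by positivity)]
  have hsA' : (A : ℝ) ^ (-(1 / 2) : ℝ) = (N ^ 2 * ((Jm : ℝ) + 1))⁻¹ := by
    rw [rpow_half _ (Nat.cast_nonneg _), hsA]
  set w : ℝ := ((N : ℝ) ^ 2)⁻¹ with hw
  have hw0 : 0 < w := by positivity
  have hwN : w < (N : ℝ) ^ (-(1 / 2) : ℝ) := by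
    rw [rpow_half _ hN0.le, hw]
    apply inv_strictAnti₀ (Real.sqrt_pos.mpr hN0)
    have h1 : √(N : ℝ) ≤ N := by
      apply Real.sqrt_le_iff.mpr
      exact ⟨hN0.le, by nlinarith⟩
    nlinarith
  -- sizes
  have hpow16 : ((Q : ℝ) ^ (1 / 16 : ℝ)) ^ 5 = (Q : ℝ) ^ (5 / 16 : ℝ) := by
    rw [← Real.rpow_natCast, ← Real.rpow_mul hQ0.le]
    norm_num
  have h2Qβ : (2 * (Q : ℝ)) ^ β ≤ 2 * (Q : ℝ) ^ (1 / 3 : ℝ) := by
    rw [Real.mul_rpow (by norm_num) hQ0.le]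
    have e1 : (2 : ℝ) ^ β ≤ 2 := by
      calc (2 : ℝ) ^ β ≤ 2 ^ (1 : ℝ) := Real.rpow_le_rpow_of_exponent_le (by norm_num) (by linarith)
        _ = 2 := Real.rpow_one 2
    have e2 : (Q : ℝ) ^ β ≤ (Q : ℝ) ^ (1 / 3 : ℝ) := Real.rpow_le_rpow_of_exponent_le hQ1 hβ3.le
    exact mul_le_mul e1 e2 (by positivity) (by norm_num)
  have hAN : A * N ≤ Q ^ 2 := by
    have h1 : ((A * N : ℕ) : ℝ) ≤ (Q : ℝ) ^ 2 := by
      rw [hA]
      push_cast
      calc (N : ℝ) ^ 4 * ((Jm : ℝ) + 1) ^ 2 * N = (N : ℝ) ^ 5 * ((Jm : ℝ) + 1) ^ 2 := by ring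
        _ ≤ ((Q : ℝ) ^ (1 / 16 : ℝ)) ^ 5 * (2 * (2 * (Q : ℝ) ^ (1 / 3 : ℝ))) ^ 2 := by
            refine mul_le_mul (pow_le_pow_left₀ hN0.le hNQ 5) (pow_le_pow_left₀ (by positivity) ?_ 2)
              (by positivity) (by positivity)
            linarith
        _ = 16 * ((Q : ℝ) ^ (5 / 16 : ℝ) * (Q : ℝ) ^ (2 / 3 : ℝ)) := by
            rw [hpow16]
            have : ((Q : ℝ) ^ (1 / 3 : ℝ)) ^ 2 = (Q : ℝ) ^ (2 / 3 : ℝ) := by
              rw [← Real.rpow_natCast, ← Real.rpow_mul hQ0.le]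
              norm_num
            rw [mul_pow, mul_pow, this]
            ring
        _ ≤ (Q : ℝ) ^ (1 / 24 : ℝ) * ((Q : ℝ) ^ (5 / 16 : ℝ) * (Q : ℝ) ^ (2 / 3 : ℝ)) := by gcongr
        _ = (Q : ℝ) ^ (1 / 24 + (5 / 16 + 2 / 3) : ℝ) := by
            rw [← Real.rpow_add hQ0, ← Real.rpow_add hQ0]
        _ ≤ (Q : ℝ) ^ (2 : ℝ) := Real.rpow_le_rpow_of_exponent_le hQ1 (by norm_num)
        _ = (Q : ℝ) ^ 2 := Real.rpow_two _
    exact_mod_cast h1
  have hNQ' : (N : ℝ) * 4 ≤ Q := by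
    calc (N : ℝ) * 4 ≤ (Q : ℝ) ^ (1 / 16 : ℝ) * (Q : ℝ) ^ (1 / 2 : ℝ) := mul_le_mul hNQ h4 (by norm_num) (by positivity)
      _ = (Q : ℝ) ^ (1 / 16 + 1 / 2 : ℝ) := by rw [← Real.rpow_add hQ0]
      _ ≤ (Q : ℝ) ^ (1 : ℝ) := Real.rpow_le_rpow_of_exponent_le hQ1 (by norm_num)
      _ = Q := Real.rpow_one _
  have hNQ'' : 4 * N ≤ Q := by
    have : ((N * 4 : ℕ) : ℝ) ≤ Q := by push_cast; exact hNQ'
    have h' : N * 4 ≤ Q := by exact_mod_cast this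
    omega
  have hNQ2 : N ≤ Q ^ 2 := by nlinarith
  -- the count
  have hcount := card_bad hQ2 hAN hNQ2 hw0 (Jm := Jm)
  have hcount2 : 4 * (Jm : ℝ) ^ 2 * N ^ 2 * √(A : ℝ) / w ≤ 64 * (Q : ℝ) ^ (3 * β + 3 * δ / 8) := by
    rw [hsA, hw, div_inv_eq_mul]
    have h2β : ((2 * (Q : ℝ)) ^ β) ^ 3 ≤ 2 * (Q : ℝ) ^ (3 * β) := by
      rw [← Real.rpow_natCast, ← Real.rpow_mul (by positivity), mul_comm β, Real.mul_rpow (by norm_num) hQ0.le]
      push_cast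
      have e1 : (2 : ℝ) ^ (3 * β) ≤ 2 := by
        calc (2 : ℝ) ^ (3 * β) ≤ 2 ^ (1 : ℝ) := Real.rpow_le_rpow_of_exponent_le (by norm_num) (by linarith)
          _ = 2 := Real.rpow_one 2
      exact mul_le_mul_of_nonneg_right e1 (by positivity)
    have hN6 : (N : ℝ) ^ 6 ≤ (Q : ℝ) ^ (3 * δ / 8) := by
      calc (N : ℝ) ^ 6 ≤ ((Q : ℝ) ^ (δ / 16)) ^ 6 := pow_le_pow_left₀ hN0.le hN 6
        _ = (Q : ℝ) ^ (3 * δ / 8) := by
            rw [← Real.rpow_natCast, ← Real.rpow_mul hQ0.le]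
            congr 1
            push_cast
            ring
    calc 4 * (Jm : ℝ) ^ 2 * N ^ 2 * (N ^ 2 * (Jm + 1)) * N ^ 2
        ≤ 4 * ((Jm : ℝ) + 1) ^ 2 * N ^ 2 * (N ^ 2 * (Jm + 1)) * N ^ 2 := by gcongr; linarith
      _ = 4 * ((Jm : ℝ) + 1) ^ 3 * N ^ 6 := by ring
      _ ≤ 4 * (2 * (2 * (Q : ℝ)) ^ β) ^ 3 * N ^ 6 := by gcongr
      _ = 32 * ((2 * (Q : ℝ)) ^ β) ^ 3 * N ^ 6 := by ring
      _ ≤ 32 * (2 * (Q : ℝ) ^ (3 * β)) * (Q : ℝ) ^ (3 * δ / 8) := by gcongr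
      _ = 64 * (Q : ℝ) ^ (3 * β + 3 * δ / 8) := by
          rw [Real.rpow_add hQ0]
          ring
  refine le_trans ?_ (hcount.trans hcount2)
  apply Nat.cast_le.mpr
  apply card_le_card
  intro q hq
  rw [mem_filter] at hq ⊢
  refine ⟨hq.1, ?_⟩
  by_contra hcon
  push Not at hcon
  apply hq.2
  have hqd := hq.1
  rw [dyad, mem_filter, mem_Ioc] at hqd
  obtain ⟨⟨hqQ, hq2Q⟩, hqp⟩ := hqd
  have : Fact q.Prime := ⟨hqp⟩
  have hq0 : (0 : ℝ) < q := by exact_mod_cast hqp.pos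
  have hqQ' : (Q : ℝ) ≤ q := by exact_mod_cast hqQ.le
  have hq2Q' : (q : ℝ) ≤ 2 * Q := by exact_mod_cast hq2Q
  have hq1' : (1 : ℝ) ≤ q := hQ1.trans hqQ'
  intro _ H hH χ₀
  by_contra hno
  push Not at hno
  set V := Real.exp (√κ / 24 * √(Real.log q / Real.log (Real.log q))) with hV
  have hV0 : 0 ≤ V := (Real.exp_pos _).le
  have hHJ : H.index ≤ Jm := by
    rw [hJm]
    refine Nat.le_floor (hH.trans ?_)
    exact Real.rpow_le_rpow hq0.le hq2Q' hβ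
  have hdet := det hj hl hbig (N := N) hNdef'.ge (hNQ''.trans hqQ.le) hNA hwN hcon H hHJ χ₀ V hV0
    (fun ψ hψ _ => (hno ψ hψ).le)
  have e1 : (N : ℝ) ^ 2 * w = 1 := by
    rw [hw]
    exact mul_inv_cancel₀ (by positivity)
  have e2 : (N : ℝ) ^ 2 * (Jm * (A : ℝ) ^ (-(1 / 2) : ℝ)) ≤ 1 := by
    rw [hsA', mul_inv]
    calc (N : ℝ) ^ 2 * (Jm * (((N : ℝ) ^ 2)⁻¹ * ((Jm : ℝ) + 1)⁻¹))
        = ((N : ℝ) ^ 2 * ((N : ℝ) ^ 2)⁻¹) * (Jm * ((Jm : ℝ) + 1)⁻¹) := by ring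
      _ = Jm * ((Jm : ℝ) + 1)⁻¹ := by rw [mul_inv_cancel₀ (by positivity), one_mul]
      _ ≤ 1 := by
          rw [← div_eq_mul_inv, div_le_one (by positivity)]
          linarith
  have e3 : 2 * √(q : ℝ) * N / Nat.card H ≤ 1 := by
    have hcardH : (Nat.card H : ℝ) * H.index = q - 1 := by
      have h1 : Nat.card H * H.index = q - 1 := by
        rw [Subgroup.card_mul_index, DirichletCharacter.card_eq_totient_of_hasEnoughRootsOfUnity, Nat.totient_prime hqp]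
      have h2 : ((Nat.card H * H.index : ℕ) : ℝ) = ((q - 1 : ℕ) : ℝ) := by rw [h1]
      rw [Nat.cast_sub hqp.one_le] at h2
      push_cast at h2
      exact h2
    have hcard : (0 : ℝ) < Nat.card H := by exact_mod_cast Nat.card_pos
    have hqβ : (0 : ℝ) < (q : ℝ) ^ β := by positivity
    have h3 : (q : ℝ) / 2 ≤ Nat.card H * (q : ℝ) ^ β := by
      have h4 : (q : ℝ) - 1 ≤ Nat.card H * (q : ℝ) ^ β := by
        rw [← hcardH]
        exact mul_le_mul_of_nonneg_left hH hcard.le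
      have h5 : (2 : ℝ) ≤ q := by exact_mod_cast hqp.two_le
      linarith
    have h6 : 4 * (√(q : ℝ) * N * (q : ℝ) ^ β) ≤ q := by
      have h7 : √(q : ℝ) = (q : ℝ) ^ (1 / 2 : ℝ) := Real.sqrt_eq_rpow _
      have h8' : (N : ℝ) ≤ (q : ℝ) ^ (1 / 16 : ℝ) := hNQ.trans (Real.rpow_le_rpow hQ0.le hqQ' (by norm_num))
      have h9 : (q : ℝ) ^ β ≤ (q : ℝ) ^ (1 / 3 : ℝ) := Real.rpow_le_rpow_of_exponent_le hq1' hβ3.le
      have h10 : (4 : ℝ) ≤ (q : ℝ) ^ (1 / 24 : ℝ) :=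
        le_trans (by linarith) (h16.trans (Real.rpow_le_rpow hQ0.le hqQ' (by norm_num)))
      rw [h7]
      calc 4 * ((q : ℝ) ^ (1 / 2 : ℝ) * N * (q : ℝ) ^ β)
          ≤ (q : ℝ) ^ (1 / 24 : ℝ) * ((q : ℝ) ^ (1 / 2 : ℝ) * (q : ℝ) ^ (1 / 16 : ℝ) * (q : ℝ) ^ (1 / 3 : ℝ)) := by
            gcongr
        _ = (q : ℝ) ^ (1 / 24 + (1 / 2 + 1 / 16 + 1 / 3) : ℝ) := by
            rw [← Real.rpow_add hq0, ← Real.rpow_add hq0, ← Real.rpow_add hq0]
        _ ≤ (q : ℝ) ^ (1 : ℝ) := Real.rpow_le_rpow_of_exponent_le hq1' (by norm_num)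
        _ = q := Real.rpow_one _
    rw [div_le_one hcard]
    have h11 : (2 * √(q : ℝ) * N) * (q : ℝ) ^ β ≤ Nat.card H * (q : ℝ) ^ β := by
      refine le_trans ?_ h3
      linarith
    exact le_of_mul_le_mul_right h11 hqβ
  have e4 : V < 2 ^ (l * j) / 2 - 3 := by
    refine lt_of_le_of_lt ?_ (two_pow_ge hlj8)
    rw [hV]
    apply Real.exp_le_exp.mpr
    have hlogQ : 0 < Real.log Q := by
      have : 0 < (2 * Real.log (Real.log Q)) ^ 3 := by positivity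
      by_contra hc
      push Not at hc
      nlinarith
    have hu0 : 0 < Real.log (Real.log Q) := by linarith
    have h1 : Real.log q ≤ 2 * Real.log Q := by
      have h2 : Real.log q ≤ Real.log (2 * Q) := Real.log_le_log hq0 hq2Q'
      rw [Real.log_mul (by norm_num) hQ0.ne'] at h2
      have h3 : Real.log 2 ≤ Real.log Q := Real.log_le_log (by norm_num) (by exact_mod_cast hQ2)
      linarith
    have h2 : Real.log (Real.log Q) ≤ Real.log (Real.log q) :=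
      Real.log_le_log hlogQ (Real.log_le_log hQ0 hqQ')
    have h3 : Real.log q / Real.log (Real.log q) ≤ 4 * (Real.log Q / Real.log (Real.log Q)) := by
      have h4 : Real.log q / Real.log (Real.log q) ≤ (2 * Real.log Q) / Real.log (Real.log Q) :=
        div_le_div₀ (by positivity) h1 hu0 h2
      have h5 : 0 ≤ Real.log Q / Real.log (Real.log Q) := by positivity
      rw [mul_div_assoc] at h4
      linarith
    have h6 : √(Real.log q / Real.log (Real.log q)) ≤ 2 * √(Real.log Q / Real.log (Real.log Q)) := by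
      calc √(Real.log q / Real.log (Real.log q)) ≤ √(4 * (Real.log Q / Real.log (Real.log Q))) := Real.sqrt_le_sqrt h3
        _ = 2 * √(Real.log Q / Real.log (Real.log Q)) := by
            rw [Real.sqrt_mul (by norm_num), show (4 : ℝ) = 2 ^ 2 by norm_num, Real.sqrt_sq (by norm_num)]
    push_cast
    calc √κ / 24 * √(Real.log q / Real.log (Real.log q)) ≤ √κ / 24 * (2 * √(Real.log Q / Real.log (Real.log Q))) := by
          gcongr
      _ = (√κ / 4 * √(Real.log Q / Real.log (Real.log Q))) / 3 := by ring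
      _ ≤ (l * j : ℝ) / 3 := by gcongr
  linarith

end Pool.Agent.X24.Coset
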