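import Pool.Agent.X24.Coset.D

/-!
Positive functions on the group of characters.
-/

set_option autoImplicit false

open Finset

namespace Pool.Agent.X24.Coset

section
variable {q : ℕ} [hq : Fact q.Prime]

/-- a combination of evaluations with nonnegative coefficients -/
def Pos (Φ : DirichletCharacter ℂ q → ℂ) : Prop :=
  ∃ f : ZMod q → ℝ, (∀ x, 0 ≤ f x) ∧ ∀ χ, Φ χ = ∑ x, (f x : ℂ) * χ x

theorem Pos.congr {Φ Ψ : DirichletCharacter ℂ q → ℂ} (h : Pos Φ) (e : ∀ χ, Ψ χ = Φ χ) : Pos Ψ := by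
  obtain ⟨f, hf, h⟩ := h
  exact ⟨f, hf, fun χ => (e χ).trans (h χ)⟩

theorem Pos.zero : Pos (fun _ : DirichletCharacter ℂ q => (0 : ℂ)) :=
  ⟨fun _ => 0, fun _ => le_rfl, fun χ => by simp⟩

theorem Pos.add {Φ Ψ : DirichletCharacter ℂ q → ℂ} (h : Pos Φ) (h' : Pos Ψ) : Pos (fun χ => Φ χ + Ψ χ) := by
  obtain ⟨f, hf, h⟩ := h
  obtain ⟨g, hg, h'⟩ := h'
  refine ⟨fun x => f x + g x, fun x => add_nonneg (hf x) (hg x), fun χ => ?_⟩
  beta_reduce
  rw [h, h', ← sum_add_distrib]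
  refine sum_congr rfl fun x _ => ?_
  push_cast
  ring

theorem Pos.smul {Φ : DirichletCharacter ℂ q → ℂ} (h : Pos Φ) {c : ℝ} (hc : 0 ≤ c) : Pos (fun χ => (c : ℂ) * Φ χ) := by
  obtain ⟨f, hf, h⟩ := h
  refine ⟨fun x => c * f x, fun x => mul_nonneg hc (hf x), fun χ => ?_⟩
  beta_reduce
  rw [h, mul_sum]
  refine sum_congr rfl fun x _ => ?_
  push_cast
  ring

theorem Pos.sum {ι : Type*} (s : Finset ι) {Φ : ι → DirichletCharacter ℂ q → ℂ} (h : ∀ i ∈ s, Pos (Φ i)) :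
    Pos (fun χ => ∑ i ∈ s, Φ i χ) := by
  classical
  induction s using Finset.induction_on with
  | empty => exact Pos.zero.congr fun χ => by simp
  | insert a s ha ih =>
    refine ((h a (mem_insert_self a s)).add (ih fun i hi => h i (mem_insert_of_mem hi))).congr fun χ => ?_
    rw [sum_insert ha]

theorem Pos.eval (x : ZMod q) : Pos (fun χ : DirichletCharacter ℂ q => χ x) := by
  classical
  refine ⟨fun y => if y = x then 1 else 0, fun y => by positivity, fun χ => ?_⟩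
  rw [sum_eq_single x]
  · simp
  · intro y _ hy
    simp [hy]
  · intro h
    exact absurd (mem_univ x) h

theorem Pos.one : Pos (fun _ : DirichletCharacter ℂ q => (1 : ℂ)) :=
  (Pos.eval 1).congr fun χ => (map_one χ).symm

theorem Pos.mul {Φ Ψ : DirichletCharacter ℂ q → ℂ} (h : Pos Φ) (h' : Pos Ψ) : Pos (fun χ => Φ χ * Ψ χ) := by
  obtain ⟨f, hf, h⟩ := h
  obtain ⟨g, hg, h'⟩ := h'
  have h1 : Pos (fun χ : DirichletCharacter ℂ q => ∑ x : ZMod q, ∑ y : ZMod q, ((f x * g y : ℝ) : ℂ) * χ (x * y)) :=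
    Pos.sum _ fun x _ => Pos.sum _ fun y _ => (Pos.eval (x * y)).smul (mul_nonneg (hf x) (hg y))
  refine h1.congr fun χ => ?_
  beta_reduce
  rw [h, h', sum_mul_sum]
  refine sum_congr rfl fun x _ => sum_congr rfl fun y _ => ?_
  rw [map_mul]
  push_cast
  ring

theorem Pos.star {Φ : DirichletCharacter ℂ q → ℂ} (h : Pos Φ) : Pos (fun χ => Star.star (Φ χ)) := by
  obtain ⟨f, hf, h⟩ := h
  have h1 : Pos (fun χ : DirichletCharacter ℂ q => ∑ x : ZMod q, ((f x : ℝ) : ℂ) * χ x⁻¹) :=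
    Pos.sum _ fun x _ => (Pos.eval x⁻¹).smul (hf x)
  refine h1.congr fun χ => ?_
  beta_reduce
  rw [h, star_sum]
  refine sum_congr rfl fun x _ => ?_
  rw [star_mul', star_char]
  congr 1
  exact Complex.conj_ofReal _

theorem Pos.pow {Φ : DirichletCharacter ℂ q → ℂ} (h : Pos Φ) (n : ℕ) : Pos (fun χ => Φ χ ^ n) := by
  induction n with
  | zero => exact Pos.one.congr fun χ => pow_zero _
  | succ n ih => exact (ih.mul h).congr fun χ => pow_succ _ _

theorem sum_eval_nonneg (H : Subgroup (DirichletCharacter ℂ q)) (x : ZMod q) : 0 ≤ (∑ ψ : H, ψ.1 x).re := by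
  by_cases h1 : ∀ ψ ∈ H, ψ x = 1
  · have h2 : ∑ ψ : H, ψ.1 x = (Nat.card H : ℂ) := by
      rw [sum_congr rfl fun ψ _ => h1 ψ.1 ψ.2, sum_const, card_univ, nsmul_eq_mul, mul_one, Nat.card_eq_fintype_card]
    rw [h2, Complex.natCast_re]
    positivity
  · push Not at h1
    obtain ⟨ψ₀, hψ₀, hne⟩ := h1
    have h2 : ∑ ψ : H, ψ.1 x = 0 := by
      refine eq_zero_of_mul_eq_self_left hne ?_
      rw [mul_sum]
      refine Fintype.sum_bijective (fun ψ : H => (⟨ψ₀, hψ₀⟩ : H) * ψ) (Group.mulLeft_bijective _) _ _ fun ψ => ?_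
      rw [Subgroup.coe_mul, MulChar.mul_apply]
    rw [h2, Complex.zero_re]

theorem Pos.sum_nonneg {Φ : DirichletCharacter ℂ q → ℂ} (h : Pos Φ) (H : Subgroup (DirichletCharacter ℂ q)) :
    0 ≤ (∑ ψ : H, Φ ψ.1).re := by
  obtain ⟨f, hf, h⟩ := h
  have h1 : ∑ ψ : H, Φ ψ.1 = ∑ x : ZMod q, (f x : ℂ) * ∑ ψ : H, ψ.1 x := by
    rw [sum_congr rfl fun ψ _ => h ψ.1, sum_comm]
    refine sum_congr rfl fun x _ => ?_
    rw [mul_sum]
  rw [h1, Complex.re_sum]
  refine Finset.sum_nonneg fun x _ => ?_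
  rw [Complex.re_ofReal_mul]
  exact mul_nonneg (hf x) (sum_eval_nonneg H x)

/-- `Φ ≤ Ψ` coefficientwise -/
def Dom (Φ Ψ : DirichletCharacter ℂ q → ℂ) : Prop := Pos (fun χ => Ψ χ - Φ χ)

theorem Dom.mul_left {Φ Ψ Θ : DirichletCharacter ℂ q → ℂ} (h : Dom Φ Ψ) (hΘ : Pos Θ) :
    Dom (fun χ => Θ χ * Φ χ) (fun χ => Θ χ * Ψ χ) :=
  (hΘ.mul h).congr fun χ => (mul_sub _ _ _).symm

theorem Dom.smul {Φ Ψ : DirichletCharacter ℂ q → ℂ} (h : Dom Φ Ψ) {c : ℝ} (hc : 0 ≤ c) :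
    Dom (fun χ => (c : ℂ) * Φ χ) (fun χ => (c : ℂ) * Ψ χ) :=
  (Pos.smul h hc).congr fun χ => (mul_sub _ _ _).symm

theorem Dom.trans {Φ Ψ Θ : DirichletCharacter ℂ q → ℂ} (h : Dom Φ Ψ) (h' : Dom Ψ Θ) : Dom Φ Θ :=
  (Pos.add h h').congr fun χ => by ring

theorem Dom.refl (Φ : DirichletCharacter ℂ q → ℂ) : Dom Φ Φ := Pos.zero.congr fun χ => sub_self _

/-! ### the sum over the primes -/

/-- `x ^ (-1/2)` -/
noncomputable def rs (a : ℕ) : ℝ := (a : ℝ) ^ (-(1 / 2) : ℝ)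

theorem rs_nonneg (a : ℕ) : 0 ≤ rs a := by unfold rs; positivity

theorem rs_mul (a b : ℕ) : rs (a * b) = rs a * rs b := by
  unfold rs
  rw [Nat.cast_mul, Real.mul_rpow (Nat.cast_nonneg _) (Nat.cast_nonneg _)]

theorem rs_sq {a : ℕ} (ha : 1 ≤ a) : rs a * rs a = 1 / (a : ℝ) := by
  have ha0 : (0 : ℝ) < a := by exact_mod_cast ha
  unfold rs
  rw [← Real.rpow_add ha0]
  norm_num
  rw [Real.rpow_neg_one]

/-- the sum `∑ χ(a) a ^ (-1/2)` over `S` -/
noncomputable def FS (S : Finset ℕ) (χ : DirichletCharacter ℂ q) : ℂ := ∑ a ∈ S, (rs a : ℂ) * χ (a : ZMod q)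

theorem FS_pos (S : Finset ℕ) : Pos (FS S : DirichletCharacter ℂ q → ℂ) :=
  Pos.sum _ fun a _ => (Pos.eval _).smul (rs_nonneg a)

/-- the products of `j` elements of `T` -/
def AA (T : Finset ℕ) : ℕ → Finset ℕ
  | 0 => {1}
  | j + 1 => (T ×ˢ AA T j).image fun x => x.1 * x.2

omit hq in
theorem AA_pos {T : Finset ℕ} (hT : ∀ p ∈ T, p.Prime) (j : ℕ) : ∀ a ∈ AA T j, 1 ≤ a ∧ a.primeFactorsList.length = j := by
  induction j with
  | zero =>
    intro a ha
    rw [AA, mem_singleton] at ha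
    subst ha
    simp
  | succ j ih =>
    intro a ha
    rw [AA, mem_image] at ha
    obtain ⟨⟨p, b⟩, hpb, rfl⟩ := ha
    rw [mem_product] at hpb
    obtain ⟨h1, h2⟩ := ih b hpb.2
    have hp := hT p hpb.1
    refine ⟨Nat.mul_pos hp.pos h1, ?_⟩
    have := (Nat.perm_primeFactorsList_mul hp.ne_zero (by omega : b ≠ 0)).length_eq
    rw [this, List.length_append, Nat.primeFactorsList_prime hp, h2]
    simp
    omega

omit hq in
theorem AA_le {T : Finset ℕ} {X : ℕ} (hT : ∀ p ∈ T, p ≤ X) (j : ℕ) : ∀ a ∈ AA T j, a ≤ X ^ j := by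
  induction j with
  | zero =>
    intro a ha
    rw [AA, mem_singleton] at ha
    simp [ha]
  | succ j ih =>
    intro a ha
    rw [AA, mem_image] at ha
    obtain ⟨⟨p, b⟩, hpb, rfl⟩ := ha
    rw [mem_product] at hpb
    rw [pow_succ']
    exact Nat.mul_le_mul (hT p hpb.1) (ih b hpb.2)

theorem D_mul_FS {T : Finset ℕ} (hT : ∀ p ∈ T, p.Prime) (j : ℕ) :
    Dom (fun χ : DirichletCharacter ℂ q => FS T χ * FS (AA T j) χ)
      (fun χ => (((j + 1 : ℕ) : ℝ) : ℂ) * FS (AA T (j + 1)) χ) := by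
  classical
  have h1 : ∀ χ : DirichletCharacter ℂ q, FS T χ * FS (AA T j) χ =
      ∑ b ∈ AA T (j + 1), ((((T ×ˢ AA T j).filter (fun x => x.1 * x.2 = b)).card : ℝ) : ℂ) *
        ((rs b : ℂ) * χ (b : ZMod q)) := by
    intro χ
    unfold FS
    rw [sum_mul_sum, ← sum_product', ← sum_fiberwise_of_maps_to (t := AA T (j + 1)) (g := fun x => x.1 * x.2)]
    · refine sum_congr rfl fun b _ => ?_
      rw [sum_congr rfl (g := fun _ => (rs b : ℂ) * χ (b : ZMod q)), sum_const, nsmul_eq_mul]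
      · push_cast
        rfl
      · intro x hx
        rw [mem_filter] at hx
        rw [← hx.2, rs_mul, Nat.cast_mul, map_mul]
        push_cast
        ring
    · intro x hx
      rw [AA, mem_image]
      exact ⟨x, hx, rfl⟩
  have h2 : ∀ b ∈ AA T (j + 1), ((T ×ˢ AA T j).filter (fun x => x.1 * x.2 = b)).card ≤ j + 1 := by
    intro b hb
    obtain ⟨hb1, hb2⟩ := AA_pos hT (j + 1) b hb
    calc ((T ×ˢ AA T j).filter (fun x => x.1 * x.2 = b)).card ≤ b.primeFactors.card := by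
          refine card_le_card_of_injOn (fun x => x.1) ?_ ?_
          · intro x hx
            rw [mem_coe, mem_filter, mem_product] at hx
            rw [mem_coe, Nat.mem_primeFactors]
            exact ⟨hT _ hx.1.1, ⟨x.2, hx.2.symm⟩, by omega⟩
          · intro x hx y hy hxy
            rw [mem_coe, mem_filter, mem_product] at hx hy
            have hxy' : x.1 = y.1 := hxy
            have h3 : x.1 * x.2 = x.1 * y.2 := by rw [hx.2, hxy', hy.2]
            have h4 := Nat.eq_of_mul_eq_mul_left (hT _ hx.1.1).pos h3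
            exact Prod.ext hxy' h4
      _ ≤ b.primeFactorsList.length := List.toFinset_card_le _
      _ = j + 1 := hb2
  have h3 : Pos (fun χ : DirichletCharacter ℂ q => ∑ b ∈ AA T (j + 1),
      (((((j + 1 : ℕ) : ℝ) - ((T ×ˢ AA T j).filter (fun x => x.1 * x.2 = b)).card) * rs b : ℝ) : ℂ) *
        χ (b : ZMod q)) := by
    refine Pos.sum _ fun b hb => (Pos.eval _).smul (mul_nonneg (sub_nonneg.mpr ?_) (rs_nonneg b))
    exact_mod_cast h2 b hb
  refine h3.congr fun χ => ?_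
  beta_reduce
  rw [h1 χ]
  unfold FS
  rw [mul_sum, ← sum_sub_distrib]
  refine sum_congr rfl fun b _ => ?_
  push_cast
  ring

theorem D_pow_le {T : Finset ℕ} (hT : ∀ p ∈ T, p.Prime) (j : ℕ) :
    Dom (fun χ : DirichletCharacter ℂ q => FS T χ ^ j) (fun χ => ((j.factorial : ℝ) : ℂ) * FS (AA T j) χ) := by
  induction j with
  | zero =>
    refine Pos.zero.congr fun χ => ?_
    simp [AA, FS, rs]
  | succ j ih =>
    have h1 := ih.mul_left (FS_pos (q := q) T)
    have h2 := (D_mul_FS (q := q) hT j).smul (c := (j.factorial : ℝ)) (Nat.cast_nonneg _)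
    have h3 : Dom (fun χ : DirichletCharacter ℂ q => FS T χ * FS T χ ^ j)
        (fun χ => ((j.factorial : ℝ) : ℂ) * ((((j + 1 : ℕ) : ℝ) : ℂ) * FS (AA T (j + 1)) χ)) := by
      refine h1.trans ?_
      refine Pos.congr h2 fun χ => ?_
      beta_reduce
      ring
    refine Pos.congr h3 fun χ => ?_
    beta_reduce
    rw [Nat.factorial_succ, pow_succ']
    push_cast
    ring

/-- the central values dominate the sums -/
theorem Lw_ge {S : Finset ℕ} (hS : ∀ a ∈ S, 1 ≤ a ∧ 4 * a ≤ q) :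
    Dom (fun χ : DirichletCharacter ℂ q => (((1 / 2 : ℝ)) : ℂ) * FS S χ) (fun χ => Lw χ) := by
  classical
  have hSq : S ⊆ Ico 1 q := by
    intro a ha
    have := hS a ha
    rw [mem_Ico]
    omega
  have h1 : Pos (fun χ : DirichletCharacter ℂ q => ∑ a ∈ Ico 1 q,
      ((wt q a - (if a ∈ S then 1 / 2 * rs a else 0) : ℝ) : ℂ) * χ (a : ZMod q)) := by
    refine Pos.sum _ fun a ha => (Pos.eval _).smul ?_
    rw [mem_Ico] at ha
    split_ifs with h
    · have h2 := le_wt ha.1 ha.2.le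
      have h3 : (q : ℝ) ^ (-(1 / 2) : ℝ) ≤ 1 / 2 * rs a := by
        have ha0 : (0 : ℝ) < a := by exact_mod_cast ha.1
        have h4 : (4 * (a : ℝ)) ≤ q := by exact_mod_cast (hS a h).2
        have h5 : (q : ℝ) ^ (-(1 / 2) : ℝ) ≤ (4 * (a : ℝ)) ^ (-(1 / 2) : ℝ) :=
          Real.rpow_le_rpow_of_nonpos (by positivity) h4 (by norm_num)
        have h6 : (4 : ℝ) ^ (-(1 / 2) : ℝ) = 1 / 2 := by
          rw [show (4 : ℝ) = 2 ^ (2 : ℝ) by norm_num, ← Real.rpow_mul (by norm_num)]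
          norm_num
        rw [Real.mul_rpow (by norm_num) ha0.le, h6] at h5
        exact h5
      have h7 : rs a = (a : ℝ) ^ (-(1 / 2) : ℝ) := rfl
      rw [← h7] at h2
      linarith
    · rw [sub_zero]
      exact wt_nonneg ha.1 ha.2.le
  refine h1.congr fun χ => ?_
  have h8 : (((1 / 2 : ℝ)) : ℂ) * FS S χ =
      ∑ a ∈ Ico 1 q, (((if a ∈ S then 1 / 2 * rs a else 0 : ℝ)) : ℂ) * χ (a : ZMod q) := by
    rw [← sum_subset hSq (f := fun a => (((if a ∈ S then 1 / 2 * rs a else 0 : ℝ)) : ℂ) * χ (a : ZMod q))]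
    · unfold FS
      rw [mul_sum]
      refine sum_congr rfl fun a ha => ?_
      rw [if_pos ha]
      push_cast
      ring
    · intro a _ ha
      rw [if_neg ha, Complex.ofReal_zero, zero_mul]
  beta_reduce
  rw [h8]
  unfold Lw
  rw [← sum_sub_distrib]
  refine sum_congr rfl fun a _ => ?_
  push_cast
  ring

end

end Pool.Agent.X24.Coset
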