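import Pool.Agent.X24.Coset.G

/-!
Moments of the sum over the primes on a group of characters.
-/

set_option autoImplicit false

open Finset

namespace Pool.Agent.X24.Coset

section
variable {R : Type*} [CommRing R]

/-- the elementary symmetric sum -/
def es (T : Finset ℕ) (x : ℕ → R) (k : ℕ) : R := ∑ A ∈ powersetCard k T, ∏ p ∈ A, x p

theorem es_zero (T : Finset ℕ) (x : ℕ → R) : es T x 0 = 1 := by
  simp [es]

theorem mul_es (T : Finset ℕ) (x : ℕ → R) (k : ℕ) :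
    (∑ p ∈ T, x p) * es T x k = ((k + 1 : ℕ) : R) * es T x (k + 1) +
      ∑ A ∈ powersetCard k T, (∑ p ∈ A, x p) * ∏ p ∈ A, x p := by
  classical
  have h1 : (∑ p ∈ T, x p) * es T x k = ∑ A ∈ powersetCard k T, (∑ p ∈ T, x p) * ∏ p ∈ A, x p := by
    rw [es, mul_sum]
  have h2 : ∀ A ∈ powersetCard k T, (∑ p ∈ T, x p) * ∏ p ∈ A, x p =
      ∑ p ∈ T \ A, ∏ r ∈ insert p A, x r + (∑ p ∈ A, x p) * ∏ p ∈ A, x p := by
    intro A hA
    rw [mem_powersetCard] at hA
    rw [← sum_sdiff hA.1, add_mul, sum_mul]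
    congr 1
    refine sum_congr rfl fun p hp => ?_
    rw [mem_sdiff] at hp
    rw [prod_insert hp.2]
  rw [h1, sum_congr rfl h2, sum_add_distrib]
  congr 1
  have h3 : ((k + 1 : ℕ) : R) * es T x (k + 1) = ∑ B ∈ powersetCard (k + 1) T, ∑ _p ∈ B, ∏ r ∈ B, x r := by
    rw [es, mul_sum]
    refine sum_congr rfl fun B hB => ?_
    rw [mem_powersetCard] at hB
    rw [sum_const, hB.2, nsmul_eq_mul]
  rw [h3, sum_sigma', sum_sigma']
  refine sum_bij' (fun y _ => ⟨insert y.2 y.1, y.2⟩) (fun y _ => ⟨y.1.erase y.2, y.2⟩) ?_ ?_ ?_ ?_ ?_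
  · rintro ⟨A, p⟩ h
    simp only [mem_sigma, mem_powersetCard, mem_sdiff] at h ⊢
    obtain ⟨⟨h1, h2⟩, h3, h4⟩ := h
    exact ⟨⟨insert_subset h3 h1, by rw [card_insert_of_notMem h4, h2]⟩, mem_insert_self _ _⟩
  · rintro ⟨B, p⟩ h
    simp only [mem_sigma, mem_powersetCard, mem_sdiff] at h ⊢
    obtain ⟨⟨h1, h2⟩, h3⟩ := h
    exact ⟨⟨(erase_subset _ _).trans h1, by rw [card_erase_of_mem h3, h2]; rfl⟩, h1 h3, notMem_erase _ _⟩
  · rintro ⟨A, p⟩ h
    simp only [mem_sigma, mem_powersetCard, mem_sdiff] at h ⊢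
    rw [erase_insert h.2.2]
  · rintro ⟨B, p⟩ h
    simp only [mem_sigma, mem_powersetCard] at h ⊢
    rw [insert_erase h.2]
  · rintro ⟨A, p⟩ h
    rfl

end

theorem es_nonneg {T : Finset ℕ} {y : ℕ → ℝ} (hy : ∀ p ∈ T, 0 ≤ y p) (k : ℕ) : 0 ≤ es T y k := by
  unfold es
  refine sum_nonneg fun A hA => prod_nonneg fun p hp => hy p ?_
  rw [mem_powersetCard] at hA
  exact hA.1 hp

theorem es_ge {T : Finset ℕ} {y : ℕ → ℝ} {η s : ℝ} (hy : ∀ p ∈ T, 0 ≤ y p) (hη : ∀ p ∈ T, y p ≤ η)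
    (hs : 0 ≤ s) {K : ℕ} (h : K * η + s ≤ ∑ p ∈ T, y p) (hη0 : 0 ≤ η) (k : ℕ) (hk : k ≤ K) :
    s ^ k ≤ (k.factorial : ℝ) * es T y k := by
  induction k with
  | zero => simp [es_zero]
  | succ k ih =>
    have ih' := ih (by omega)
    have h1 := mul_es T y k
    have h2 : ∑ A ∈ powersetCard k T, (∑ p ∈ A, y p) * ∏ p ∈ A, y p ≤ (k * η) * es T y k := by
      rw [es, mul_sum]
      refine sum_le_sum fun A hA => ?_
      rw [mem_powersetCard] at hA
      refine mul_le_mul_of_nonneg_right ?_ (prod_nonneg fun p hp => hy p (hA.1 hp))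
      calc ∑ p ∈ A, y p ≤ ∑ _p ∈ A, η := sum_le_sum fun p hp => hη p (hA.1 hp)
        _ = k * η := by rw [sum_const, hA.2, nsmul_eq_mul]
    have h3 : (k : ℝ) * η ≤ K * η := by
      have : (k : ℝ) ≤ K := by exact_mod_cast (by omega : k ≤ K)
      exact mul_le_mul_of_nonneg_right this hη0
    have h4 := es_nonneg hy k
    have h5 : s * es T y k ≤ ((k + 1 : ℕ) : ℝ) * es T y (k + 1) := by
      have h6 : (K * η + s) * es T y k ≤ (∑ p ∈ T, y p) * es T y k := mul_le_mul_of_nonneg_right h h4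
      nlinarith
    rw [pow_succ, Nat.factorial_succ]
    push_cast at h5 ⊢
    calc s ^ k * s ≤ (k.factorial * es T y k) * s := mul_le_mul_of_nonneg_right ih' hs
      _ = k.factorial * (s * es T y k) := by ring
      _ ≤ k.factorial * ((k + 1) * es T y (k + 1)) := by gcongr
      _ = _ := by ring

section
variable {q : ℕ} [hq : Fact q.Prime]

/-- the terms -/
noncomputable def tm (χ : DirichletCharacter ℂ q) (p : ℕ) : ℂ := (rs p : ℂ) * χ (p : ZMod q)

theorem tm_pos (p : ℕ) : Pos (fun χ : DirichletCharacter ℂ q => tm χ p) := (Pos.eval _).smul (rs_nonneg p)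

theorem Pos.prod {ι : Type*} (s : Finset ι) {Φ : ι → DirichletCharacter ℂ q → ℂ} (h : ∀ i ∈ s, Pos (Φ i)) :
    Pos (fun χ => ∏ i ∈ s, Φ i χ) := by
  classical
  induction s using Finset.induction_on with
  | empty => exact Pos.one.congr fun χ => by simp
  | insert a s ha ih =>
    refine ((h a (mem_insert_self a s)).mul (ih fun i hi => h i (mem_insert_of_mem hi))).congr fun χ => ?_
    rw [prod_insert ha]

theorem es_pos (T : Finset ℕ) (k : ℕ) : Pos (fun χ : DirichletCharacter ℂ q => es T (tm χ) k) :=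
  Pos.sum _ fun _ _ => Pos.prod _ fun p _ => tm_pos p

theorem D_pow_ge (T : Finset ℕ) (k : ℕ) :
    Dom (fun χ : DirichletCharacter ℂ q => ((k.factorial : ℝ) : ℂ) * es T (tm χ) k) (fun χ => FS T χ ^ k) := by
  induction k with
  | zero =>
    refine Pos.zero.congr fun χ => ?_
    simp [es_zero]
  | succ k ih =>
    have h1 := ih.mul_left (FS_pos (q := q) T)
    have h2 : Dom (fun χ : DirichletCharacter ℂ q => (((k + 1 : ℕ) : ℝ) : ℂ) * es T (tm χ) (k + 1))
        (fun χ => FS T χ * es T (tm χ) k) := by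
      have h3 : Pos (fun χ : DirichletCharacter ℂ q =>
          ∑ A ∈ powersetCard k T, (∑ p ∈ A, tm χ p) * ∏ p ∈ A, tm χ p) :=
        Pos.sum _ fun A _ => (Pos.sum _ fun p _ => tm_pos p).mul (Pos.prod _ fun p _ => tm_pos p)
      refine h3.congr fun χ => ?_
      have h4 := mul_es T (tm χ) k
      have h5 : FS T χ = ∑ p ∈ T, tm χ p := rfl
      beta_reduce
      rw [h5, h4]
      push_cast
      ring
    have h3 := h2.smul (c := (k.factorial : ℝ)) (Nat.cast_nonneg _)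
    have h4 : Dom (fun χ : DirichletCharacter ℂ q => (((k + 1).factorial : ℝ) : ℂ) * es T (tm χ) (k + 1))
        (fun χ => FS T χ * (((k.factorial : ℝ) : ℂ) * es T (tm χ) k)) := by
      refine Pos.congr h3 fun χ => ?_
      beta_reduce
      rw [Nat.factorial_succ]
      push_cast
      ring
    refine Pos.congr (h4.trans h1) fun χ => ?_
    beta_reduce
    rw [pow_succ']

theorem norm_char {x : ZMod q} (hx : x ≠ 0) (χ : DirichletCharacter ℂ q) : χ x * star (χ x) = 1 := by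
  rw [star_char, ← map_mul, mul_inv_cancel₀ hx, map_one]

theorem es_sq {T : Finset ℕ} (hT : ∀ p ∈ T, 1 ≤ p ∧ p < q) (k : ℕ) :
    Dom (fun _ : DirichletCharacter ℂ q => ((es T (fun p => 1 / (p : ℝ)) k : ℝ) : ℂ))
      (fun χ => es T (tm χ) k * star (es T (tm χ) k)) := by
  classical
  have h1 : ∀ χ : DirichletCharacter ℂ q, es T (tm χ) k * star (es T (tm χ) k) =
      ((es T (fun p => 1 / (p : ℝ)) k : ℝ) : ℂ) + ∑ A ∈ powersetCard k T, ∑ B ∈ (powersetCard k T).erase A,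
        (∏ p ∈ A, tm χ p) * star (∏ p ∈ B, tm χ p) := by
    intro χ
    have h2 : ((es T (fun p => 1 / (p : ℝ)) k : ℝ) : ℂ) =
        ∑ A ∈ powersetCard k T, (∏ p ∈ A, tm χ p) * star (∏ p ∈ A, tm χ p) := by
      unfold es
      rw [Complex.ofReal_sum]
      refine sum_congr rfl fun A hA => ?_
      rw [mem_powersetCard] at hA
      rw [Complex.ofReal_prod, star_prod, ← prod_mul_distrib]
      refine prod_congr rfl fun p hp => ?_
      obtain ⟨hp1, hp2⟩ := hT p (hA.1 hp)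
      have h3 := norm_char (cast_ne_zero hp1 hp2) χ
      have h4 := rs_sq hp1
      have h5 : star ((rs p : ℝ) : ℂ) = ((rs p : ℝ) : ℂ) := Complex.conj_ofReal _
      unfold tm
      rw [star_mul', h5]
      calc ((1 / (p : ℝ) : ℝ) : ℂ) = ((rs p * rs p : ℝ) : ℂ) * (χ (p : ZMod q) * star (χ (p : ZMod q))) := by
            rw [h3, mul_one, h4]
        _ = _ := by push_cast; ring
    rw [h2, ← sum_add_distrib]
    conv_lhs => unfold es
    rw [star_sum, sum_mul_sum]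
    refine sum_congr rfl fun A hA => ?_
    rw [add_sum_erase _ (fun B => (∏ p ∈ A, tm χ p) * star (∏ p ∈ B, tm χ p)) hA]
  have h2 : Pos (fun χ : DirichletCharacter ℂ q => ∑ A ∈ powersetCard k T, ∑ B ∈ (powersetCard k T).erase A,
        (∏ p ∈ A, tm χ p) * star (∏ p ∈ B, tm χ p)) :=
    Pos.sum _ fun A _ => Pos.sum _ fun B _ =>
      (Pos.prod _ fun p _ => tm_pos p).mul (Pos.prod _ fun p _ => tm_pos p).star
  refine h2.congr fun χ => ?_
  beta_reduce
  rw [h1 χ]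
  ring

/-- the moments -/
noncomputable def SM (H : Subgroup (DirichletCharacter ℂ q)) (T : Finset ℕ) (n : ℕ) : ℝ :=
  ∑ ψ : H, ‖FS T ψ.1‖ ^ n

theorem pow_mul_star (z : ℂ) (n : ℕ) : z ^ n * star (z ^ n) = ((‖z‖ ^ (2 * n) : ℝ) : ℂ) := by
  have h1 : z * star z = ((‖z‖ ^ 2 : ℝ) : ℂ) := by
    have := Complex.mul_conj' z
    rw [Complex.ofReal_pow]
    exact this
  rw [star_pow, ← mul_pow, h1, ← Complex.ofReal_pow, ← pow_mul]

theorem SM_ge (H : Subgroup (DirichletCharacter ℂ q)) {T : Finset ℕ} (hT : ∀ p ∈ T, 1 ≤ p ∧ p < q) (k : ℕ) :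
    (Nat.card H : ℝ) * ((k.factorial : ℝ) ^ 2 * es T (fun p => 1 / (p : ℝ)) k) ≤ SM H T (2 * k) := by
  have h1 := D_pow_ge (q := q) T k
  have hD : Pos (fun χ : DirichletCharacter ℂ q => FS T χ ^ k) := (FS_pos T).pow k
  have hE : Pos (fun χ : DirichletCharacter ℂ q => ((k.factorial : ℝ) : ℂ) * es T (tm χ) k) :=
    (es_pos T k).smul (Nat.cast_nonneg _)
  have h2 : Pos (fun χ : DirichletCharacter ℂ q => (FS T χ ^ k - ((k.factorial : ℝ) : ℂ) * es T (tm χ) k) *
      star (FS T χ ^ k)) := Pos.mul h1 hD.star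
  have h3 : Pos (fun χ : DirichletCharacter ℂ q => (((k.factorial : ℝ) : ℂ) * es T (tm χ) k) *
      star (FS T χ ^ k - ((k.factorial : ℝ) : ℂ) * es T (tm χ) k)) := Pos.mul hE (Pos.star h1)
  have h4 := (es_sq hT k).smul (c := (k.factorial : ℝ) ^ 2) (by positivity)
  have h5 := ((h2.add h3).add h4).sum_nonneg H
  have h6 : ∀ χ : DirichletCharacter ℂ q,
      (FS T χ ^ k - ((k.factorial : ℝ) : ℂ) * es T (tm χ) k) * star (FS T χ ^ k) +
      (((k.factorial : ℝ) : ℂ) * es T (tm χ) k) *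
      star (FS T χ ^ k - ((k.factorial : ℝ) : ℂ) * es T (tm χ) k) +
      ((((k.factorial : ℝ) ^ 2 : ℝ) : ℂ) * (es T (tm χ) k * star (es T (tm χ) k)) -
        (((k.factorial : ℝ) ^ 2 : ℝ) : ℂ) * ((es T (fun p => 1 / (p : ℝ)) k : ℝ) : ℂ)) =
      ((‖FS T χ‖ ^ (2 * k) - (k.factorial : ℝ) ^ 2 * es T (fun p => 1 / (p : ℝ)) k : ℝ) : ℂ) := by
    intro χ
    have h7 := pow_mul_star (FS T χ) k
    rw [Complex.ofReal_sub, ← h7, star_sub, star_mul']
    have h8 : star (((k.factorial : ℝ)) : ℂ) = (((k.factorial : ℝ)) : ℂ) := Complex.conj_ofReal _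
    rw [h8]
    push_cast
    ring
  rw [sum_congr rfl fun ψ _ => h6 ψ.1, ← Complex.ofReal_sum, Complex.ofReal_re, sum_sub_distrib, sum_const,
    card_univ, nsmul_eq_mul, ← Nat.card_eq_fintype_card] at h5
  unfold SM
  linarith

end

end Pool.Agent.X24.Coset
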