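import Pool.Agent.X24.Coset.H
import Pool.Agent.X24.Coset.C

/-!
The core inequality for a group of characters.
-/

set_option autoImplicit false

open Finset

namespace Pool.Agent.X24.Coset

section
variable {q : ℕ} [hq : Fact q.Prime]

theorem norm_FS_le (T : Finset ℕ) (χ : DirichletCharacter ℂ q) : ‖FS T χ‖ ≤ T.card := by
  unfold FS
  refine (norm_sum_le _ _).trans ?_
  calc ∑ a ∈ T, ‖(rs a : ℂ) * χ (a : ZMod q)‖ ≤ ∑ _a ∈ T, (1 : ℝ) := by
        refine sum_le_sum fun a _ => ?_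
        rw [norm_mul, Complex.norm_real, Real.norm_of_nonneg (rs_nonneg a)]
        have h1 := norm_char_le χ (a : ZMod q)
        have h2 : rs a ≤ 1 := by
          unfold rs
          rcases Nat.eq_zero_or_pos a with h | h
          · rw [h, Nat.cast_zero, Real.zero_rpow (by norm_num)]
            norm_num
          · exact Real.rpow_le_one_of_one_le_of_nonpos (by exact_mod_cast h) (by norm_num)
        exact mul_le_one₀ h2 (norm_nonneg _) h1
    _ = T.card := by rw [sum_const, nsmul_eq_mul, mul_one]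

theorem norm_Lw_le' (χ : DirichletCharacter ℂ q) : ‖Lw χ‖ ≤ 2 * √q := by
  refine (norm_Lw_le χ).trans ?_
  refine le_trans ?_ (sum_rpow_le q)
  refine (sum_le_sum (g := fun a : ℕ => (a : ℝ) ^ (-(1 / 2) : ℝ)) fun a ha => ?_).trans ?_
  · rw [mem_Ico] at ha
    exact wt_le ha.1 ha.2.le
  · refine sum_le_sum_of_subset_of_nonneg ?_ fun a _ _ => by positivity
    intro a ha
    rw [mem_Ico] at ha
    rw [mem_Icc]
    omega

theorem pw1 {d w : ℝ} (hd : 0 ≤ d) (hw : 0 ≤ w) (k j : ℕ) :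
    w ^ (2 * j) * d ^ (2 * k) ≤ d ^ (2 * (k + j)) + w ^ (2 * (k + j)) := by
  rcases le_total w d with h | h
  · have h1 : w ^ (2 * j) ≤ d ^ (2 * j) := pow_le_pow_left₀ hw h _
    have h2 : w ^ (2 * j) * d ^ (2 * k) ≤ d ^ (2 * j) * d ^ (2 * k) := mul_le_mul_of_nonneg_right h1 (by positivity)
    have h3 : d ^ (2 * j) * d ^ (2 * k) = d ^ (2 * (k + j)) := by ring
    have h4 : 0 ≤ w ^ (2 * (k + j)) := by positivity
    linarith
  · have h1 : d ^ (2 * k) ≤ w ^ (2 * k) := pow_le_pow_left₀ hd h _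
    have h2 : w ^ (2 * j) * d ^ (2 * k) ≤ w ^ (2 * j) * w ^ (2 * k) := mul_le_mul_of_nonneg_left h1 (by positivity)
    have h3 : w ^ (2 * j) * w ^ (2 * k) = w ^ (2 * (k + j)) := by ring
    have h4 : 0 ≤ d ^ (2 * (k + j)) := by positivity
    linarith

theorem pw2 {d w : ℝ} (hd : 0 ≤ d) (hw : 0 ≤ w) (k j : ℕ) :
    w ^ j * d ^ (2 * k + j) ≤ d ^ (2 * (k + j)) + w ^ (2 * (k + j)) := by
  rcases le_total w d with h | h
  · have h1 : w ^ j ≤ d ^ j := pow_le_pow_left₀ hw h _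
    have h2 : w ^ j * d ^ (2 * k + j) ≤ d ^ j * d ^ (2 * k + j) := mul_le_mul_of_nonneg_right h1 (by positivity)
    have h3 : d ^ j * d ^ (2 * k + j) = d ^ (2 * (k + j)) := by ring
    have h4 : 0 ≤ w ^ (2 * (k + j)) := by positivity
    linarith
  · have h1 : d ^ (2 * k + j) ≤ w ^ (2 * k + j) := pow_le_pow_left₀ hd h _
    have h2 : w ^ j * d ^ (2 * k + j) ≤ w ^ j * w ^ (2 * k + j) := mul_le_mul_of_nonneg_left h1 (by positivity)
    have h3 : w ^ j * w ^ (2 * k + j) = w ^ (2 * (k + j)) := by ring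
    have h4 : 0 ≤ d ^ (2 * (k + j)) := by positivity
    linarith

/-- the lower bound from positivity -/
theorem pos_part (H : Subgroup (DirichletCharacter ℂ q)) {T : Finset ℕ} (hT : ∀ p ∈ T, p.Prime) {j k : ℕ}
    (hS : ∀ a ∈ AA T j, 4 * a ≤ q) :
    SM H T (2 * (k + j)) ≤ 2 * j.factorial *
      (∑ ψ : H, Lw ψ.1 * (FS T ψ.1 ^ k * star (FS T ψ.1 ^ (k + j)))).re := by
  have hD : Pos (fun χ : DirichletCharacter ℂ q => FS T χ ^ k * star (FS T χ ^ (k + j))) :=
    ((FS_pos T).pow k).mul ((FS_pos T).pow (k + j)).star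
  have h1 : Dom (fun χ : DirichletCharacter ℂ q => (((1 / 2 : ℝ)) : ℂ) * FS (AA T j) χ) (fun χ => Lw χ) :=
    Lw_ge fun a ha => ⟨(AA_pos hT j a ha).1, hS a ha⟩
  have h2 := D_pow_le (q := q) hT j
  have hj0 : (0 : ℝ) ≤ 2 * j.factorial := by positivity
  have h3 := (Pos.smul (h1.mul_left hD) hj0).add (h2.mul_left hD)
  have h4 := h3.sum_nonneg H
  have h5 : ∀ χ : DirichletCharacter ℂ q,
      ((2 * j.factorial : ℝ) : ℂ) * (FS T χ ^ k * star (FS T χ ^ (k + j)) * Lw χ -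
        FS T χ ^ k * star (FS T χ ^ (k + j)) * ((((1 / 2 : ℝ)) : ℂ) * FS (AA T j) χ)) +
      (FS T χ ^ k * star (FS T χ ^ (k + j)) * (((j.factorial : ℝ) : ℂ) * FS (AA T j) χ) -
        FS T χ ^ k * star (FS T χ ^ (k + j)) * FS T χ ^ j) =
      ((2 * j.factorial : ℝ) : ℂ) * (Lw χ * (FS T χ ^ k * star (FS T χ ^ (k + j)))) -
        ((‖FS T χ‖ ^ (2 * (k + j)) : ℝ) : ℂ) := by
    intro χ
    rw [← pow_mul_star]
    push_cast
    ring
  rw [sum_congr rfl fun ψ _ => h5 ψ.1, sum_sub_distrib, ← mul_sum, ← Complex.ofReal_sum, Complex.sub_re,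
    Complex.ofReal_re, Complex.re_ofReal_mul] at h4
  unfold SM
  linarith

/-- **The core inequality.** -/
theorem core (H : Subgroup (DirichletCharacter ℂ q)) {T : Finset ℕ} {X : ℕ} (hT : ∀ p ∈ T, p.Prime)
    (hTX : ∀ p ∈ T, p ≤ X) (hX : T.card ≤ X) (hX1 : 1 ≤ X) {k j : ℕ} {w : ℝ} (hw : 1 ≤ w)
    (hwj : 3 * (j : ℝ) ≤ w) (hS : 2 * w ^ (2 * k) * (Nat.card H : ℝ) ≤ SM H T (2 * k))
    (hsize : 8 * √q * (X : ℝ) ^ (2 * k + j) ≤ (Nat.card H : ℝ)) (hHq : (Nat.card H : ℝ) ≤ q) :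
    ∃ χ ∈ H, χ ≠ 1 ∧ 3 ^ j / 16 ≤ ‖DirichletCharacter.LFunction χ (1 / 2)‖ := by
  classical
  have hcard : (0 : ℝ) < Nat.card H := by exact_mod_cast Nat.card_pos
  have hw0 : 0 < w := by linarith
  have hXr : (1 : ℝ) ≤ X := by exact_mod_cast hX1
  have hq1 : (1 : ℝ) ≤ √q := by
    apply Real.one_le_sqrt.mpr
    exact_mod_cast hq.out.one_lt.le
  by_contra hcon
  push Not at hcon
  set M := SM H T (2 * (k + j)) with hM
  have hA : ∀ a ∈ AA T j, 4 * a ≤ q := by
    intro a ha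
    have h1 := AA_le hTX j a ha
    have h2 : (X : ℝ) ^ j ≤ (X : ℝ) ^ (2 * k + j) := pow_le_pow_right₀ hXr (by omega)
    have h3 : (a : ℝ) ≤ (X : ℝ) ^ j := by exact_mod_cast h1
    have h4 : (4 * (a : ℝ)) ≤ q := by
      have h5 : (0 : ℝ) < (X : ℝ) ^ (2 * k + j) := by positivity
      nlinarith
    exact_mod_cast h4
  have hpos := pos_part H hT (k := k) hA
  rw [← hM] at hpos
  -- the moments
  have hM1 : (Nat.card H : ℝ) * w ^ (2 * (k + j)) ≤ M := by
    have h1 : w ^ (2 * j) * SM H T (2 * k) ≤ M + (Nat.card H : ℝ) * w ^ (2 * (k + j)) := by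
      rw [hM]
      unfold SM
      rw [mul_sum, Nat.card_eq_fintype_card, ← card_univ, ← nsmul_eq_mul, ← sum_const, ← sum_add_distrib]
      exact sum_le_sum fun ψ _ => pw1 (norm_nonneg _) hw0.le k j
    have h2 : w ^ (2 * j) * (2 * w ^ (2 * k) * (Nat.card H : ℝ)) ≤ w ^ (2 * j) * SM H T (2 * k) :=
      mul_le_mul_of_nonneg_left hS (by positivity)
    have h3 : w ^ (2 * j) * (2 * w ^ (2 * k) * (Nat.card H : ℝ)) = 2 * ((Nat.card H : ℝ) * w ^ (2 * (k + j))) := by
      ring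
    linarith
  have hM2 : w ^ j * SM H T (2 * k + j) ≤ 2 * M := by
    have h1 : w ^ j * SM H T (2 * k + j) ≤ M + (Nat.card H : ℝ) * w ^ (2 * (k + j)) := by
      rw [hM]
      unfold SM
      rw [mul_sum, Nat.card_eq_fintype_card, ← card_univ, ← nsmul_eq_mul, ← sum_const, ← sum_add_distrib]
      exact sum_le_sum fun ψ _ => pw2 (norm_nonneg _) hw0.le k j
    linarith
  -- the upper bound
  set V : ℝ := 3 ^ j / 16 with hV
  have hV0 : 0 < V := by positivity
  have hup : (∑ ψ : H, Lw ψ.1 * (FS T ψ.1 ^ k * star (FS T ψ.1 ^ (k + j)))).re ≤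
      2 * √q * (X : ℝ) ^ (2 * k + j) + V * SM H T (2 * k + j) := by
    refine (Complex.re_le_norm _).trans ?_
    have h1 : ‖∑ ψ : H, Lw ψ.1 * (FS T ψ.1 ^ k * star (FS T ψ.1 ^ (k + j)))‖ ≤
        ∑ ψ : H, ((if ψ.1 = 1 then 2 * √q * (X : ℝ) ^ (2 * k + j) else 0) + V * ‖FS T ψ.1‖ ^ (2 * k + j)) := by
      refine (norm_sum_le _ _).trans (sum_le_sum fun ψ _ => ?_)
      rw [norm_mul, norm_mul, norm_star, norm_pow, norm_pow, ← pow_add, ← add_assoc, ← two_mul]
      have hF : ‖FS T ψ.1‖ ^ (2 * k + j) ≤ (X : ℝ) ^ (2 * k + j) := by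
        refine pow_le_pow_left₀ (norm_nonneg _) ((norm_FS_le T ψ.1).trans ?_) _
        exact_mod_cast hX
      split_ifs with h
      · have h2 := norm_Lw_le' ψ.1
        have h3 : ‖Lw ψ.1‖ * ‖FS T ψ.1‖ ^ (2 * k + j) ≤ 2 * √q * (X : ℝ) ^ (2 * k + j) :=
          mul_le_mul h2 hF (by positivity) (by positivity)
        have h4 : 0 ≤ V * ‖FS T ψ.1‖ ^ (2 * k + j) := by positivity
        linarith
      · rw [zero_add]
        refine mul_le_mul_of_nonneg_right ?_ (by positivity)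
        have h8 := (hcon ψ.1 ψ.2 h).le
        rwa [LFunction_half _ h] at h8
    refine h1.trans ?_
    rw [sum_add_distrib, ← mul_sum]
    refine add_le_add ?_ le_rfl
    rw [← sum_filter, sum_const, nsmul_eq_mul]
    have h12 : ((univ : Finset H).filter fun ψ => ψ.1 = 1).card ≤ 1 := by
      rw [card_le_one]
      intro a ha b hb
      rw [mem_filter] at ha hb
      apply Subtype.ext
      exact ha.2.trans hb.2.symm
    have h13 : (((univ : Finset H).filter fun ψ => ψ.1 = 1).card : ℝ) ≤ 1 := by exact_mod_cast h12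
    exact mul_le_of_le_one_left (by positivity) h13
  -- the conclusion
  have hfac : (3 : ℝ) ^ j * j.factorial ≤ w ^ j := by
    calc (3 : ℝ) ^ j * j.factorial ≤ 3 ^ j * (j : ℝ) ^ j := by
          gcongr
          exact_mod_cast Nat.factorial_le_pow j
      _ = (3 * (j : ℝ)) ^ j := by rw [mul_pow]
      _ ≤ w ^ j := pow_le_pow_left₀ (by positivity) hwj j
  have hfac1 : (1 : ℝ) ≤ j.factorial := by exact_mod_cast Nat.factorial_pos j
  have h3j : (1 : ℝ) ≤ 3 ^ j := one_le_pow₀ (by norm_num)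
  have hwj0 : 0 < w ^ j := by positivity
  have hM0 : 0 < M := lt_of_lt_of_le (by positivity) hM1
  -- first part
  have e1 : 2 * j.factorial * (2 * √q * (X : ℝ) ^ (2 * k + j)) ≤ M / 2 := by
    have h1 : (Nat.card H : ℝ) * w ^ j ≤ M := by
      refine le_trans ?_ hM1
      refine mul_le_mul_of_nonneg_left (pow_le_pow_right₀ hw (by omega)) hcard.le
    have h2 : (j.factorial : ℝ) ≤ w ^ j := by nlinarith
    have h3 : (j.factorial : ℝ) * (8 * √q * (X : ℝ) ^ (2 * k + j)) ≤ w ^ j * (Nat.card H : ℝ) :=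
      mul_le_mul h2 hsize (by positivity) (by positivity)
    nlinarith
  have e2 : 2 * j.factorial * (V * SM H T (2 * k + j)) ≤ M / 4 := by
    have h1 : (3 ^ j * j.factorial) * SM H T (2 * k + j) ≤ w ^ j * SM H T (2 * k + j) := by
      refine mul_le_mul_of_nonneg_right hfac ?_
      unfold SM
      exact sum_nonneg fun ψ _ => by positivity
    have h2 : 2 * j.factorial * (V * SM H T (2 * k + j)) = (3 ^ j * j.factorial) * SM H T (2 * k + j) / 8 := by
      rw [hV]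
      ring
    rw [h2]
    linarith
  have e3 : M ≤ 2 * j.factorial * (2 * √q * (X : ℝ) ^ (2 * k + j) + V * SM H T (2 * k + j)) :=
    hpos.trans (mul_le_mul_of_nonneg_left hup (by positivity))
  rw [mul_add] at e3
  linarith

end

end Pool.Agent.X24.Coset
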