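import Pool.Agent.X24.Coset.I
import Pool.Agent.X24.Coset.F

/-!
The choice of the parameters for a group of characters.
-/

set_option autoImplicit false

open Finset Filter

namespace Pool.Agent.X24.Coset

/-- the primes in `(4 ^ t, 4 ^ (2 t)]` -/
def TT (t : ℕ) : Finset ℕ := (range t).biUnion fun i => P (t + i)

theorem mem_TT {t p : ℕ} (h : p ∈ TT t) : p.Prime ∧ 4 ^ t < p ∧ p ≤ 4 ^ (2 * t) := by
  unfold TT at h
  rw [mem_biUnion] at h
  obtain ⟨i, hi, hp⟩ := h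
  rw [mem_range] at hi
  unfold P at hp
  rw [mem_filter, mem_Ioc] at hp
  refine ⟨hp.2, lt_of_le_of_lt (Nat.pow_le_pow_right (by norm_num) (by omega)) hp.1.1,
    hp.1.2.trans (Nat.pow_le_pow_right (by norm_num) (by omega))⟩

theorem card_TT (t : ℕ) : (TT t).card ≤ 4 ^ (2 * t) := by
  have h : TT t ⊆ Icc 1 (4 ^ (2 * t)) := by
    intro p hp
    obtain ⟨h1, _, h3⟩ := mem_TT hp
    rw [mem_Icc]
    exact ⟨h1.one_lt.le, h3⟩
  have := card_le_card h
  rwa [Nat.card_Icc, Nat.add_sub_cancel] at this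

theorem sum_TT {t : ℕ} (ht : 8 ≤ t) : 1 / 16 ≤ ∑ p ∈ TT t, 1 / (p : ℝ) := by
  unfold TT
  rw [sum_biUnion]
  · have ht0 : (0 : ℝ) < t := by exact_mod_cast (by omega : 0 < t)
    have h1 : ∀ i ∈ range t, 1 / (16 * (t : ℝ)) ≤ ∑ p ∈ P (t + i), 1 / (p : ℝ) := by
      intro i hi
      rw [mem_range] at hi
      have h2 := card_block (t + i) (by omega)
      have h3 : ((4 : ℝ) ^ (t + i)) ≤ 2 * ((t + i : ℕ) + 1 : ℝ) * ((P (t + i)).card : ℝ) := by exact_mod_cast h2
      have h4 : ((t + i : ℕ) + 1 : ℝ) ≤ 2 * t := by exact_mod_cast (by omega : t + i + 1 ≤ 2 * t)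
      calc 1 / (16 * (t : ℝ)) ≤ ((P (t + i)).card : ℝ) * (1 / (4 : ℝ) ^ (t + i + 1)) := by
            rw [mul_one_div, div_le_div_iff₀ (by positivity) (by positivity), one_mul, pow_succ]
            have h5 : (0 : ℝ) ≤ (P (t + i)).card := Nat.cast_nonneg _
            nlinarith
        _ = ∑ p ∈ P (t + i), 1 / (4 : ℝ) ^ (t + i + 1) := by rw [sum_const, nsmul_eq_mul]
        _ ≤ _ := by
            refine sum_le_sum fun p hp => ?_
            unfold P at hp
            rw [mem_filter, mem_Ioc] at hp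
            have hp0 : (0 : ℝ) < p := by exact_mod_cast hp.2.pos
            apply one_div_le_one_div_of_le hp0
            exact_mod_cast hp.1.2
    calc (1 : ℝ) / 16 = ∑ _i ∈ range t, 1 / (16 * (t : ℝ)) := by
          rw [sum_const, card_range, nsmul_eq_mul]
          field_simp
      _ ≤ _ := sum_le_sum h1
  · intro i _ j _ hij
    rw [Function.onFun, disjoint_left]
    intro p hp hp'
    have := P_disj hp hp'
    omega

theorem fac_ge (k : ℕ) : ((k : ℝ) / 3) ^ k ≤ k.factorial := by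
  have h1 := Real.pow_div_factorial_le_exp (k : ℝ) (Nat.cast_nonneg k) k
  have h2 : (0 : ℝ) < k.factorial := by exact_mod_cast Nat.factorial_pos k
  rw [div_le_iff₀ h2] at h1
  have h3 : Real.exp (k : ℝ) ≤ 3 ^ k := by
    rw [show (k : ℝ) = k * 1 by ring, Real.exp_nat_mul]
    exact pow_le_pow_left₀ (Real.exp_pos _).le (by linarith [Real.exp_one_lt_d9]) _
  rw [div_pow, div_le_iff₀ (by positivity)]
  calc (k : ℝ) ^ k ≤ Real.exp k * k.factorial := h1
    _ ≤ 3 ^ k * k.factorial := by gcongr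
    _ = _ := by ring

section
variable {q : ℕ} [hq : Fact q.Prime]

theorem SM_TT (H : Subgroup (DirichletCharacter ℂ q)) {t k : ℕ} (ht : 8 ≤ t) (hk : 1 ≤ k) (hkt : 32 * k ≤ 4 ^ t)
    (htq : 4 ^ (2 * t) < q) :
    2 * √((k : ℝ) / 192) ^ (2 * k) * (Nat.card H : ℝ) ≤ SM H (TT t) (2 * k) := by
  have h1 := SM_ge H (T := TT t) (fun p hp => ⟨(mem_TT hp).1.one_lt.le, lt_of_le_of_lt (mem_TT hp).2.2 htq⟩) k
  have h2 : (1 / 32 : ℝ) ^ k ≤ (k.factorial : ℝ) * es (TT t) (fun p => 1 / (p : ℝ)) k := by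
    refine es_ge (η := 1 / 4 ^ t) (K := k) (fun p _ => by positivity) (fun p hp => ?_) (by norm_num) ?_ (by positivity)
      k le_rfl
    · apply one_div_le_one_div_of_le (by positivity)
      exact_mod_cast (mem_TT hp).2.1.le
    · refine le_trans ?_ (sum_TT ht)
      have h3 : (32 * (k : ℝ)) ≤ 4 ^ t := by exact_mod_cast hkt
      have h4 : (k : ℝ) * (1 / 4 ^ t) ≤ 1 / 32 := by
        rw [mul_one_div, div_le_div_iff₀ (by positivity) (by norm_num)]
        linarith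
      linarith
  have h3 := fac_ge k
  have h4 : 2 * √((k : ℝ) / 192) ^ (2 * k) ≤ ((k : ℝ) / 3) ^ k * (1 / 32) ^ k := by
    rw [pow_mul, Real.sq_sqrt (by positivity), ← mul_pow]
    have h5 : (k : ℝ) / 3 * (1 / 32) = 2 * (k / 192) := by ring
    rw [h5, mul_pow]
    have h6 : (2 : ℝ) ≤ 2 ^ k := by
      calc (2 : ℝ) = 2 ^ 1 := by norm_num
        _ ≤ 2 ^ k := pow_le_pow_right₀ (by norm_num) hk
    exact mul_le_mul_of_nonneg_right h6 (by positivity)
  refine le_trans ?_ h1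
  rw [mul_comm]
  refine mul_le_mul_of_nonneg_left ?_ (Nat.cast_nonneg _)
  calc 2 * √((k : ℝ) / 192) ^ (2 * k) ≤ ((k : ℝ) / 3) ^ k * (1 / 32) ^ k := h4
    _ ≤ k.factorial * (k.factorial * es (TT t) (fun p => 1 / (p : ℝ)) k) := by
        exact mul_le_mul h3 h2 (by positivity) (by positivity)
    _ = _ := by ring

theorem card_le_q (H : Subgroup (DirichletCharacter ℂ q)) : (Nat.card H : ℝ) ≤ q := by
  haveI : NeZero q := ⟨hq.out.ne_zero⟩
  have h1 : Nat.card H ≤ Nat.card (DirichletCharacter ℂ q) := Subgroup.card_le_card_group H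
  have h2 : Nat.card (DirichletCharacter ℂ q) = q.totient :=
    DirichletCharacter.card_eq_totient_of_hasEnoughRootsOfUnity ℂ q
  have h3 := Nat.totient_le q
  exact_mod_cast h1.trans (h2.le.trans h3)

end

theorem ev_lin (C κ : ℝ) (hC : 0 < C) (hκ : 0 < κ) :
    ∀ᶠ Q : ℕ in atTop, C * Real.log (Real.log Q) ≤ κ * Real.log Q := by
  have h1 := (Real.isLittleO_log_id_atTop).bound (c := κ / C) (by positivity)
  have h2 := (Real.tendsto_log_atTop.comp tendsto_natCast_atTop_atTop).eventually h1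
  have h3 := (Real.tendsto_log_atTop.comp tendsto_natCast_atTop_atTop).eventually_ge_atTop (1 : ℝ)
  filter_upwards [h2, h3] with Q hQ hQ1
  simp only [Function.comp_apply, id] at hQ hQ1
  have h4 : 0 ≤ Real.log (Real.log Q) := Real.log_nonneg hQ1
  rw [Real.norm_of_nonneg h4, Real.norm_of_nonneg (by linarith)] at hQ
  calc C * Real.log (Real.log Q) ≤ C * (κ / C * Real.log Q) := by gcongr
    _ = κ * Real.log Q := by field_simp

/-- **The choice of the parameters.** -/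
theorem params2 {κ : ℝ} (hκ : 0 < κ) (hκ1 : κ ≤ 1 / 18) {q : ℕ} (h8 : 8 ≤ Real.log (Real.log q))
    (hc : 442368 * Real.log (Real.log q) ≤ κ * Real.log q) :
    ∃ t k j : ℕ, 8 ≤ t ∧ 1 ≤ k ∧ 32 * k ≤ 4 ^ t ∧ 1 ≤ √((k : ℝ) / 192) ∧ 3 * (j : ℝ) ≤ √((k : ℝ) / 192) ∧
      ((4 : ℝ) ^ (2 * t)) ^ (2 * k + j) ≤ (q : ℝ) ^ (9 * κ) ∧
      Real.exp (√(κ / 768) / 6 * √(Real.log q / Real.log (Real.log q))) ≤ 3 ^ j / 16 := by
  set u := Real.log (Real.log q) with hu
  set L := Real.log (q : ℝ) with hL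
  have hL0 : 0 < L := by
    by_contra hcon
    push Not at hcon
    nlinarith
  have hq0 : (0 : ℝ) < q := by
    rcases Nat.eq_zero_or_pos q with h | h
    · rw [h] at hL
      simp [hL] at hL0
    · exact_mod_cast h
  have hexp : Real.exp u = L := Real.exp_log hL0
  obtain ⟨t, ht⟩ : ∃ t, t = ⌈u⌉₊ := ⟨_, rfl⟩
  have ht1 : u ≤ t := by rw [ht]; exact Nat.le_ceil _
  have ht2 : (t : ℝ) < u + 1 := by rw [ht]; exact Nat.ceil_lt_add_one (by linarith)
  have ht3 : (t : ℝ) ≤ 2 * u := by linarith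
  have ht8' : (8 : ℝ) ≤ t := h8.trans ht1
  have ht8 : 8 ≤ t := by exact_mod_cast ht8'
  have ht0 : (0 : ℝ) < t := by linarith
  obtain ⟨k, hk⟩ : ∃ k, k = ⌊κ * L / t⌋₊ := ⟨_, rfl⟩
  have hk1 : (k : ℝ) ≤ κ * L / t := by rw [hk]; exact Nat.floor_le (by positivity)
  have hk2 : κ * L / t < k + 1 := by rw [hk]; exact Nat.lt_floor_add_one _
  have hk3 : 221184 ≤ κ * L / t := by
    rw [le_div_iff₀ ht0]
    linarith
  have hk4 : κ * L / t / 2 ≤ k := by linarith
  have hk5 : (110592 : ℝ) ≤ k := by linarith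
  have hk6 : κ * L / (4 * u) ≤ k := by
    refine le_trans ?_ hk4
    rw [div_div]
    exact div_le_div_of_nonneg_left (by positivity) (by positivity) (by linarith)
  have hkt : (k : ℝ) * t ≤ κ * L := by rwa [le_div_iff₀ ht0] at hk1
  set w := √((k : ℝ) / 192) with hw
  have hw2 : w ^ 2 = k / 192 := Real.sq_sqrt (by positivity)
  have hw24 : 24 ≤ w := by
    rw [hw]
    apply Real.le_sqrt_of_sq_le
    linarith
  obtain ⟨j, hj⟩ : ∃ j, j = ⌊w / 3⌋₊ := ⟨_, rfl⟩
  have hj1 : (j : ℝ) ≤ w / 3 := by rw [hj]; exact Nat.floor_le (by positivity)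
  have hj2 : w / 3 < j + 1 := by rw [hj]; exact Nat.lt_floor_add_one _
  have hjk : (j : ℝ) ≤ k := by nlinarith
  refine ⟨t, k, j, ht8, ?_, ?_, by linarith, by linarith, ?_, ?_⟩
  · have : (1 : ℝ) ≤ k := by linarith
    exact_mod_cast this
  · have h1 : (32 * (k : ℝ)) ≤ 4 ^ t := by
      have h2 : 32 * (k : ℝ) ≤ L := by
        have h3 : 8 * (k : ℝ) ≤ κ * L := by nlinarith
        nlinarith
      refine h2.trans ?_
      rw [← hexp]
      calc Real.exp u ≤ Real.exp t := Real.exp_le_exp.mpr ht1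
        _ = (Real.exp 1) ^ t := by rw [← Real.exp_nat_mul, mul_one]
        _ ≤ 4 ^ t := pow_le_pow_left₀ (Real.exp_pos 1).le (by linarith [Real.exp_one_lt_d9]) _
    exact_mod_cast h1
  · rw [← pow_mul]
    have h1 : ((4 : ℝ) ^ (2 * t * (2 * k + j))) = (4 : ℝ) ^ ((2 * t * (2 * k + j) : ℕ) : ℝ) := by
      rw [Real.rpow_natCast]
    rw [h1]
    have hlog4 : Real.log 4 ≤ 1.387 := by
      rw [show (4 : ℝ) = 2 ^ 2 by norm_num, Real.log_pow]
      have := Real.log_two_lt_d9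
      push_cast
      linarith
    have hlog4' : 0 < Real.log 4 := Real.log_pos (by norm_num)
    rw [Real.rpow_def_of_pos (by norm_num), Real.rpow_def_of_pos hq0]
    apply Real.exp_le_exp.mpr
    push_cast
    have h2 : 2 * (t : ℝ) * (2 * k + j) ≤ 6 * (κ * L) := by nlinarith
    calc Real.log 4 * (2 * (t : ℝ) * (2 * k + j)) ≤ 1.387 * (6 * (κ * L)) := by gcongr
      _ ≤ L * (9 * κ) := by
        have : 0 < κ * L := by positivity
        nlinarith
  · have h1 : √(κ / 768) * √(L / u) ≤ w := by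
      rw [← Real.sqrt_mul (by positivity), hw]
      apply Real.sqrt_le_sqrt
      calc κ / 768 * (L / u) = κ * L / (4 * u) / 192 := by
            field_simp
            norm_num
        _ ≤ k / 192 := by linarith
    have h2 : Real.exp (w / 6) ≤ 3 ^ j / 16 := by
      have h3 : Real.exp 3 ≥ 16 := by
        have h4 : Real.exp 3 = Real.exp 1 ^ 3 := by
          rw [← Real.exp_nat_mul]
          norm_num
        rw [h4]
        have h5 := Real.exp_one_gt_d9
        have h6 : (2.7 : ℝ) ^ 3 ≤ Real.exp 1 ^ 3 := pow_le_pow_left₀ (by norm_num) (by linarith) 3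
        have h7 : (16 : ℝ) ≤ 2.7 ^ 3 := by norm_num
        linarith
      rw [le_div_iff₀ (by norm_num)]
      calc Real.exp (w / 6) * 16 ≤ Real.exp (w / 6) * Real.exp 3 := by gcongr
        _ = Real.exp (w / 6 + 3) := by rw [Real.exp_add]
        _ ≤ Real.exp (j * 1) := Real.exp_le_exp.mpr (by linarith)
        _ = Real.exp 1 ^ j := Real.exp_nat_mul 1 j
        _ ≤ 3 ^ j := pow_le_pow_left₀ (Real.exp_pos 1).le (by linarith [Real.exp_one_lt_d9]) _
    refine le_trans (Real.exp_le_exp.mpr ?_) h2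
    calc √(κ / 768) / 6 * √(L / u) = √(κ / 768) * √(L / u) / 6 := by ring
      _ ≤ w / 6 := by linarith

/-- **Large central values in every large group of characters.** -/
theorem large_subgroups (ε : ℝ) (hε : 0 < ε) : ∃ c : ℝ, 0 < c ∧ ∃ q₀ : ℕ, ∀ q : ℕ, q₀ ≤ q → q.Prime →
    ∀ [NeZero q], ∀ H : Subgroup (DirichletCharacter ℂ q), (q : ℝ) ^ (1 / 2 + ε) ≤ (Nat.card H : ℝ) →
    ∃ χ ∈ H, χ ≠ 1 ∧ Real.exp (c * √(Real.log q / Real.log (Real.log q))) ≤
      ‖DirichletCharacter.LFunction χ (1 / 2)‖ := by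
  set κ : ℝ := min ε 1 / 18 with hκdef
  have hm : 0 < min ε 1 := lt_min hε one_pos
  have hκ : 0 < κ := by positivity
  have hκ1 : κ ≤ 1 / 18 := by
    rw [hκdef]
    have := min_le_right ε 1
    linarith
  have hκε : 9 * κ ≤ ε / 2 := by
    rw [hκdef]
    have := min_le_left ε 1
    linarith
  refine ⟨√(κ / 768) / 6, by positivity, ?_⟩
  obtain ⟨q₀, hq₀⟩ := eventually_atTop.mp ((ev_loglog.and (ev_lin 442368 κ (by norm_num) hκ)).and
    (ev_small 8 (ε / 2) (by positivity)))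
  refine ⟨q₀, fun q hq hp _ H hH => ?_⟩
  obtain ⟨⟨h8, hlin⟩, hsm⟩ := hq₀ q hq
  haveI : Fact q.Prime := ⟨hp⟩
  obtain ⟨t, k, j, ht, hk, hkt, hw, hwj, hX, hfin⟩ := params2 hκ hκ1 h8 hlin
  have hq1 : (1 : ℝ) ≤ q := by exact_mod_cast hp.one_lt.le
  have hq0 : (0 : ℝ) < q := by linarith
  have hHq := card_le_q H
  have hsize : 8 * √q * ((4 ^ (2 * t) : ℕ) : ℝ) ^ (2 * k + j) ≤ (Nat.card H : ℝ) := by
    refine le_trans ?_ hH
    push_cast
    calc 8 * √q * ((4 : ℝ) ^ (2 * t)) ^ (2 * k + j) ≤ (q : ℝ) ^ (ε / 2) * (q : ℝ) ^ (1 / 2 : ℝ) * (q : ℝ) ^ (ε / 2) := by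
          rw [Real.sqrt_eq_rpow]
          have h1 : (q : ℝ) ^ (9 * κ) ≤ (q : ℝ) ^ (ε / 2) := Real.rpow_le_rpow_of_exponent_le hq1 hκε
          have h2 := hX.trans h1
          gcongr
      _ = (q : ℝ) ^ (1 / 2 + ε) := by
          rw [← Real.rpow_add hq0, ← Real.rpow_add hq0]
          congr 1
          ring
  have htq : 4 ^ (2 * t) < q := by
    have h1 : ((4 ^ (2 * t) : ℕ) : ℝ) ≤ ((4 ^ (2 * t) : ℕ) : ℝ) ^ (2 * k + j) := by
      apply le_self_pow₀
      · exact_mod_cast Nat.one_le_pow _ _ (by norm_num)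
      · omega
    have h2 : (1 : ℝ) ≤ √q := Real.one_le_sqrt.mpr hq1
    have h3 : (0 : ℝ) < ((4 ^ (2 * t) : ℕ) : ℝ) := by positivity
    have h4 : ((4 ^ (2 * t) : ℕ) : ℝ) < q := by
      have h5 : (0 : ℝ) < ((4 ^ (2 * t) : ℕ) : ℝ) ^ (2 * k + j) := by positivity
      nlinarith
    exact_mod_cast h4
  obtain ⟨χ, hχ, hne, h⟩ := core H (T := TT t) (X := 4 ^ (2 * t)) (fun p hp => (mem_TT hp).1)
    (fun p hp => (mem_TT hp).2.2) (card_TT t) (Nat.one_le_pow _ _ (by norm_num)) (k := k) (j := j) hw hwj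
    (SM_TT H ht hk hkt htq) hsize hHq
  exact ⟨χ, hχ, hne, hfin.trans h⟩

end Pool.Agent.X24.Coset
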