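import Pool.Agent.X24.Coset.J

/-!
The core inequality with several blocks of primes.
-/

set_option autoImplicit false

open Finset

namespace Pool.Agent.X24.Coset

/-- the number of the prime factors in `T` -/
def cnt (T : Finset ℕ) (a : ℕ) : ℕ := (a.primeFactorsList.filter (· ∈ T)).length

theorem cnt_mul_mem {T : Finset ℕ} {p a : ℕ} (hp : p.Prime) (ha : 1 ≤ a) (hpT : p ∈ T) :
    cnt T (p * a) = cnt T a + 1 := by
  unfold cnt
  have h := (Nat.perm_primeFactorsList_mul hp.ne_zero (by omega : a ≠ 0)).filter (· ∈ T)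
  rw [h.length_eq, List.filter_append, List.length_append, Nat.primeFactorsList_prime hp]
  simp [hpT]
  omega

theorem cnt_mul_notMem {T : Finset ℕ} {p a : ℕ} (hp : p.Prime) (ha : 1 ≤ a) (hpT : p ∉ T) :
    cnt T (p * a) = cnt T a := by
  unfold cnt
  have h := (Nat.perm_primeFactorsList_mul hp.ne_zero (by omega : a ≠ 0)).filter (· ∈ T)
  rw [h.length_eq, List.filter_append, List.length_append, Nat.primeFactorsList_prime hp]
  simp [hpT]

/-- the set of the products -/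
def ms (T A : Finset ℕ) : Finset ℕ := (T ×ˢ A).image fun x => x.1 * x.2

/-- repeated products -/
def mp (T A : Finset ℕ) : ℕ → Finset ℕ
  | 0 => A
  | j + 1 => ms T (mp T A j)

theorem mp_prop {T A : Finset ℕ} {X Y : ℕ} (hT : ∀ p ∈ T, p.Prime) (hTX : ∀ p ∈ T, p ≤ X)
    (hA : ∀ a ∈ A, 1 ≤ a ∧ a ≤ Y ∧ cnt T a = 0) (j : ℕ) :
    ∀ a ∈ mp T A j, 1 ≤ a ∧ a ≤ X ^ j * Y ∧ cnt T a = j := by
  induction j with
  | zero =>
    intro a ha
    obtain ⟨h1, h2, h3⟩ := hA a ha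
    refine ⟨h1, by simpa using h2, h3⟩
  | succ j ih =>
    intro a ha
    rw [mp, ms, mem_image] at ha
    obtain ⟨⟨p, b⟩, hpb, rfl⟩ := ha
    rw [mem_product] at hpb
    obtain ⟨h1, h2, h3⟩ := ih b hpb.2
    have hp := hT p hpb.1
    refine ⟨Nat.mul_pos hp.pos h1, ?_, ?_⟩
    · calc p * b ≤ X * (X ^ j * Y) := Nat.mul_le_mul (hTX p hpb.1) h2
        _ = X ^ (j + 1) * Y := by ring
    · rw [cnt_mul_mem hp h1 hpb.1, h3]

theorem mp_other {T A T' : Finset ℕ} (hT : ∀ p ∈ T, p.Prime) (hd : Disjoint T T')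
    (hA : ∀ a ∈ A, 1 ≤ a ∧ cnt T' a = 0) (j : ℕ) : ∀ a ∈ mp T A j, 1 ≤ a ∧ cnt T' a = 0 := by
  induction j with
  | zero => exact hA
  | succ j ih =>
    intro a ha
    rw [mp, ms, mem_image] at ha
    obtain ⟨⟨p, b⟩, hpb, rfl⟩ := ha
    rw [mem_product] at hpb
    obtain ⟨h1, h2⟩ := ih b hpb.2
    have hp := hT p hpb.1
    refine ⟨Nat.mul_pos hp.pos h1, ?_⟩
    rw [cnt_mul_notMem hp h1 (disjoint_left.mp hd hpb.1), h2]

section
variable {q : ℕ} [hq : Fact q.Prime]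

theorem ms_dom {T A : Finset ℕ} (hT : ∀ p ∈ T, p.Prime) (j : ℕ) (hA : ∀ a ∈ A, 1 ≤ a ∧ cnt T a = j) :
    Dom (fun χ : DirichletCharacter ℂ q => FS T χ * FS A χ)
      (fun χ => (((j + 1 : ℕ) : ℝ) : ℂ) * FS (ms T A) χ) := by
  classical
  have h1 : ∀ χ : DirichletCharacter ℂ q, FS T χ * FS A χ =
      ∑ b ∈ ms T A, ((((T ×ˢ A).filter (fun x => x.1 * x.2 = b)).card : ℝ) : ℂ) *
        ((rs b : ℂ) * χ (b : ZMod q)) := by
    intro χ
    unfold FS
    rw [sum_mul_sum, ← sum_product', ← sum_fiberwise_of_maps_to (t := ms T A) (g := fun x => x.1 * x.2)]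
    · refine sum_congr rfl fun b _ => ?_
      rw [sum_congr rfl (g := fun _ => (rs b : ℂ) * χ (b : ZMod q)), sum_const, nsmul_eq_mul]
      · push_cast
        rfl
      · intro x hx
        rw [mem_filter] at hx
        rw [← hx.2, rs_mul, Nat.cast_mul, map_mul]
        push_cast
        ring
    · intro x hx
      rw [ms, mem_image]
      exact ⟨x, hx, rfl⟩
  have h2 : ∀ b ∈ ms T A, ((T ×ˢ A).filter (fun x => x.1 * x.2 = b)).card ≤ j + 1 := by
    intro b hb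
    rw [ms, mem_image] at hb
    obtain ⟨⟨p₀, a₀⟩, hpa, rfl⟩ := hb
    rw [mem_product] at hpa
    obtain ⟨ha1, ha2⟩ := hA a₀ hpa.2
    have hp₀ := hT p₀ hpa.1
    have hcnt : cnt T (p₀ * a₀) = j + 1 := by rw [cnt_mul_mem hp₀ ha1 hpa.1, ha2]
    have hne : p₀ * a₀ ≠ 0 := Nat.mul_ne_zero hp₀.ne_zero (by omega)
    rw [← hcnt]
    unfold cnt
    refine le_trans ?_ (List.toFinset_card_le _)
    refine card_le_card_of_injOn (fun x => x.1) ?_ ?_
    · intro x hx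
      rw [mem_coe, mem_filter, mem_product] at hx
      rw [mem_coe, List.mem_toFinset, List.mem_filter, Nat.mem_primeFactorsList hne]
      exact ⟨⟨hT _ hx.1.1, ⟨x.2, hx.2.symm⟩⟩, by simpa using hx.1.1⟩
    · intro x hx y hy hxy
      rw [mem_coe, mem_filter, mem_product] at hx hy
      have hxy' : x.1 = y.1 := hxy
      have h3 : x.1 * x.2 = x.1 * y.2 := by rw [hx.2, hxy', hy.2]
      have h4 := Nat.eq_of_mul_eq_mul_left (hT _ hx.1.1).pos h3
      exact Prod.ext hxy' h4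
  have h3 : Pos (fun χ : DirichletCharacter ℂ q => ∑ b ∈ ms T A,
      (((((j + 1 : ℕ) : ℝ) - ((T ×ˢ A).filter (fun x => x.1 * x.2 = b)).card) * rs b : ℝ) : ℂ) *
        χ (b : ZMod q)) := by
    refine Pos.sum _ fun b hb => (Pos.eval _).smul (mul_nonneg (sub_nonneg.mpr ?_) (rs_nonneg b))
    exact_mod_cast h2 b hb
  refine h3.congr fun χ => ?_
  beta_reduce
  rw [h1 χ]
  unfold FS
  rw [mul_sum, ← sum_sub_distrib]
  refine sum_congr rfl fun b _ => ?_
  push_cast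
  ring

theorem mp_dom {T A : Finset ℕ} {X Y : ℕ} (hT : ∀ p ∈ T, p.Prime) (hTX : ∀ p ∈ T, p ≤ X)
    (hA : ∀ a ∈ A, 1 ≤ a ∧ a ≤ Y ∧ cnt T a = 0) (j : ℕ) :
    Dom (fun χ : DirichletCharacter ℂ q => FS T χ ^ j * FS A χ)
      (fun χ => ((j.factorial : ℝ) : ℂ) * FS (mp T A j) χ) := by
  induction j with
  | zero =>
    refine Pos.zero.congr fun χ => ?_
    simp [mp]
  | succ j ih =>
    have h0 := mp_prop hT hTX hA j
    have h1 := ih.mul_left (FS_pos (q := q) T)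
    have h2 := (ms_dom (q := q) hT j (fun a ha => ⟨(h0 a ha).1, (h0 a ha).2.2⟩)).smul
      (c := (j.factorial : ℝ)) (Nat.cast_nonneg _)
    have h3 : Dom (fun χ : DirichletCharacter ℂ q => FS T χ * (FS T χ ^ j * FS A χ))
        (fun χ => ((j.factorial : ℝ) : ℂ) * ((((j + 1 : ℕ) : ℝ) : ℂ) * FS (ms T (mp T A j)) χ)) := by
      refine h1.trans ?_
      refine Pos.congr h2 fun χ => ?_
      beta_reduce
      ring
    refine Pos.congr h3 fun χ => ?_
    beta_reduce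
    rw [Nat.factorial_succ, pow_succ', mp]
    push_cast
    ring

theorem blocks_dom {T : ℕ → Finset ℕ} {X : ℕ} (hT : ∀ i, ∀ p ∈ T i, p.Prime) (hTX : ∀ i, ∀ p ∈ T i, p ≤ X)
    (hd : ∀ i i', i ≠ i' → Disjoint (T i) (T i')) (j : ℕ → ℕ) (B : ℕ) :
    ∃ A : Finset ℕ, (∀ a ∈ A, 1 ≤ a ∧ a ≤ X ^ (∑ i ∈ range B, j i)) ∧ (∀ i, B ≤ i → ∀ a ∈ A, cnt (T i) a = 0) ∧
      Dom (fun χ : DirichletCharacter ℂ q => ∏ i ∈ range B, FS (T i) χ ^ j i)
        (fun χ => ((∏ i ∈ range B, (j i).factorial : ℝ) : ℂ) * FS A χ) := by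
  induction B with
  | zero =>
    refine ⟨{1}, ?_, ?_, ?_⟩
    · intro a ha
      rw [mem_singleton] at ha
      subst ha
      simp
    · intro i _ a ha
      rw [mem_singleton] at ha
      subst ha
      simp [cnt]
    · refine Pos.zero.congr fun χ => ?_
      simp [FS, rs]
  | succ B ih =>
    obtain ⟨A, hA1, hA2, hA3⟩ := ih
    have hA' : ∀ a ∈ A, 1 ≤ a ∧ a ≤ X ^ (∑ i ∈ range B, j i) ∧ cnt (T B) a = 0 :=
      fun a ha => ⟨(hA1 a ha).1, (hA1 a ha).2, hA2 B le_rfl a ha⟩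
    refine ⟨mp (T B) A (j B), ?_, ?_, ?_⟩
    · intro a ha
      obtain ⟨h1, h2, _⟩ := mp_prop (hT B) (hTX B) hA' (j B) a ha
      refine ⟨h1, h2.trans (le_of_eq ?_)⟩
      rw [sum_range_succ, pow_add, mul_comm]
    · intro i hi a ha
      exact (mp_other (hT B) (hd B i (by omega)) (fun a ha => ⟨(hA1 a ha).1, hA2 i (by omega) a ha⟩) (j B) a ha).2
    · have h1 := mp_dom (q := q) (hT B) (hTX B) hA' (j B)
      have h2 := hA3.mul_left ((FS_pos (q := q) (T B)).pow (j B))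
      have h3 := h1.smul (c := ∏ i ∈ range B, ((j i).factorial : ℝ)) (prod_nonneg fun i _ => Nat.cast_nonneg _)
      have h4 : Dom (fun χ : DirichletCharacter ℂ q => FS (T B) χ ^ j B * ∏ i ∈ range B, FS (T i) χ ^ j i)
          (fun χ => ((∏ i ∈ range B, (j i).factorial : ℝ) : ℂ) *
            ((((j B).factorial : ℝ) : ℂ) * FS (mp (T B) A (j B)) χ)) := by
        refine h2.trans ?_
        refine Pos.congr h3 fun χ => ?_
        beta_reduce
        ring
      refine Pos.congr h4 fun χ => ?_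
      beta_reduce
      rw [prod_range_succ, prod_range_succ]
      push_cast
      ring

theorem Dom.prod {ι : Type*} (s : Finset ι) {Φ Ψ : ι → DirichletCharacter ℂ q → ℂ} (h : ∀ i ∈ s, Dom (Φ i) (Ψ i))
    (hΦ : ∀ i ∈ s, Pos (Φ i)) (hΨ : ∀ i ∈ s, Pos (Ψ i)) :
    Dom (fun χ => ∏ i ∈ s, Φ i χ) (fun χ => ∏ i ∈ s, Ψ i χ) := by
  classical
  induction s using Finset.induction_on with
  | empty => exact Pos.zero.congr fun χ => by simp
  | insert a s ha ih =>
    have ih' := ih (fun i hi => h i (mem_insert_of_mem hi)) (fun i hi => hΦ i (mem_insert_of_mem hi))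
      (fun i hi => hΨ i (mem_insert_of_mem hi))
    have h1 : Pos (fun χ => (Ψ a χ - Φ a χ) * ∏ i ∈ s, Ψ i χ) :=
      Pos.mul (h a (mem_insert_self a s)) (Pos.prod s fun i hi => hΨ i (mem_insert_of_mem hi))
    have h2 : Pos (fun χ => Φ a χ * (∏ i ∈ s, Ψ i χ - ∏ i ∈ s, Φ i χ)) :=
      Pos.mul (hΦ a (mem_insert_self a s)) ih'
    refine (h1.add h2).congr fun χ => ?_
    beta_reduce
    rw [prod_insert ha, prod_insert ha]
    ring

/-- one block -/
theorem theta_pos (T : Finset ℕ) (m : ℕ) :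
    Pos (fun χ : DirichletCharacter ℂ q => ((‖FS T χ‖ ^ (2 * m) : ℝ) : ℂ)) :=
  (((FS_pos T).pow m).mul ((FS_pos T).pow m).star).congr fun χ => (pow_mul_star _ _).symm

theorem const_pos {c : ℝ} (hc : 0 ≤ c) : Pos (fun _ : DirichletCharacter ℂ q => (c : ℂ)) :=
  (Pos.one.smul hc).congr fun χ => (mul_one _).symm

theorem theta_dom {T : Finset ℕ} (hT : ∀ p ∈ T, 1 ≤ p ∧ p < q) (m : ℕ) {c : ℝ}
    (hc : c ≤ (m.factorial : ℝ) ^ 2 * es T (fun p => 1 / (p : ℝ)) m) :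
    Dom (fun _ : DirichletCharacter ℂ q => (c : ℂ)) (fun χ => ((‖FS T χ‖ ^ (2 * m) : ℝ) : ℂ)) := by
  have h1 := D_pow_ge (q := q) T m
  have hD : Pos (fun χ : DirichletCharacter ℂ q => FS T χ ^ m) := (FS_pos T).pow m
  have hE : Pos (fun χ : DirichletCharacter ℂ q => ((m.factorial : ℝ) : ℂ) * es T (tm χ) m) :=
    (es_pos T m).smul (Nat.cast_nonneg _)
  have h2 : Pos (fun χ : DirichletCharacter ℂ q => (FS T χ ^ m - ((m.factorial : ℝ) : ℂ) * es T (tm χ) m) *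
      star (FS T χ ^ m)) := Pos.mul h1 hD.star
  have h3 : Pos (fun χ : DirichletCharacter ℂ q => (((m.factorial : ℝ) : ℂ) * es T (tm χ) m) *
      star (FS T χ ^ m - ((m.factorial : ℝ) : ℂ) * es T (tm χ) m)) := Pos.mul hE (Pos.star h1)
  have h4 := (es_sq hT m).smul (c := (m.factorial : ℝ) ^ 2) (by positivity)
  have h5 := ((h2.add h3).add h4).add (const_pos (q := q) (sub_nonneg.mpr hc))
  refine h5.congr fun χ => ?_
  beta_reduce
  have h7 := pow_mul_star (FS T χ) m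
  rw [← h7, star_sub, star_mul']
  have h8 : star (((m.factorial : ℝ)) : ℂ) = (((m.factorial : ℝ)) : ℂ) := Complex.conj_ofReal _
  rw [h8]
  push_cast
  ring

/-- **The core inequality with several blocks.** -/
theorem core2 (H : Subgroup (DirichletCharacter ℂ q)) {T : ℕ → Finset ℕ} {X B : ℕ} (hT : ∀ i, ∀ p ∈ T i, p.Prime)
    (hTX : ∀ i, ∀ p ∈ T i, p ≤ X) (hXq : X < q) (hd : ∀ i i', i ≠ i' → Disjoint (T i) (T i'))
    {j m : ℕ → ℕ} (hjm : ∀ i, j i ≤ m i) (hJ : 4 * X ^ (∑ i ∈ range B, j i) ≤ q)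
    {w d : ℕ → ℝ} (hw0 : ∀ i, 0 < w i) (hwj : ∀ i, 3 * (j i : ℝ) ≤ w i)
    (hw : ∀ i ∈ range B, w i ^ (2 * m i) ≤ ((m i).factorial : ℝ) ^ 2 * es (T i) (fun p => 1 / (p : ℝ)) (m i))
    (hwd : ∀ i, w i ≤ d i) (hdT : ∀ i, ∀ χ : DirichletCharacter ℂ q, ‖FS (T i) χ‖ ≤ d i)
    (hsize : 8 * √q * ∏ i ∈ range B, d i ^ (2 * m i) ≤ (Nat.card H : ℝ) * ∏ i ∈ range B, w i ^ (2 * m i)) :
    ∃ χ ∈ H, χ ≠ 1 ∧ (∏ i ∈ range B, (3 : ℝ) ^ j i) / (16 * 2 ^ B) ≤
      ‖DirichletCharacter.LFunction χ (1 / 2)‖ := by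
  classical
  have hcard : (0 : ℝ) < Nat.card H := by exact_mod_cast Nat.card_pos
  have hq1 : (1 : ℝ) ≤ √q := by
    apply Real.one_le_sqrt.mpr
    exact_mod_cast hq.out.one_lt.le
  have hd0 : ∀ i, 0 < d i := fun i => lt_of_lt_of_le (hw0 i) (hwd i)
  by_contra hcon
  push Not at hcon
  obtain ⟨k, hk⟩ : ∃ k : ℕ → ℕ, ∀ i, m i = k i + j i := ⟨fun i => m i - j i, fun i => (Nat.sub_add_cancel (hjm i)).symm⟩
  obtain ⟨A, hA1, _, hA3⟩ := blocks_dom (q := q) hT hTX hd j B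
  set F : ℝ := ∏ i ∈ range B, ((j i).factorial : ℝ) with hF
  have hF0 : 0 < F := prod_pos fun i _ => by exact_mod_cast Nat.factorial_pos _
  set M : ℝ := ∑ ψ : H, ∏ i ∈ range B, ‖FS (T i) ψ.1‖ ^ (2 * m i) with hM
  -- positivity
  have hpos : M ≤ 2 * F * (∑ ψ : H, Lw ψ.1 * ((∏ i ∈ range B, FS (T i) ψ.1 ^ k i) *
      star (∏ i ∈ range B, FS (T i) ψ.1 ^ m i))).re := by
    have hD : Pos (fun χ : DirichletCharacter ℂ q => (∏ i ∈ range B, FS (T i) χ ^ k i) *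
        star (∏ i ∈ range B, FS (T i) χ ^ m i)) :=
      (Pos.prod _ fun i _ => (FS_pos (T i)).pow (k i)).mul (Pos.prod _ fun i _ => (FS_pos (T i)).pow (m i)).star
    have h1 : Dom (fun χ : DirichletCharacter ℂ q => (((1 / 2 : ℝ)) : ℂ) * FS A χ) (fun χ => Lw χ) :=
      Lw_ge fun a ha => ⟨(hA1 a ha).1, (Nat.mul_le_mul_left 4 (hA1 a ha).2).trans hJ⟩
    have hj0 : (0 : ℝ) ≤ 2 * F := by positivity
    have h3 := (Pos.smul (h1.mul_left hD) hj0).add (hA3.mul_left hD)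
    have h4 := h3.sum_nonneg H
    have h5 : ∀ χ : DirichletCharacter ℂ q,
        ((2 * F : ℝ) : ℂ) * ((∏ i ∈ range B, FS (T i) χ ^ k i) * star (∏ i ∈ range B, FS (T i) χ ^ m i) * Lw χ -
          (∏ i ∈ range B, FS (T i) χ ^ k i) * star (∏ i ∈ range B, FS (T i) χ ^ m i) *
            ((((1 / 2 : ℝ)) : ℂ) * FS A χ)) +
        ((∏ i ∈ range B, FS (T i) χ ^ k i) * star (∏ i ∈ range B, FS (T i) χ ^ m i) *
            (((F : ℝ) : ℂ) * FS A χ) -
          (∏ i ∈ range B, FS (T i) χ ^ k i) * star (∏ i ∈ range B, FS (T i) χ ^ m i) *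
            ∏ i ∈ range B, FS (T i) χ ^ j i) =
        ((2 * F : ℝ) : ℂ) * (Lw χ * ((∏ i ∈ range B, FS (T i) χ ^ k i) *
          star (∏ i ∈ range B, FS (T i) χ ^ m i))) -
          ((∏ i ∈ range B, ‖FS (T i) χ‖ ^ (2 * m i) : ℝ) : ℂ) := by
      intro χ
      have h6 : ((∏ i ∈ range B, ‖FS (T i) χ‖ ^ (2 * m i) : ℝ) : ℂ) =
          (∏ i ∈ range B, FS (T i) χ ^ k i) * star (∏ i ∈ range B, FS (T i) χ ^ m i) *
            ∏ i ∈ range B, FS (T i) χ ^ j i := by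
        rw [Complex.ofReal_prod, star_prod, ← prod_mul_distrib, ← prod_mul_distrib]
        refine prod_congr rfl fun i _ => ?_
        rw [← pow_mul_star, hk i, pow_add]
        ring
      rw [h6]
      push_cast
      ring
    rw [sum_congr rfl fun ψ _ => h5 ψ.1, sum_sub_distrib, ← mul_sum, ← Complex.ofReal_sum, Complex.sub_re,
      Complex.ofReal_re, Complex.re_ofReal_mul] at h4
    linarith
  -- the moments
  have hth : ∀ i ∈ range B, Dom (fun _ : DirichletCharacter ℂ q => ((w i ^ (2 * m i) : ℝ) : ℂ))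
      (fun χ => ((‖FS (T i) χ‖ ^ (2 * m i) : ℝ) : ℂ)) := fun i hi =>
    theta_dom (fun p hp => ⟨(hT i p hp).one_lt.le, lt_of_le_of_lt (hTX i p hp) hXq⟩) (m i) (hw i hi)
  have hcp : ∀ i, 0 ≤ w i ^ (2 * m i) := fun i => by have := hw0 i; positivity
  have hM1 : (Nat.card H : ℝ) * ∏ i ∈ range B, w i ^ (2 * m i) ≤ M := by
    have h1 := Dom.prod (q := q) (range B) hth (fun i _ => const_pos (hcp i)) (fun i _ => theta_pos (T i) (m i))
    have h2 := Pos.sum_nonneg h1 H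
    have h3 : ∀ χ : DirichletCharacter ℂ q, (∏ i ∈ range B, ((‖FS (T i) χ‖ ^ (2 * m i) : ℝ) : ℂ) -
        ∏ i ∈ range B, ((w i ^ (2 * m i) : ℝ) : ℂ)) =
        ((∏ i ∈ range B, ‖FS (T i) χ‖ ^ (2 * m i) - ∏ i ∈ range B, w i ^ (2 * m i) : ℝ) : ℂ) := by
      intro χ
      push_cast
      rfl
    rw [sum_congr rfl fun ψ _ => h3 ψ.1, ← Complex.ofReal_sum, Complex.ofReal_re, sum_sub_distrib, sum_const,
      card_univ, nsmul_eq_mul, ← Nat.card_eq_fintype_card] at h2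
    linarith
  have hM2 : (∏ i ∈ range B, w i ^ j i) * ∑ ψ : H, ∏ i ∈ range B, ‖FS (T i) ψ.1‖ ^ (2 * k i + j i) ≤ 2 ^ B * M := by
    have h0 : ∀ i ∈ range B, Dom (fun χ : DirichletCharacter ℂ q =>
        ((‖FS (T i) χ‖ ^ (2 * m i) + w i ^ (2 * m i) : ℝ) : ℂ))
        (fun χ => ((2 * ‖FS (T i) χ‖ ^ (2 * m i) : ℝ) : ℂ)) := by
      intro i hi
      refine Pos.congr (hth i hi) fun χ => ?_
      push_cast
      ring
    have h1 := Dom.prod (q := q) (range B) h0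
      (fun i _ => (Pos.add (theta_pos (T i) (m i)) (const_pos (hcp i))).congr fun χ => by push_cast; ring)
      (fun i _ => ((theta_pos (T i) (m i)).smul (c := 2) (by norm_num)).congr fun χ => by push_cast; ring)
    have h2 := Pos.sum_nonneg h1 H
    have h3 : ∀ χ : DirichletCharacter ℂ q, (∏ i ∈ range B, ((2 * ‖FS (T i) χ‖ ^ (2 * m i) : ℝ) : ℂ) -
        ∏ i ∈ range B, ((‖FS (T i) χ‖ ^ (2 * m i) + w i ^ (2 * m i) : ℝ) : ℂ)) =
        ((2 ^ B * ∏ i ∈ range B, ‖FS (T i) χ‖ ^ (2 * m i) -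
          ∏ i ∈ range B, (‖FS (T i) χ‖ ^ (2 * m i) + w i ^ (2 * m i)) : ℝ) : ℂ) := by
      intro χ
      rw [Complex.ofReal_sub, Complex.ofReal_mul, Complex.ofReal_prod, Complex.ofReal_prod]
      congr 1
      have : ∀ i ∈ range B, ((2 * ‖FS (T i) χ‖ ^ (2 * m i) : ℝ) : ℂ) =
          2 * ((‖FS (T i) χ‖ ^ (2 * m i) : ℝ) : ℂ) := fun i _ => by push_cast; ring
      rw [prod_congr rfl this, prod_mul_distrib, prod_const, card_range]
      push_cast
      rfl
    rw [sum_congr rfl fun ψ _ => h3 ψ.1, ← Complex.ofReal_sum, Complex.ofReal_re, sum_sub_distrib, ← mul_sum] at h2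
    have h4 : (∏ i ∈ range B, w i ^ j i) * ∑ ψ : H, ∏ i ∈ range B, ‖FS (T i) ψ.1‖ ^ (2 * k i + j i) ≤
        ∑ ψ : H, ∏ i ∈ range B, (‖FS (T i) ψ.1‖ ^ (2 * m i) + w i ^ (2 * m i)) := by
      rw [mul_sum]
      refine sum_le_sum fun ψ _ => ?_
      rw [← prod_mul_distrib]
      refine prod_le_prod (fun i _ => ?_) (fun i _ => ?_)
      · have := hw0 i
        positivity
      · rw [hk i]
        exact pw2 (norm_nonneg _) (hw0 i).le (k i) (j i)
    linarith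
  -- the upper bound
  set V : ℝ := (∏ i ∈ range B, (3 : ℝ) ^ j i) / (16 * 2 ^ B) with hV
  have hV0 : 0 < V := by
    rw [hV]
    have : 0 < ∏ i ∈ range B, (3 : ℝ) ^ j i := prod_pos fun i _ => by positivity
    positivity
  have hP0 : 0 < ∏ i ∈ range B, d i ^ (2 * k i + j i) := prod_pos fun i _ => by have := hd0 i; positivity
  have hup : (∑ ψ : H, Lw ψ.1 * ((∏ i ∈ range B, FS (T i) ψ.1 ^ k i) *
      star (∏ i ∈ range B, FS (T i) ψ.1 ^ m i))).re ≤
      2 * √q * (∏ i ∈ range B, d i ^ (2 * k i + j i)) +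
        V * ∑ ψ : H, ∏ i ∈ range B, ‖FS (T i) ψ.1‖ ^ (2 * k i + j i) := by
    refine (Complex.re_le_norm _).trans ?_
    have h1 : ‖∑ ψ : H, Lw ψ.1 * ((∏ i ∈ range B, FS (T i) ψ.1 ^ k i) *
        star (∏ i ∈ range B, FS (T i) ψ.1 ^ m i))‖ ≤
        ∑ ψ : H, ((if ψ.1 = 1 then 2 * √q * (∏ i ∈ range B, d i ^ (2 * k i + j i)) else 0) +
          V * ∏ i ∈ range B, ‖FS (T i) ψ.1‖ ^ (2 * k i + j i)) := by
      refine (norm_sum_le _ _).trans (sum_le_sum fun ψ _ => ?_)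
      have h2 : ‖(∏ i ∈ range B, FS (T i) ψ.1 ^ k i) * star (∏ i ∈ range B, FS (T i) ψ.1 ^ m i)‖ =
          ∏ i ∈ range B, ‖FS (T i) ψ.1‖ ^ (2 * k i + j i) := by
        rw [norm_mul, norm_star, norm_prod, norm_prod, ← prod_mul_distrib]
        refine prod_congr rfl fun i _ => ?_
        rw [norm_pow, norm_pow, hk i, ← pow_add]
        congr 1
        omega
      rw [norm_mul, h2]
      have hF' : ∏ i ∈ range B, ‖FS (T i) ψ.1‖ ^ (2 * k i + j i) ≤ ∏ i ∈ range B, d i ^ (2 * k i + j i) :=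
        prod_le_prod (fun i _ => by positivity) fun i _ => pow_le_pow_left₀ (norm_nonneg _) (hdT i ψ.1) _
      have hF'' : 0 ≤ ∏ i ∈ range B, ‖FS (T i) ψ.1‖ ^ (2 * k i + j i) := prod_nonneg fun i _ => by positivity
      split_ifs with h
      · have h2 := norm_Lw_le' ψ.1
        have h3 := mul_le_mul h2 hF' hF'' (by positivity)
        have h4 := mul_nonneg hV0.le hF''
        linarith
      · rw [zero_add]
        refine mul_le_mul_of_nonneg_right ?_ hF''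
        have h8 := (hcon ψ.1 ψ.2 h).le
        rwa [LFunction_half _ h] at h8
    refine h1.trans ?_
    rw [sum_add_distrib, ← mul_sum]
    refine add_le_add ?_ le_rfl
    rw [← sum_filter, sum_const, nsmul_eq_mul]
    have h12 : ((univ : Finset H).filter fun ψ => ψ.1 = 1).card ≤ 1 := by
      rw [card_le_one]
      intro a ha b hb
      rw [mem_filter] at ha hb
      apply Subtype.ext
      exact ha.2.trans hb.2.symm
    have h13 : (((univ : Finset H).filter fun ψ => ψ.1 = 1).card : ℝ) ≤ 1 := by exact_mod_cast h12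
    exact mul_le_of_le_one_left (by positivity) h13
  -- the conclusion
  have hfi : ∀ i, (3 : ℝ) ^ j i * (j i).factorial ≤ w i ^ j i := by
    intro i
    calc (3 : ℝ) ^ j i * (j i).factorial ≤ 3 ^ j i * (j i : ℝ) ^ j i := by
          gcongr
          exact_mod_cast Nat.factorial_le_pow (j i)
      _ = (3 * (j i : ℝ)) ^ j i := by rw [mul_pow]
      _ ≤ w i ^ j i := pow_le_pow_left₀ (by positivity) (hwj i) _
  have hfac : (∏ i ∈ range B, (3 : ℝ) ^ j i) * F ≤ ∏ i ∈ range B, w i ^ j i := by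
    rw [hF, ← prod_mul_distrib]
    exact prod_le_prod (fun i _ => by positivity) fun i _ => hfi i
  have hM0 : 0 < M := by
    refine lt_of_lt_of_le ?_ hM1
    refine mul_pos hcard (prod_pos fun i _ => by have := hw0 i; positivity)
  -- first part
  have e1 : 2 * F * (2 * √q * (∏ i ∈ range B, d i ^ (2 * k i + j i))) ≤ M / 2 := by
    have h1 : F * ∏ i ∈ range B, d i ^ (2 * k i + j i) ≤ ∏ i ∈ range B, d i ^ (2 * m i) := by
      rw [hF, ← prod_mul_distrib]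
      refine prod_le_prod (fun i _ => by have := hd0 i; positivity) fun i _ => ?_
      have h2 : ((j i).factorial : ℝ) ≤ d i ^ j i := by
        have h3 := hfi i
        have h4 : (1 : ℝ) ≤ 3 ^ j i := one_le_pow₀ (by norm_num)
        have h5 : (0 : ℝ) ≤ (j i).factorial := Nat.cast_nonneg _
        have h6 : w i ^ j i ≤ d i ^ j i := pow_le_pow_left₀ (hw0 i).le (hwd i) _
        nlinarith
      have h7 : d i ^ (2 * m i) = d i ^ j i * d i ^ (2 * k i + j i) := by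
        rw [← pow_add, hk i]
        congr 1
        omega
      rw [h7]
      have := hd0 i
      exact mul_le_mul_of_nonneg_right h2 (by positivity)
    have h2 : 8 * √q * (F * ∏ i ∈ range B, d i ^ (2 * k i + j i)) ≤ 8 * √q * ∏ i ∈ range B, d i ^ (2 * m i) :=
      mul_le_mul_of_nonneg_left h1 (by positivity)
    linarith
  have e2 : 2 * F * (V * ∑ ψ : H, ∏ i ∈ range B, ‖FS (T i) ψ.1‖ ^ (2 * k i + j i)) ≤ M / 4 := by
    set S := ∑ ψ : H, ∏ i ∈ range B, ‖FS (T i) ψ.1‖ ^ (2 * k i + j i) with hS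
    have hS0 : 0 ≤ S := sum_nonneg fun ψ _ => prod_nonneg fun i _ => by positivity
    have h1 := mul_le_mul_of_nonneg_right hfac hS0
    have h2 : 2 * F * (V * S) = (∏ i ∈ range B, (3 : ℝ) ^ j i) * F * S / (8 * 2 ^ B) := by
      rw [hV]
      field_simp
      ring
    rw [h2, div_le_iff₀ (by positivity)]
    have h3 : (0 : ℝ) < 2 ^ B := by positivity
    nlinarith
  have e3 : M ≤ 2 * F * (2 * √q * (∏ i ∈ range B, d i ^ (2 * k i + j i)) +
      V * ∑ ψ : H, ∏ i ∈ range B, ‖FS (T i) ψ.1‖ ^ (2 * k i + j i)) :=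
    hpos.trans (mul_le_mul_of_nonneg_left hup (by positivity))
  rw [mul_add] at e3
  linarith

end

end Pool.Agent.X24.Coset
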