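import Pool.Agent.X24.Coset.K

/-!
One block; the wrapper.
-/

set_option autoImplicit false

open Finset Filter

namespace Pool.Agent.X24.Coset

section
variable {q : ℕ} [hq : Fact q.Prime]

theorem core3 (H : Subgroup (DirichletCharacter ℂ q)) {T : ℕ → Finset ℕ} {X B : ℕ}
    (hT : ∀ i < B, ∀ p ∈ T i, p.Prime) (hTX : ∀ i < B, ∀ p ∈ T i, p ≤ X) (hXq : X < q)
    (hd : ∀ i < B, ∀ i' < B, i ≠ i' → Disjoint (T i) (T i'))
    {j m : ℕ → ℕ} (hjm : ∀ i < B, j i ≤ m i) (hJ : 4 * X ^ (∑ i ∈ range B, j i) ≤ q)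
    {w d : ℕ → ℝ} (hw0 : ∀ i < B, 0 < w i) (hwj : ∀ i < B, 3 * (j i : ℝ) ≤ w i)
    (hw : ∀ i < B, w i ^ (2 * m i) ≤ ((m i).factorial : ℝ) ^ 2 * es (T i) (fun p => 1 / (p : ℝ)) (m i))
    (hwd : ∀ i < B, w i ≤ d i) (hdT : ∀ i < B, ∀ χ : DirichletCharacter ℂ q, ‖FS (T i) χ‖ ≤ d i)
    (hsize : 8 * √q * ∏ i ∈ range B, d i ^ (2 * m i) ≤ (Nat.card H : ℝ) * ∏ i ∈ range B, w i ^ (2 * m i)) :
    ∃ χ ∈ H, χ ≠ 1 ∧ (∏ i ∈ range B, (3 : ℝ) ^ j i) / (16 * 2 ^ B) ≤
      ‖DirichletCharacter.LFunction χ (1 / 2)‖ := by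
  have e1 : ∏ i ∈ range B, (3 : ℝ) ^ j i = ∏ i ∈ range B, (3 : ℝ) ^ (if i < B then j i else 0) :=
    prod_congr rfl fun i hi => by rw [if_pos (mem_range.mp hi)]
  have e2 : ∏ i ∈ range B, d i ^ (2 * m i) =
      ∏ i ∈ range B, (if i < B then d i else 1) ^ (2 * (if i < B then m i else 0)) :=
    prod_congr rfl fun i hi => by rw [if_pos (mem_range.mp hi), if_pos (mem_range.mp hi)]
  have e3 : ∏ i ∈ range B, w i ^ (2 * m i) =
      ∏ i ∈ range B, (if i < B then w i else 1) ^ (2 * (if i < B then m i else 0)) :=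
    prod_congr rfl fun i hi => by rw [if_pos (mem_range.mp hi), if_pos (mem_range.mp hi)]
  have e4 : ∑ i ∈ range B, j i = ∑ i ∈ range B, (if i < B then j i else 0) :=
    sum_congr rfl fun i hi => by rw [if_pos (mem_range.mp hi)]
  rw [e2, e3] at hsize
  rw [e4] at hJ
  rw [e1]
  refine core2 H (T := fun i => if i < B then T i else ∅) (X := X) ?_ ?_ hXq ?_
    (j := fun i => if i < B then j i else 0) (m := fun i => if i < B then m i else 0) ?_ hJ
    (w := fun i => if i < B then w i else 1) (d := fun i => if i < B then d i else 1) ?_ ?_ ?_ ?_ ?_ hsize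
  · intro i p hp
    by_cases h : i < B
    · simp only [if_pos h] at hp
      exact hT i h p hp
    · simp [if_neg h] at hp
  · intro i p hp
    by_cases h : i < B
    · simp only [if_pos h] at hp
      exact hTX i h p hp
    · simp [if_neg h] at hp
  · intro i i' hne
    by_cases h : i < B
    · by_cases h' : i' < B
      · simp only [if_pos h, if_pos h']
        exact hd i h i' h' hne
      · simp [if_neg h']
    · simp [if_neg h]
  · intro i
    by_cases h : i < B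
    · simp only [if_pos h]
      exact hjm i h
    · simp [if_neg h]
  · intro i
    by_cases h : i < B
    · simp only [if_pos h]
      exact hw0 i h
    · simp [if_neg h]
  · intro i
    by_cases h : i < B
    · simp only [if_pos h]
      exact hwj i h
    · simp [if_neg h]
  · intro i hi
    simp only [if_pos (mem_range.mp hi)]
    exact hw i (mem_range.mp hi)
  · intro i
    by_cases h : i < B
    · simp only [if_pos h]
      exact hwd i h
    · simp [if_neg h]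
  · intro i χ
    by_cases h : i < B
    · simp only [if_pos h]
      exact hdT i h χ
    · simp [if_neg h, FS]

theorem FS_block {T : Finset ℕ} {s : ℕ} (hT : T ⊆ P s) (χ : DirichletCharacter ℂ q) :
    ‖FS T χ‖ ≤ (T.card : ℝ) / 2 ^ s := by
  unfold FS
  refine (norm_sum_le _ _).trans ?_
  calc ∑ a ∈ T, ‖(rs a : ℂ) * χ (a : ZMod q)‖ ≤ ∑ _a ∈ T, (1 / 2 ^ s : ℝ) := by
        refine sum_le_sum fun a ha => ?_
        have ha' := hT ha
        unfold P at ha'
        rw [mem_filter, mem_Ioc] at ha'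
        rw [norm_mul, Complex.norm_real, Real.norm_of_nonneg (rs_nonneg a)]
        have h1 := norm_char_le χ (a : ZMod q)
        have h2 : rs a ≤ 1 / 2 ^ s := by
          unfold rs
          rw [Real.rpow_neg (Nat.cast_nonneg _), ← Real.sqrt_eq_rpow, ← one_div]
          apply one_div_le_one_div_of_le (by positivity)
          apply Real.le_sqrt_of_sq_le
          have h3 : (4 : ℝ) ^ s ≤ a := by exact_mod_cast ha'.1.1.le
          calc ((2 : ℝ) ^ s) ^ 2 = 4 ^ s := by rw [← pow_mul, mul_comm, pow_mul]; norm_num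
            _ ≤ a := h3
        calc rs a * ‖χ (a : ZMod q)‖ ≤ 1 / 2 ^ s * 1 := mul_le_mul h2 h1 (norm_nonneg _) (by positivity)
          _ = _ := mul_one _
    _ = _ := by rw [sum_const, nsmul_eq_mul, mul_one_div]

end

/-- the value for one block -/
noncomputable def ww (m n s : ℕ) : ℝ := √((m : ℝ) * n / (24 * 4 ^ s))

theorem ww_sq (m n s : ℕ) : ww m n s ^ 2 = (m : ℝ) * n / (24 * 4 ^ s) := Real.sq_sqrt (by positivity)

theorem ww_pos {m n s : ℕ} (hm : 1 ≤ m) (hn : 1 ≤ n) : 0 < ww m n s := by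
  unfold ww
  apply Real.sqrt_pos.mpr
  have : (1 : ℝ) ≤ m := by exact_mod_cast hm
  have : (1 : ℝ) ≤ n := by exact_mod_cast hn
  positivity

theorem ww_es {T : Finset ℕ} {s m : ℕ} (hT : T ⊆ P s) (hm : 8 * m ≤ T.card) :
    ww m T.card s ^ (2 * m) ≤ (m.factorial : ℝ) ^ 2 * es T (fun p => 1 / (p : ℝ)) m := by
  have h0 : ∀ p ∈ T, (4 : ℝ) ^ s ≤ p ∧ (p : ℝ) ≤ 4 ^ (s + 1) := by
    intro p hp
    have hp' := hT hp
    unfold P at hp'
    rw [mem_filter, mem_Ioc] at hp'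
    exact ⟨by exact_mod_cast hp'.1.1.le, by exact_mod_cast hp'.1.2⟩
  have hm' : 8 * (m : ℝ) ≤ T.card := by exact_mod_cast hm
  have h1 : ((T.card : ℝ) / (8 * 4 ^ s)) ^ m ≤ (m.factorial : ℝ) * es T (fun p => 1 / (p : ℝ)) m := by
    refine es_ge (η := 1 / 4 ^ s) (K := m) (fun p _ => by positivity) (fun p hp => ?_) (by positivity) ?_
      (by positivity) m le_rfl
    · exact one_div_le_one_div_of_le (by positivity) (h0 p hp).1
    · have h2 : (T.card : ℝ) * (1 / 4 ^ (s + 1)) ≤ ∑ p ∈ T, 1 / (p : ℝ) := by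
        rw [← nsmul_eq_mul, ← sum_const]
        refine sum_le_sum fun p hp => ?_
        have h3 : (0 : ℝ) < p := lt_of_lt_of_le (by positivity) (h0 p hp).1
        exact one_div_le_one_div_of_le h3 (h0 p hp).2
      refine le_trans ?_ h2
      rw [pow_succ]
      have h3 : (m : ℝ) * (1 / 4 ^ s) ≤ (T.card : ℝ) / 8 * (1 / 4 ^ s) :=
        mul_le_mul_of_nonneg_right (by linarith) (by positivity)
      have h4 : (T.card : ℝ) / 8 * (1 / 4 ^ s) + (T.card : ℝ) / (8 * 4 ^ s) = (T.card : ℝ) * (1 / (4 ^ s * 4)) := by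
        field_simp
        ring
      linarith
  have h3 := fac_ge m
  calc ww m T.card s ^ (2 * m) = ((m : ℝ) / 3) ^ m * ((T.card : ℝ) / (8 * 4 ^ s)) ^ m := by
        rw [pow_mul, ww_sq, ← mul_pow]
        congr 1
        field_simp
        ring
    _ ≤ m.factorial * (m.factorial * es T (fun p => 1 / (p : ℝ)) m) :=
        mul_le_mul h3 h1 (by positivity) (by positivity)
    _ = _ := by ring

theorem ww_le {m n s : ℕ} (hm : m ≤ n) : ww m n s ≤ (n : ℝ) / 2 ^ s := by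
  unfold ww
  apply Real.sqrt_le_iff.mpr
  refine ⟨by positivity, ?_⟩
  have h1 : (m : ℝ) ≤ n := by exact_mod_cast hm
  have h2 : ((2 : ℝ) ^ s) ^ 2 = 4 ^ s := by rw [← pow_mul, mul_comm, pow_mul]; norm_num
  rw [div_pow, h2, div_le_div_iff₀ (by positivity) (by positivity)]
  have h3 : (m : ℝ) * n ≤ n * n := mul_le_mul_of_nonneg_right h1 (Nat.cast_nonneg _)
  have h4 : (0 : ℝ) < 4 ^ s := by positivity
  have h5 : (0 : ℝ) ≤ (n : ℝ) * n := by positivity
  nlinarith [mul_le_mul_of_nonneg_right h3 h4.le]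

theorem d_pow {m n s : ℕ} (hm : 1 ≤ m) {lam M : ℝ} (hM : (m : ℝ) ≤ M) (hlam : 0 ≤ lam)
    (h : 24 * (n : ℝ) ≤ m * Real.exp lam) :
    ((n : ℝ) / 2 ^ s) ^ (2 * m) ≤ Real.exp (M * lam) * ww m n s ^ (2 * m) := by
  have hm0 : (0 : ℝ) < m := by exact_mod_cast hm
  have h2 : ((2 : ℝ) ^ s) ^ 2 = 4 ^ s := by rw [← pow_mul, mul_comm, pow_mul]; norm_num
  rw [pow_mul, div_pow, h2, pow_mul (ww m n s), ww_sq]
  have h3 : (n : ℝ) ^ 2 / 4 ^ s ≤ Real.exp lam * ((m : ℝ) * n / (24 * 4 ^ s)) := by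
    rw [mul_div_assoc', div_le_div_iff₀ (by positivity) (by positivity)]
    have h4 : (0 : ℝ) < 4 ^ s := by positivity
    have h5 : (0 : ℝ) ≤ n := Nat.cast_nonneg _
    have h6 := mul_le_mul_of_nonneg_right h (mul_nonneg h5 h4.le)
    nlinarith
  calc ((n : ℝ) ^ 2 / 4 ^ s) ^ m ≤ (Real.exp lam * ((m : ℝ) * n / (24 * 4 ^ s))) ^ m :=
        pow_le_pow_left₀ (by positivity) h3 m
    _ = Real.exp (m * lam) * ((m : ℝ) * n / (24 * 4 ^ s)) ^ m := by rw [mul_pow, Real.exp_nat_mul]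
    _ ≤ _ := by
        refine mul_le_mul_of_nonneg_right ?_ (by positivity)
        exact Real.exp_le_exp.mpr (mul_le_mul_of_nonneg_right hM hlam)

/-- the size of one block -/
def nn (s : ℕ) : ℕ := 4 ^ s / (2 * (s + 1))

theorem nn_le (s : ℕ) : (nn s : ℝ) * (2 * (s + 1)) ≤ 4 ^ s := by
  have h := Nat.div_mul_le_self (4 ^ s) (2 * (s + 1))
  have h1 : nn s * (2 * (s + 1)) ≤ 4 ^ s := h
  exact_mod_cast h1

theorem four_pow_ge {s : ℕ} (hs : 8 ≤ s) : 2 * (s + 1) ≤ 4 ^ s := by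
  induction s, hs using Nat.le_induction with
  | base => norm_num
  | succ s hs ih =>
    rw [pow_succ]
    omega

theorem one_le_nn {s : ℕ} (hs : 8 ≤ s) : 1 ≤ nn s := by
  unfold nn
  rw [Nat.one_le_div_iff (by omega)]
  exact four_pow_ge hs

theorem nn_ge {s : ℕ} (hs : 8 ≤ s) : (4 : ℝ) ^ s ≤ nn s * (4 * (s + 1)) := by
  have h1 : 4 ^ s < (2 * (s + 1)) * (nn s + 1) := Nat.lt_mul_div_succ _ (by omega)
  have h2 := one_le_nn hs
  have h3 : 4 ^ s ≤ nn s * (4 * (s + 1)) := by nlinarith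
  exact_mod_cast h3

theorem nn_le_card {s : ℕ} (hs : 8 ≤ s) : nn s ≤ (P s).card := by
  have h := card_block s hs
  unfold nn
  rw [Nat.div_le_iff_le_mul_add_pred (by omega)]
  omega

theorem exists_T (t : ℕ) (ht : 8 ≤ t) : ∃ T : ℕ → Finset ℕ, ∀ i, T i ⊆ P (t + i) ∧ (T i).card = nn (t + i) := by
  have h : ∀ i, ∃ T : Finset ℕ, T ⊆ P (t + i) ∧ T.card = nn (t + i) := fun i =>
    exists_subset_card_eq (nn_le_card (by omega))
  choose T hT using h
  exact ⟨T, hT⟩

theorem sum_inv_sq (t : ℕ) : ∑ i ∈ range t, 1 / ((i : ℝ) + 1) ^ 2 ≤ 2 := by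
  have h : ∀ t : ℕ, 1 ≤ t → ∑ i ∈ range t, 1 / ((i : ℝ) + 1) ^ 2 ≤ 2 - 1 / (t : ℝ) := by
    intro t ht
    induction t, ht using Nat.le_induction with
    | base => norm_num
    | succ t ht ih =>
      rw [sum_range_succ]
      have h0 : (0 : ℝ) < t := by exact_mod_cast ht
      have h1 : 1 / ((t : ℝ) + 1) ^ 2 ≤ 1 / (t : ℝ) - 1 / ((t : ℝ) + 1) := by
        rw [div_sub_div _ _ h0.ne' (by positivity), div_le_div_iff₀ (by positivity) (by positivity)]
        nlinarith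
      push_cast
      linarith
  rcases Nat.eq_zero_or_pos t with h0 | h0
  · rw [h0]
    norm_num
  · have h1 := h t h0
    have h2 : (0 : ℝ) ≤ 1 / (t : ℝ) := by positivity
    linarith

theorem sum_inv_le (t : ℕ) : ∑ i ∈ range t, 1 / ((i : ℝ) + 1) ≤ 1 + Real.log t := by
  have h := harmonic_le_one_add_log t
  have h2 : ((harmonic t : ℚ) : ℝ) = ∑ i ∈ range t, 1 / ((i : ℝ) + 1) := by
    unfold harmonic
    push_cast
    refine sum_congr rfl fun i _ => ?_
    rw [one_div]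
  rwa [h2] at h

theorem sum_inv_ge (t : ℕ) : Real.log ((t : ℝ) + 1) ≤ ∑ i ∈ range t, 1 / ((i : ℝ) + 1) := by
  have h := log_add_one_le_harmonic t
  have h2 : ((harmonic t : ℚ) : ℝ) = ∑ i ∈ range t, 1 / ((i : ℝ) + 1) := by
    unfold harmonic
    push_cast
    refine sum_congr rfl fun i _ => ?_
    rw [one_div]
  rw [h2] at h
  push_cast at h
  exact h

end Pool.Agent.X24.Coset
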