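import Pool.Agent.X24.Coset.L

/-!
The choice of the parameters with several blocks.
-/

set_option autoImplicit false

open Finset Filter

namespace Pool.Agent.X24.Coset

/-- the number of the blocks -/
theorem exists_t {L u v : ℝ} (hL : 0 < L) (hu : u = Real.log L) (hv : v = Real.log u) (h8 : 8 ≤ u) (hv1 : 1 ≤ v)
    (h8v : 8 * v ≤ u) :
    ∃ t : ℕ, 8 ≤ t ∧ (t : ℝ) ≤ u ∧ 2 * u ≤ 3 * t ∧ L * u ≤ 4 ^ t ∧ (4 : ℝ) ^ t ≤ 4 * (L * u) := by
  have hu0 : 0 < u := by linarith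
  have hLu : 0 < L * u := by positivity
  have hlog : Real.log (L * u) = u + v := by rw [Real.log_mul hL.ne' hu0.ne', ← hu, ← hv]
  have hlog4 : Real.log 4 ≤ 1.387 := by
    rw [show (4 : ℝ) = 2 ^ 2 by norm_num, Real.log_pow]
    have := Real.log_two_lt_d9
    push_cast
    linarith
  have hlog4' : 1.386 ≤ Real.log 4 := by
    rw [show (4 : ℝ) = 2 ^ 2 by norm_num, Real.log_pow]
    have := Real.log_two_gt_d9
    push_cast
    linarith
  have hl0 : 0 < Real.log 4 := by linarith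
  set y := (u + v) / Real.log 4 with hy
  have hy0 : 0 ≤ y := by positivity
  have hymul : y * Real.log 4 = u + v := by rw [hy]; field_simp
  have ht1 : y ≤ (⌈y⌉₊ : ℝ) := Nat.le_ceil _
  have ht2 : (⌈y⌉₊ : ℝ) < y + 1 := Nat.ceil_lt_add_one hy0
  have hyu : y + 1 ≤ u := by nlinarith
  have hyu2 : 2 * u ≤ 3 * y := by nlinarith
  refine ⟨⌈y⌉₊, ?_, by linarith, by linarith, ?_, ?_⟩
  · by_contra hcon
    push Not at hcon
    have h1 : (⌈y⌉₊ : ℝ) ≤ 7 := by exact_mod_cast (by omega : ⌈y⌉₊ ≤ 7)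
    have h2 : 9 * Real.log 2 ≤ Real.log u + 8 := by
      have := Real.log_two_lt_d9
      linarith
    -- u ≤ 10.5, v ≤ u / 8, and v = log u ≥ log 8
    have h3 : Real.log 8 ≤ v := by
      rw [hv]
      exact Real.log_le_log (by norm_num) h8
    have h4 : Real.log 8 = 3 * Real.log 2 := by
      rw [show (8 : ℝ) = 2 ^ 3 by norm_num, Real.log_pow]
      push_cast
      ring
    have h5 := Real.log_two_gt_d9
    nlinarith
  · rw [← Real.log_le_log_iff hLu (by positivity), hlog, Real.log_pow, ← hymul]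
    exact mul_le_mul_of_nonneg_right ht1 hl0.le
  · rw [← Real.log_le_log_iff (by positivity) (by positivity), Real.log_mul (by norm_num) hLu.ne', hlog, Real.log_pow,
      ← hymul]
    nlinarith

theorem four_pow_split (t i : ℕ) : (4 : ℝ) ^ (t + i) = 4 ^ t * 4 ^ i := pow_add _ _ _

theorem nat_lt_four_pow (i : ℕ) : (i : ℝ) + 1 ≤ 4 ^ i := by
  have h : i + 1 ≤ 4 ^ i := Nat.lt_pow_self (by norm_num)
  exact_mod_cast h

/-- upper bound for the block -/
theorem nn_up {L u : ℝ} {t : ℕ} (hL : 0 < L) (hu : 0 < u) (ht : 8 ≤ t) (hut : 2 * u ≤ 3 * t)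
    (h4 : (4 : ℝ) ^ t ≤ 4 * (L * u)) (i : ℕ) : (nn (t + i) : ℝ) ≤ 3 * L * 4 ^ i := by
  have h1 := nn_le (t + i)
  rw [four_pow_split] at h1
  have ht0 : (0 : ℝ) < t := by exact_mod_cast (by omega : 0 < t)
  have h2 : (nn (t + i) : ℝ) * (2 * t) ≤ 4 * (L * u) * 4 ^ i := by
    calc (nn (t + i) : ℝ) * (2 * t) ≤ nn (t + i) * (2 * (((t + i : ℕ) : ℝ) + 1)) := by
          push_cast
          have : (0 : ℝ) ≤ i := Nat.cast_nonneg _
          gcongr
          linarith
      _ ≤ 4 ^ t * 4 ^ i := h1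
      _ ≤ _ := by gcongr
  have h3 : (nn (t + i) : ℝ) * (2 * t) ≤ 3 * L * 4 ^ i * (2 * t) := by
    refine h2.trans ?_
    have h5 : (0 : ℝ) < 4 ^ i := by positivity
    have h6 : 2 * u * (L * 4 ^ i) ≤ 3 * t * (L * 4 ^ i) := mul_le_mul_of_nonneg_right hut (by positivity)
    nlinarith
  exact le_of_mul_le_mul_right h3 (by positivity)

/-- lower bound for the block -/
theorem nn_low {L u : ℝ} {t : ℕ} (hL : 0 < L) (hu : 0 < u) (ht : 8 ≤ t) (htu : (t : ℝ) ≤ u)
    (h4 : L * u ≤ (4 : ℝ) ^ t) (i : ℕ) : L / 8 ≤ (nn (t + i) : ℝ) := by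
  have h1 := nn_ge (s := t + i) (by omega)
  rw [four_pow_split] at h1
  have ht0 : (0 : ℝ) < t := by exact_mod_cast (by omega : 0 < t)
  have ht1 : (1 : ℝ) ≤ t := by exact_mod_cast (by omega : 1 ≤ t)
  have hi0 : (0 : ℝ) ≤ i := Nat.cast_nonneg _
  have h2 := nat_lt_four_pow i
  have h3 : L * u * ((i : ℝ) + 1) ≤ 4 ^ t * 4 ^ i := mul_le_mul h4 h2 (by positivity) (by positivity)
  have h5 : L * t * ((i : ℝ) + 1) ≤ L * u * ((i : ℝ) + 1) := by gcongr
  have h6 : L * t * ((i : ℝ) + 1) ≤ nn (t + i) * (4 * (((t + i : ℕ) : ℝ) + 1)) := by linarith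
  have h7 : nn (t + i) * (4 * (((t + i : ℕ) : ℝ) + 1)) ≤ nn (t + i) * (8 * (t * ((i : ℝ) + 1))) := by
    refine mul_le_mul_of_nonneg_left ?_ (Nat.cast_nonneg _)
    push_cast
    nlinarith
  have h8 : L * (t * ((i : ℝ) + 1)) ≤ (8 * nn (t + i)) * (t * ((i : ℝ) + 1)) := by linarith
  have h9 := le_of_mul_le_mul_right h8 (by positivity)
  linarith

set_option maxHeartbeats 4000000 in
/-- **The theorem with explicit conditions.** -/
theorem explicit {q : ℕ} [hq : Fact q.Prime] {δ L u v : ℝ} (hδ : 0 < δ) (hδ1 : δ ≤ 1 / 64) (hL : L = Real.log q)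
    (hu : u = Real.log L) (hv : v = Real.log u) (c1 : 8 ≤ u) (c2 : 8 * v ≤ u) (c3 : Real.log (144 * v / δ) ≤ v)
    (hv1 : 1 ≤ v) (c4 : 345600 * u ^ 3 ≤ δ * L) (c5 : 4 * u ^ 4 ≤ L)
    (H : Subgroup (DirichletCharacter ℂ q)) (hH : 8 * √q * Real.exp (10 * δ * L) ≤ (Nat.card H : ℝ)) :
    ∃ χ ∈ H, χ ≠ 1 ∧ Real.exp (√(δ / 384) / 12 * √(L * v / u)) ≤
      ‖DirichletCharacter.LFunction χ (1 / 2)‖ := by
  have hu0 : 0 < u := by linarith
  have hv0 : 0 < v := by linarith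
  have hL0 : 0 < L := by nlinarith [pow_pos hu0 4]
  have hL1 : 2048 * u ≤ L := by nlinarith [pow_pos hu0 3, pow_le_pow_left₀ (by norm_num) c1 3]
  have hq0 : (0 : ℝ) < q := by exact_mod_cast hq.out.pos
  have hexpL : Real.exp L = q := by rw [hL]; exact Real.exp_log hq0
  obtain ⟨t, ht8, htu, hut, h4a, h4b⟩ := exists_t hL0 hu hv c1 hv1 c2
  have ht0 : (0 : ℝ) < t := by exact_mod_cast (by omega : 0 < t)
  have ht1 : (1 : ℝ) ≤ t := by exact_mod_cast (by omega : 1 ≤ t)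
  obtain ⟨T, hT⟩ := exists_T t ht8
  have hlog4 : Real.log 4 ≤ 1.387 := by
    rw [show (4 : ℝ) = 2 ^ 2 by norm_num, Real.log_pow]
    have := Real.log_two_lt_d9
    push_cast
    linarith
  have hlog4' : 0 < Real.log 4 := Real.log_pos (by norm_num)
  -- the parameters
  obtain ⟨Mr, hMr⟩ : ∃ Mr : ℕ → ℝ, ∀ i, Mr i = δ * L / (v * ((i : ℝ) + 1) ^ 2) := ⟨_, fun i => rfl⟩
  obtain ⟨m, hm⟩ : ∃ m : ℕ → ℕ, ∀ i, m i = ⌊Mr i⌋₊ := ⟨_, fun i => rfl⟩
  obtain ⟨n, hn⟩ : ∃ n : ℕ → ℕ, ∀ i, n i = nn (t + i) := ⟨_, fun i => rfl⟩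
  obtain ⟨w, hw⟩ : ∃ w : ℕ → ℝ, ∀ i, w i = ww (m i) (n i) (t + i) := ⟨_, fun i => rfl⟩
  obtain ⟨j, hj⟩ : ∃ j : ℕ → ℕ, ∀ i, j i = ⌊w i / 3⌋₊ := ⟨_, fun i => rfl⟩
  have hMr0 : ∀ i, 0 < Mr i := fun i => by rw [hMr]; positivity
  have hMrle : ∀ i, Mr i ≤ δ * L := by
    intro i
    rw [hMr]
    apply div_le_self (by positivity)
    have : (0 : ℝ) ≤ i := Nat.cast_nonneg _
    nlinarith [sq_nonneg (i : ℝ)]
  have hMr2 : ∀ i < t, 2 ≤ Mr i := by
    intro i hi
    rw [hMr, le_div_iff₀ (by positivity)]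
    have h1 : (i : ℝ) + 1 ≤ u := by
      have : ((i + 1 : ℕ) : ℝ) ≤ t := by exact_mod_cast hi
      push_cast at this
      linarith
    have h2 : ((i : ℝ) + 1) ^ 2 ≤ u ^ 2 := pow_le_pow_left₀ (by positivity) h1 2
    have h3 : v * ((i : ℝ) + 1) ^ 2 ≤ u * u ^ 2 := mul_le_mul (by linarith) h2 (by positivity) hu0.le
    have h4 : 0 < u ^ 3 := by positivity
    nlinarith
  have hm1 : ∀ i, (m i : ℝ) ≤ Mr i := fun i => by rw [hm]; exact Nat.floor_le (hMr0 i).le
  have hm2 : ∀ i < t, Mr i / 2 ≤ m i := by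
    intro i hi
    have h1 : Mr i < m i + 1 := by rw [hm]; exact Nat.lt_floor_add_one _
    have h2 := hMr2 i hi
    linarith
  have hm3 : ∀ i < t, 1 ≤ m i := by
    intro i hi
    have h1 := hm2 i hi
    have h2 := hMr2 i hi
    have h3 : (1 : ℝ) ≤ m i := by linarith
    exact_mod_cast h3
  have hn1 : ∀ i, 1 ≤ n i := fun i => by rw [hn]; exact one_le_nn (by omega)
  have hnT : ∀ i, (T i).card = n i := fun i => by rw [hn]; exact (hT i).2
  have hmn : ∀ i, 8 * m i ≤ n i := by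
    intro i
    have h1 : L / 8 ≤ n i := by rw [hn]; exact nn_low hL0 hu0 ht8 htu h4a i
    have h2 := hm1 i
    have h3 := hMrle i
    have h4 : 8 * (m i : ℝ) ≤ n i := by nlinarith
    exact_mod_cast h4
  have hw0 : ∀ i < t, 0 < w i := fun i hi => by rw [hw]; exact ww_pos (hm3 i hi) (hn1 i)
  have hwm : ∀ i, w i ^ 2 ≤ m i := by
    intro i
    rw [hw, ww_sq]
    apply div_le_of_le_mul₀ (by positivity) (by positivity)
    have h1 := nn_le (t + i)
    rw [← hn] at h1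
    have h2 : (n i : ℝ) ≤ 4 ^ (t + i) := by
      have h3 : (0 : ℝ) ≤ n i := Nat.cast_nonneg _
      have h4 : (0 : ℝ) ≤ ((t + i : ℕ) : ℝ) := Nat.cast_nonneg _
      nlinarith
    have h5 : (0 : ℝ) < 4 ^ (t + i) := by positivity
    have h6 : (0 : ℝ) ≤ m i := Nat.cast_nonneg _
    calc (m i : ℝ) * n i ≤ m i * 4 ^ (t + i) := mul_le_mul_of_nonneg_left h2 h6
      _ ≤ m i * (24 * 4 ^ (t + i)) := by gcongr; linarith
  have hww0 : ∀ i, 0 ≤ w i := fun i => by rw [hw]; exact Real.sqrt_nonneg _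
  have hj1 : ∀ i, (j i : ℝ) ≤ w i / 3 := fun i => by
    rw [hj]
    have := hww0 i
    exact Nat.floor_le (by positivity)
  have hj2 : ∀ i, w i / 3 - 1 ≤ j i := fun i => by
    have : w i / 3 < j i + 1 := by rw [hj]; exact Nat.lt_floor_add_one _
    linarith
  have hjm : ∀ i < t, j i ≤ m i := by
    intro i hi
    have h1 := hj1 i
    have h2 := hwm i
    have h3 : (1 : ℝ) ≤ m i := by exact_mod_cast hm3 i hi
    have h4 := hww0 i
    have h5 : (j i : ℝ) ≤ m i := by nlinarith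
    exact_mod_cast h5
  -- lower bound for w
  have hwlow : ∀ i < t, √(δ * L / (384 * (u * v))) * (1 / ((i : ℝ) + 1)) ≤ w i := by
    intro i hi
    have h1 : √(δ * L / (384 * (u * v))) * (1 / ((i : ℝ) + 1)) = √(δ * L / (384 * (u * v)) * (1 / ((i : ℝ) + 1) ^ 2)) := by
      rw [Real.sqrt_mul (by positivity), Real.sqrt_div zero_le_one, Real.sqrt_one, Real.sqrt_sq (by positivity)]
    rw [h1, hw]
    apply Real.sqrt_le_sqrt
    have h2 := nn_ge (s := t + i) (by omega)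
    rw [← hn] at h2
    have h3 := hm2 i hi
    rw [hMr] at h3
    have h4 : ((t + i : ℕ) : ℝ) + 1 ≤ 2 * t := by
      have : t + i + 1 ≤ 2 * t := by omega
      exact_mod_cast this
    have h5 : (4 : ℝ) ^ (t + i) ≤ n i * (8 * t) := by
      refine h2.trans ?_
      refine mul_le_mul_of_nonneg_left ?_ (Nat.cast_nonneg _)
      linarith
    have h6 : (1 : ℝ) / (8 * u) ≤ (n i : ℝ) / (4 : ℝ) ^ (t + i) := by
      rw [div_le_div_iff₀ (by positivity) (by positivity), one_mul]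
      refine h5.trans ?_
      gcongr
    calc δ * L / (384 * (u * v)) * (1 / ((i : ℝ) + 1) ^ 2)
        = (δ * L / (v * ((i : ℝ) + 1) ^ 2) / 2) * (1 / (8 * u)) / 24 := by
          field_simp
          norm_num
      _ ≤ (m i : ℝ) * ((n i : ℝ) / (4 : ℝ) ^ (t + i)) / 24 := by gcongr
      _ = (m i : ℝ) * n i / (24 * (4 : ℝ) ^ (t + i)) := by
          rw [mul_div_assoc', div_div, mul_comm (24 : ℝ)]
  set Wt := ∑ i ∈ range t, w i with hWt
  have hW1 : √(δ / 384) / 2 * √(L * v / u) ≤ Wt := by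
    have h1 : v / 2 ≤ ∑ i ∈ range t, 1 / ((i : ℝ) + 1) := by
      refine le_trans ?_ (sum_inv_ge t)
      rw [Real.le_log_iff_exp_le (by positivity)]
      have h2 : Real.exp (v / 2) ^ 2 = u := by
        rw [← Real.exp_nat_mul]
        have : ((2 : ℕ) : ℝ) * (v / 2) = v := by push_cast; ring
        rw [this, hv]
        exact Real.exp_log hu0
      have h3 : Real.exp (v / 2) ≤ 2 * u / 3 := by
        by_contra hcon
        push Not at hcon
        nlinarith [Real.exp_pos (v / 2)]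
      linarith
    have h2 : √(δ * L / (384 * (u * v))) * (v / 2) ≤ Wt := by
      calc √(δ * L / (384 * (u * v))) * (v / 2) ≤ √(δ * L / (384 * (u * v))) * ∑ i ∈ range t, 1 / ((i : ℝ) + 1) :=
            mul_le_mul_of_nonneg_left h1 (Real.sqrt_nonneg _)
        _ = ∑ i ∈ range t, √(δ * L / (384 * (u * v))) * (1 / ((i : ℝ) + 1)) := mul_sum _ _ _
        _ ≤ Wt := sum_le_sum fun i hi => hwlow i (mem_range.mp hi)
    refine le_trans (le_of_eq ?_) h2
    have h3 : √(δ * L / (384 * (u * v))) * v = √(δ / 384) * √(L * v / u) := by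
      have h4 : v = √(v ^ 2) := (Real.sqrt_sq hv0.le).symm
      rw [← Real.sqrt_mul (by positivity)]
      nth_rewrite 2 [h4]
      rw [← Real.sqrt_mul (by positivity)]
      congr 1
      field_simp
    calc √(δ / 384) / 2 * √(L * v / u) = √(δ / 384) * √(L * v / u) / 2 := by ring
      _ = _ := by rw [← h3]; ring
  have hW2 : 12 * u + 18 ≤ Wt := by
    refine le_trans ?_ hW1
    have h1 : 15 * u ≤ √(δ / 384) / 2 * √(L * v / u) := by
      have h2 : (15 * u) ^ 2 ≤ (√(δ / 384) / 2 * √(L * v / u)) ^ 2 := by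
        rw [mul_pow, mul_pow, div_pow, Real.sq_sqrt (by positivity), Real.sq_sqrt (by positivity)]
        have h3 : δ / 384 / 2 ^ 2 * (L * v / u) = (δ * L * v) / (1536 * u) := by
          field_simp
          norm_num
        rw [h3, le_div_iff₀ (by positivity)]
        have h4 : δ * L ≤ δ * L * v := le_mul_of_one_le_right (by positivity) hv1
        nlinarith
      exact (pow_le_pow_iff_left₀ (by positivity) (by positivity) (by norm_num)).mp h2
    linarith
  -- the heights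
  have hsqL : √L ≤ L / (2 * u ^ 2) := by
    rw [le_div_iff₀ (by positivity)]
    have h1 : 2 * u ^ 2 ≤ √L := by
      apply Real.le_sqrt_of_sq_le
      nlinarith
    have h2 : √L * √L = L := Real.mul_self_sqrt hL0.le
    nlinarith [Real.sqrt_nonneg L]
  have hwL : ∀ i, w i ≤ √L := by
    intro i
    apply Real.le_sqrt_of_sq_le
    have h1 := hwm i
    have h2 := hm1 i
    have h3 := hMrle i
    nlinarith
  have hWup : Wt ≤ u * √L := by
    rw [hWt]
    calc ∑ i ∈ range t, w i ≤ ∑ _i ∈ range t, √L := sum_le_sum fun i _ => hwL i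
      _ = t * √L := by rw [sum_const, card_range, nsmul_eq_mul]
      _ ≤ _ := by gcongr
  have hJr : ((∑ i ∈ range t, j i : ℕ) : ℝ) ≤ Wt / 3 := by
    push_cast
    rw [hWt, sum_div]
    exact sum_le_sum fun i _ => hj1 i
  have hX : 4 * (4 ^ (2 * t)) ^ (∑ i ∈ range t, j i) ≤ q := by
    set J := ∑ i ∈ range t, j i with hJ
    have h1 : (4 * (4 ^ (2 * t)) ^ J : ℝ) ≤ q := by
      rw [← hexpL, ← Real.log_le_iff_le_exp (by positivity), Real.log_mul (by norm_num) (by positivity), Real.log_pow,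
        Real.log_pow]
      have h2 : (J : ℝ) * (((2 * t : ℕ) : ℝ) * Real.log 4) ≤ (u * √L / 3) * ((2 * u) * 1.387) := by
        push_cast
        have h3 : (J : ℝ) ≤ u * √L / 3 := by linarith
        gcongr
      have h3 : (u * √L / 3) * ((2 * u) * 1.387) ≤ L / 2 := by
        have h4 : u ^ 2 * √L ≤ L / 2 := by
          calc u ^ 2 * √L ≤ u ^ 2 * (L / (2 * u ^ 2)) := by gcongr
            _ = L / 2 := by field_simp
        nlinarith
      linarith
    exact_mod_cast h1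
  have hXq : 4 ^ (2 * t) < q := by
    have h1 : ((4 : ℝ) ^ (2 * t)) < q := by
      rw [← hexpL, ← Real.log_lt_iff_lt_exp (by positivity), Real.log_pow]
      push_cast
      nlinarith
    exact_mod_cast h1
  -- the sizes
  obtain ⟨lam, hlam⟩ : ∃ lam : ℕ → ℝ, ∀ i, lam i = v + 4 * i := ⟨_, fun i => rfl⟩
  have hlam0 : ∀ i, 0 ≤ lam i := fun i => by rw [hlam]; positivity
  have h24 : ∀ i < t, 24 * (n i : ℝ) ≤ m i * Real.exp (lam i) := by
    intro i hi
    have h1 : (n i : ℝ) ≤ 3 * L * 4 ^ i := by rw [hn]; exact nn_up hL0 hu0 ht8 hut h4b i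
    have h2 := hm2 i hi
    rw [hMr] at h2
    have h3 : 144 * v / δ ≤ Real.exp v := by
      rw [← Real.log_le_iff_le_exp (by positivity)]
      exact c3
    have h4 : (4 : ℝ) ^ i * ((i : ℝ) + 1) ^ 2 ≤ Real.exp (4 * i) := by
      have h5 : (i : ℝ) + 1 ≤ Real.exp i := Real.add_one_le_exp _
      have h6 : (4 : ℝ) ^ i ≤ Real.exp (2 * i) := by
        have h7 : (4 : ℝ) ≤ Real.exp 2 := by
          have h8 : Real.exp 2 = Real.exp 1 ^ 2 := by rw [← Real.exp_nat_mul]; norm_num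
          rw [h8]
          nlinarith [Real.exp_one_gt_d9]
        calc (4 : ℝ) ^ i ≤ Real.exp 2 ^ i := pow_le_pow_left₀ (by norm_num) h7 i
          _ = Real.exp (2 * i) := by rw [← Real.exp_nat_mul]; ring_nf
      calc (4 : ℝ) ^ i * ((i : ℝ) + 1) ^ 2 ≤ Real.exp (2 * i) * (Real.exp i) ^ 2 := by gcongr
        _ = Real.exp (4 * i) := by
            rw [← Real.exp_nat_mul, ← Real.exp_add]
            congr 1
            push_cast
            ring
    have h5 : 24 * (n i : ℝ) ≤ (δ * L / (v * ((i : ℝ) + 1) ^ 2) / 2) * ((144 * v / δ) * ((4 : ℝ) ^ i * ((i : ℝ) + 1) ^ 2)) := by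
      have h6 : (δ * L / (v * ((i : ℝ) + 1) ^ 2) / 2) * ((144 * v / δ) * ((4 : ℝ) ^ i * ((i : ℝ) + 1) ^ 2)) =
          72 * L * 4 ^ i := by
        field_simp
        ring
      rw [h6]
      linarith
    refine h5.trans ?_
    rw [hlam, Real.exp_add]
    have h9 : 0 < Real.exp v := Real.exp_pos _
    refine mul_le_mul h2 (mul_le_mul h3 h4 (by positivity) h9.le) (by positivity) (Nat.cast_nonneg _)
  have hprod : ∏ i ∈ range t, ((n i : ℝ) / 2 ^ (t + i)) ^ (2 * m i) ≤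
      Real.exp (10 * δ * L) * ∏ i ∈ range t, w i ^ (2 * m i) := by
    have h1 : ∏ i ∈ range t, ((n i : ℝ) / 2 ^ (t + i)) ^ (2 * m i) ≤
        ∏ i ∈ range t, (Real.exp (Mr i * lam i) * w i ^ (2 * m i)) := by
      refine prod_le_prod (fun i _ => by positivity) fun i hi => ?_
      rw [mem_range] at hi
      rw [hw]
      exact d_pow (hm3 i hi) (hm1 i) (hlam0 i) (h24 i hi)
    rw [prod_mul_distrib, ← Real.exp_sum] at h1
    refine h1.trans ?_
    refine mul_le_mul_of_nonneg_right ?_ (prod_nonneg fun i _ => by have := hww0 i; positivity)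
    apply Real.exp_le_exp.mpr
    have h2 : ∀ i ∈ range t, Mr i * lam i ≤ δ * L / v * (v * (1 / ((i : ℝ) + 1) ^ 2) + 4 * (1 / ((i : ℝ) + 1))) := by
      intro i _
      rw [hMr, hlam]
      have h3 : δ * L / (v * ((i : ℝ) + 1) ^ 2) * (v + 4 * i) = δ * L / v * ((v + 4 * i) * (1 / ((i : ℝ) + 1) ^ 2)) := by
        field_simp
      rw [h3]
      refine mul_le_mul_of_nonneg_left ?_ (by positivity)
      have h4 : 4 * (i : ℝ) * (1 / ((i : ℝ) + 1) ^ 2) ≤ 4 * (1 / ((i : ℝ) + 1)) := by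
        rw [mul_one_div, mul_one_div, div_le_div_iff₀ (by positivity) (by positivity)]
        have : (0 : ℝ) ≤ i := Nat.cast_nonneg _
        nlinarith
      linarith
    refine (sum_le_sum h2).trans ?_
    rw [← mul_sum, sum_add_distrib, ← mul_sum, ← mul_sum]
    have h3 := sum_inv_sq t
    have h4 := sum_inv_le t
    have h5 : Real.log t ≤ v := by
      rw [hv]
      exact Real.log_le_log ht0 htu
    have h6 : v * ∑ i ∈ range t, 1 / ((i : ℝ) + 1) ^ 2 + 4 * ∑ i ∈ range t, 1 / ((i : ℝ) + 1) ≤ 10 * v := by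
      nlinarith
    calc δ * L / v * (v * ∑ i ∈ range t, 1 / ((i : ℝ) + 1) ^ 2 + 4 * ∑ i ∈ range t, 1 / ((i : ℝ) + 1))
        ≤ δ * L / v * (10 * v) := mul_le_mul_of_nonneg_left h6 (by positivity)
      _ = 10 * δ * L := by field_simp
  have hsize : 8 * √q * ∏ i ∈ range t, ((n i : ℝ) / 2 ^ (t + i)) ^ (2 * m i) ≤
      (Nat.card H : ℝ) * ∏ i ∈ range t, w i ^ (2 * m i) := by
    have h0 : 0 ≤ ∏ i ∈ range t, w i ^ (2 * m i) := prod_nonneg fun i _ => by have := hww0 i; positivity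
    calc 8 * √q * ∏ i ∈ range t, ((n i : ℝ) / 2 ^ (t + i)) ^ (2 * m i)
        ≤ 8 * √q * (Real.exp (10 * δ * L) * ∏ i ∈ range t, w i ^ (2 * m i)) := by gcongr
      _ = 8 * √q * Real.exp (10 * δ * L) * ∏ i ∈ range t, w i ^ (2 * m i) := by ring
      _ ≤ _ := mul_le_mul_of_nonneg_right hH h0
  obtain ⟨χ, hχ, hne, h⟩ := core3 H (T := T) (X := 4 ^ (2 * t)) (B := t)
    (fun i _ p hp => prime_of_mem ((hT i).1 hp))
    (fun i hi p hp => by
      have := (hT i).1 hp
      unfold P at this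
      rw [mem_filter, mem_Ioc] at this
      exact this.1.2.trans (Nat.pow_le_pow_right (by norm_num) (by omega)))
    hXq
    (fun i _ i' _ hne => by
      rw [disjoint_left]
      intro p hp hp'
      have := P_disj ((hT i).1 hp) ((hT i').1 hp')
      omega)
    (j := j) (m := m) hjm hX (w := w) (d := fun i => (n i : ℝ) / 2 ^ (t + i)) hw0
    (fun i _ => by have := hj1 i; linarith)
    (fun i _ => by
      rw [hw, ← hnT i]
      exact ww_es (hT i).1 (by rw [hnT i]; exact hmn i))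
    (fun i _ => by
      rw [hw]
      exact ww_le (by have := hmn i; omega))
    (fun i _ χ => by
      have := FS_block (hT i).1 χ
      rwa [hnT i] at this)
    hsize
  refine ⟨χ, hχ, hne, le_trans ?_ h⟩
  rw [le_div_iff₀ (by positivity)]
  have g1 : (16 : ℝ) * 2 ^ t ≤ Real.exp (t + 3) := by
    have h3 : (16 : ℝ) ≤ Real.exp 3 := by
      have h4 : Real.exp 3 = Real.exp 1 ^ 3 := by
        rw [← Real.exp_nat_mul]
        norm_num
      rw [h4]
      have h5 := Real.exp_one_gt_d9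
      have h6 : (2.7 : ℝ) ^ 3 ≤ Real.exp 1 ^ 3 := pow_le_pow_left₀ (by norm_num) (by linarith) 3
      have h7 : (16 : ℝ) ≤ 2.7 ^ 3 := by norm_num
      linarith
    have h4 : (2 : ℝ) ^ t ≤ Real.exp t := by
      calc (2 : ℝ) ^ t ≤ Real.exp 1 ^ t := pow_le_pow_left₀ (by norm_num) (by linarith [Real.exp_one_gt_d9]) t
        _ = Real.exp (t : ℝ) := by rw [← Real.exp_nat_mul, mul_one]
    calc (16 : ℝ) * 2 ^ t ≤ Real.exp 3 * Real.exp t := by gcongr
      _ = Real.exp (t + 3) := by rw [← Real.exp_add, add_comm]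
  have g2 : Real.exp (Wt / 3 - t) ≤ ∏ i ∈ range t, (3 : ℝ) ^ j i := by
    have h1 : Wt / 3 - t ≤ ∑ i ∈ range t, (j i : ℝ) := by
      have h2 : ∑ i ∈ range t, (w i / 3 - 1) ≤ ∑ i ∈ range t, (j i : ℝ) := sum_le_sum fun i _ => hj2 i
      rw [sum_sub_distrib, ← sum_div, sum_const, card_range, nsmul_eq_mul, mul_one] at h2
      exact h2
    calc Real.exp (Wt / 3 - t) ≤ Real.exp (∑ i ∈ range t, (j i : ℝ)) := Real.exp_le_exp.mpr h1
      _ = ∏ i ∈ range t, Real.exp (j i) := Real.exp_sum _ _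
      _ ≤ ∏ i ∈ range t, (3 : ℝ) ^ j i := by
          refine prod_le_prod (fun i _ => (Real.exp_pos _).le) fun i _ => ?_
          calc Real.exp (j i : ℝ) = Real.exp 1 ^ j i := by rw [← Real.exp_nat_mul, mul_one]
            _ ≤ 3 ^ j i := pow_le_pow_left₀ (Real.exp_pos 1).le (by linarith [Real.exp_one_lt_d9]) _
  calc Real.exp (√(δ / 384) / 12 * √(L * v / u)) * (16 * 2 ^ t)
      ≤ Real.exp (Wt / 6) * Real.exp (t + 3) := by
        refine mul_le_mul (Real.exp_le_exp.mpr ?_) g1 (by positivity) (Real.exp_pos _).le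
        have : √(δ / 384) / 12 * √(L * v / u) = (√(δ / 384) / 2 * √(L * v / u)) / 6 := by ring
        rw [this]
        linarith
    _ = Real.exp (Wt / 6 + (t + 3)) := (Real.exp_add _ _).symm
    _ ≤ Real.exp (Wt / 3 - t) := Real.exp_le_exp.mpr (by linarith)
    _ ≤ _ := g2

theorem tendsto_L : Tendsto (fun q : ℕ => Real.log (q : ℝ)) atTop atTop :=
  Real.tendsto_log_atTop.comp tendsto_natCast_atTop_atTop

theorem ev_pow (n : ℕ) (C κ : ℝ) (hC : 0 < C) (hκ : 0 < κ) :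
    ∀ᶠ x : ℝ in atTop, C * Real.log x ^ n ≤ κ * x := by
  have h1 := (Real.isLittleO_pow_log_id_atTop (n := n)).bound (c := κ / C) (by positivity)
  have h3 := eventually_ge_atTop (1 : ℝ)
  filter_upwards [h1, h3] with x hx hx1
  simp only [id] at hx
  have h4 : 0 ≤ Real.log x := Real.log_nonneg hx1
  rw [Real.norm_of_nonneg (by positivity), Real.norm_of_nonneg (by linarith)] at hx
  calc C * Real.log x ^ n ≤ C * (κ / C * x) := by gcongr
    _ = κ * x := by field_simp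

theorem ev_c3 (δ : ℝ) (hδ : 0 < δ) : ∀ᶠ v : ℝ in atTop, Real.log (144 * v / δ) ≤ v := by
  have h1 := ev_pow 1 1 (1 / 2) one_pos (by norm_num)
  filter_upwards [h1, eventually_ge_atTop (1 : ℝ), eventually_ge_atTop (2 * Real.log (144 / δ))] with v hv hv1 hv2
  rw [one_mul, pow_one] at hv
  have h2 : Real.log (144 * v / δ) = Real.log (144 / δ) + Real.log v := by
    rw [← Real.log_mul (by positivity) (by linarith)]
    congr 1
    ring
  rw [h2]
  linarith

/-- **Extreme central values in every large group of characters.** -/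
theorem extreme_subgroups' (ε : ℝ) (hε : 0 < ε) : ∃ q₀ : ℕ, ∀ q : ℕ, q₀ ≤ q → q.Prime →
    ∀ [NeZero q], ∀ H : Subgroup (DirichletCharacter ℂ q), (q : ℝ) ^ (1 / 2 + ε) ≤ (Nat.card H : ℝ) →
    ∃ χ ∈ H, χ ≠ 1 ∧
      Real.exp (√(min (ε / 20) (1 / 64) / 384) / 12 * √(Real.log q * Real.log (Real.log (Real.log q)) / Real.log (Real.log q))) ≤
        ‖DirichletCharacter.LFunction χ (1 / 2)‖ := by
  set δ : ℝ := min (ε / 20) (1 / 64) with hδdef
  have hδ : 0 < δ := lt_min (by positivity) (by norm_num)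
  have hδ1 : δ ≤ 1 / 64 := min_le_right _ _
  have hδε : 10 * δ ≤ ε / 2 := by
    have : δ ≤ ε / 20 := min_le_left _ _
    linarith
  have hLL : Tendsto (fun q : ℕ => Real.log (Real.log (q : ℝ))) atTop atTop := Real.tendsto_log_atTop.comp tendsto_L
  have hLLL : Tendsto (fun q : ℕ => Real.log (Real.log (Real.log (q : ℝ)))) atTop atTop :=
    Real.tendsto_log_atTop.comp hLL
  have a1 := hLL.eventually_ge_atTop 8
  have a2 := hLL.eventually (ev_pow 1 8 1 (by norm_num) one_pos)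
  have a3 := hLLL.eventually (ev_c3 δ hδ)
  have a4 := hLLL.eventually_ge_atTop 1
  have a5 := tendsto_L.eventually (ev_pow 3 345600 δ (by norm_num) hδ)
  have a6 := tendsto_L.eventually (ev_pow 4 4 1 (by norm_num) one_pos)
  have a7 := ev_small 8 (ε / 2) (by positivity)
  obtain ⟨q₀, hq₀⟩ := eventually_atTop.mp ((a1.and (a2.and a3)).and ((a4.and a5).and (a6.and a7)))
  refine ⟨q₀, fun q hq hp _ H hH => ?_⟩
  obtain ⟨⟨b1, b2, b3⟩, ⟨b4, b5⟩, b6, b7⟩ := hq₀ q hq
  haveI : Fact q.Prime := ⟨hp⟩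
  have hq1 : (1 : ℝ) ≤ q := by exact_mod_cast hp.one_lt.le
  have hq0 : (0 : ℝ) < q := by linarith
  have hsize : 8 * √q * Real.exp (10 * δ * Real.log q) ≤ (Nat.card H : ℝ) := by
    refine le_trans ?_ hH
    have h1 : Real.exp (10 * δ * Real.log q) = (q : ℝ) ^ (10 * δ) := by
      rw [Real.rpow_def_of_pos hq0]
      ring_nf
    rw [h1]
    calc 8 * √q * (q : ℝ) ^ (10 * δ) ≤ (q : ℝ) ^ (ε / 2) * (q : ℝ) ^ (1 / 2 : ℝ) * (q : ℝ) ^ (ε / 2) := by
          rw [Real.sqrt_eq_rpow]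
          have h1 : (q : ℝ) ^ (10 * δ) ≤ (q : ℝ) ^ (ε / 2) := Real.rpow_le_rpow_of_exponent_le hq1 hδε
          gcongr
      _ = (q : ℝ) ^ (1 / 2 + ε) := by
          rw [← Real.rpow_add hq0, ← Real.rpow_add hq0]
          congr 1
          ring
  rw [pow_one, one_mul] at b2
  rw [one_mul] at b6
  exact explicit hδ hδ1 rfl rfl rfl b1 b2 b3 b4 b5 b6 H hsize

end Pool.Agent.X24.Coset
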